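import Pool.Agent.Q112.BP.Defs

/-!
Relations given by the values of polymorphisms of an omega-categorical structure are primitive
positive definable; a local selection of coordinates gives a pp-construction of `K_3`.
-/

set_option autoImplicit false

namespace Pool.Agent.Q112.BP

open Set Function Pool.Agent.W994.AR

variable {A ι : Type} {ar : ι → ℕ}

/-- `f` is a polymorphism of `𝔸` whose variables are indexed by `κ` -/
def PolA (𝔸 : Str ι ar A) {κ : Type} (f : (κ → A) → A) : Prop :=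
  ∀ (i : ι) (v : κ → Fin (ar i) → A), (∀ a, v a ∈ 𝔸 i) → (fun j => f (fun a => v a j)) ∈ 𝔸 i

/-- `f` preserves the relations of `𝔸` on the points of `D` -/
def PPol (𝔸 : Str ι ar A) {κ : Type} (D : Set (κ → A)) (f : (κ → A) → A) : Prop :=
  ∀ (i : ι) (v : κ → Fin (ar i) → A), (∀ a, v a ∈ 𝔸 i) → (∀ j, (fun a => v a j) ∈ D) →
    (fun j => f (fun a => v a j)) ∈ 𝔸 i

theorem PPol.mono {𝔸 : Str ι ar A} {κ : Type} {D D' : Set (κ → A)} {f : (κ → A) → A}
    (h : PPol 𝔸 D f) (hD : D' ⊆ D) : PPol 𝔸 D' f :=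
  fun i v hv hvD => h i v hv (fun j => hD (hvD j))

theorem PPol.aut {𝔸 : Str ι ar A} {κ : Type} {D : Set (κ → A)} {f : (κ → A) → A}
    (h : PPol 𝔸 D f) {g : Equiv.Perm A} (hg : g ∈ autGroup 𝔸) : PPol 𝔸 D (fun x => g (f x)) :=
  fun i v hv hvD => (hg i _).1 (h i v hv hvD)

/-- values at `T` of maps preserving the relations on `D` -/
def RR (𝔸 : Str ι ar A) {κ J : Type} (D : Set (κ → A)) (T : J → κ → A) : Set (J → A) :=
  {z | ∃ h : (κ → A) → A, PPol 𝔸 D h ∧ ∀ j, z j = h (T j)}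

theorem RR.aut {𝔸 : Str ι ar A} {κ J : Type} {D : Set (κ → A)} {T : J → κ → A} {z : J → A}
    (hz : z ∈ RR 𝔸 D T) {g : Equiv.Perm A} (hg : g ∈ autGroup 𝔸) : (fun j => g (z j)) ∈ RR 𝔸 D T := by
  obtain ⟨h, h1, h2⟩ := hz
  exact ⟨_, h1.aut hg, fun j => congrArg g (h2 j)⟩

theorem RR.mono {𝔸 : Str ι ar A} {κ J : Type} {D D' : Set (κ → A)} {T : J → κ → A}
    (hD : D' ⊆ D) : RR 𝔸 D T ⊆ RR 𝔸 D' T := by
  rintro z ⟨h, h1, h2⟩
  exact ⟨h, h1.mono hD, h2⟩

theorem Oligo.fin {𝔸 : Str ι ar A} (hO : Oligo 𝔸) (J : Type) [Finite J] :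
    ∃ F : Set (J → A), F.Finite ∧ ∀ v : J → A, ∃ w ∈ F, ∃ g ∈ autGroup 𝔸,
      ∀ j, g (v j) = w j := by
  obtain ⟨k, ⟨e⟩⟩ := Finite.exists_equiv_fin J
  obtain ⟨F, hF, h⟩ := hO k
  refine ⟨(fun w j => w (e j)) '' F, hF.image _, ?_⟩
  intro v
  obtain ⟨w, hw, g, hg, h1⟩ := h (fun i => v (e.symm i))
  refine ⟨fun j => w (e j), ⟨w, hw, rfl⟩, g, hg, fun j => ?_⟩
  have := h1 (e j)
  simpa using this

theorem RR_pp [Finite ι] [Nonempty A] (𝔸 : Str ι ar A) {κ J : Type} [Finite J] {D : Set (κ → A)}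
    (hD : D.Finite) (T : J → κ → A) (hT : ∀ j, T j ∈ D) : PP 𝔸 (RR 𝔸 D T) := by
  classical
  have := hD.to_subtype
  refine ⟨D, hD.to_subtype, (range fun j : J => (Atom.eq (Sum.inl j) (Sum.inr ⟨T j, hT j⟩) :
      Atom ι ar (J ⊕ D))) ∪
    ((fun c : Σ i : ι, (Fin (ar i) → D) => (Atom.rel c.1 (fun j => Sum.inr (c.2 j)) :
      Atom ι ar (J ⊕ D))) '' {c | ∀ a, (fun j => (c.2 j).1 a) ∈ 𝔸 c.1}), ?_, ?_⟩
  · exact (Set.finite_range _).union ((Set.toFinite _).image _)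
  · intro z
    constructor
    · rintro ⟨h, h1, h2⟩
      refine ⟨fun d => h d.1, ?_⟩
      rintro φ (⟨j, rfl⟩ | ⟨⟨i, c⟩, hc, rfl⟩)
      · exact h2 j
      · exact h1 i (fun a j => (c j).1 a) hc (fun j => (c j).2)
    · rintro ⟨u, hu⟩
      refine ⟨fun x => if hx : x ∈ D then u ⟨x, hx⟩ else Classical.arbitrary A, ?_, ?_⟩
      · intro i v hv hvD
        have h1 := hu _ (Or.inr ⟨⟨i, fun j => ⟨fun a => v a j, hvD j⟩⟩, hv, rfl⟩)
        have h2 : (fun j => if hx : (fun a => v a j) ∈ D then u ⟨fun a => v a j, hx⟩ else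
            Classical.arbitrary A) = fun j => u ⟨fun a => v a j, hvD j⟩ := by
          funext j
          rw [dif_pos (hvD j)]
        show (fun j => if hx : (fun a => v a j) ∈ D then u ⟨fun a => v a j, hx⟩ else
            Classical.arbitrary A) ∈ 𝔸 i
        rw [h2]
        exact h1
      · intro j
        have h1 := hu _ (Or.inl ⟨j, rfl⟩)
        show z j = if hx : T j ∈ D then u ⟨T j, hx⟩ else Classical.arbitrary A
        rw [dif_pos (hT j)]
        exact h1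

/-- a finite set of points suffices -/
theorem RR_stable {𝔸 : Str ι ar A} (hO : Oligo 𝔸) {κ J : Type} [Finite J] (T : J → κ → A) :
    ∃ D₀ : Set (κ → A), D₀.Finite ∧ (∀ j, T j ∈ D₀) ∧
      ∀ D : Set (κ → A), D.Finite → RR 𝔸 D₀ T ⊆ RR 𝔸 D T := by
  classical
  obtain ⟨F, hF, hrep⟩ := hO.fin J
  have hch : ∀ w : J → A, ∃ D : Set (κ → A), D.Finite ∧
      ((∃ D' : Set (κ → A), D'.Finite ∧ w ∉ RR 𝔸 D' T) → w ∉ RR 𝔸 D T) := by
    intro w
    by_cases hw : ∃ D' : Set (κ → A), D'.Finite ∧ w ∉ RR 𝔸 D' T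
    · obtain ⟨D', h1, h2⟩ := hw
      exact ⟨D', h1, fun _ => h2⟩
    · exact ⟨∅, Set.finite_empty, fun h => absurd h hw⟩
  choose Dw hDw hDw' using hch
  refine ⟨range T ∪ ⋃ w ∈ F, Dw w, ?_, fun j => Or.inl ⟨j, rfl⟩, ?_⟩
  · exact (Set.finite_range _).union (hF.biUnion (fun w _ => hDw w))
  · intro D hD z hz
    obtain ⟨w, hw, g, hg, hgw⟩ := hrep z
    have h1 : (fun j => g (z j)) = w := funext hgw
    have h2 := RR.aut hz hg
    rw [h1] at h2
    have h3 : w ∈ RR 𝔸 (Dw w) T := by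
      refine RR.mono ?_ h2
      exact (Set.subset_biUnion_of_mem (u := fun w => Dw w) hw).trans subset_union_right
    have h4 : w ∈ RR 𝔸 D T := by
      by_contra hno
      exact hDw' w ⟨D, hD, hno⟩ h3
    have h5 := RR.aut h4 ((autGroup 𝔸).inv_mem hg)
    have h6 : (fun j => g⁻¹ (w j)) = z := by
      funext j
      rw [← hgw j]
      simp
    rw [h6] at h5
    exact h5

/-- `h` on `D` extends to maps preserving the relations on any finite set -/
def Good (𝔸 : Str ι ar A) {κ : Type} (D : Set (κ → A)) (h : (κ → A) → A) : Prop :=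
  ∀ D' : Set (κ → A), D'.Finite → ∃ h' : (κ → A) → A, PPol 𝔸 D' h' ∧ ∀ x ∈ D, h' x = h x

theorem Good.step {𝔸 : Str ι ar A} (hO : Oligo 𝔸) {κ : Type} {D : Set (κ → A)} (hD : D.Finite)
    {h : (κ → A) → A} (hG : Good 𝔸 D h) (t : κ → A) :
    ∃ h1 : (κ → A) → A, (∀ x ∈ D, h1 x = h x) ∧ Good 𝔸 (insert t D) h1 := by
  classical
  have := hD.to_subtype
  by_cases ht : t ∈ D
  · exact ⟨h, fun _ _ => rfl, by rw [Set.insert_eq_of_mem ht]; exact hG⟩
  by_contra hno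
  -- every value fails on a finite set
  have hfail : ∀ a : A, ∃ D' : Set (κ → A), D'.Finite ∧ ∀ h' : (κ → A) → A, PPol 𝔸 D' h' →
      (∀ x ∈ D, h' x = h x) → h' t ≠ a := by
    intro a
    by_contra hcon
    push Not at hcon
    apply hno
    refine ⟨update h t a, fun x hx => ?_, fun D' hD' => ?_⟩
    · rw [Function.update_of_ne]
      rintro rfl
      exact ht hx
    · obtain ⟨h', h1, h2, h3⟩ := hcon D' hD'
      refine ⟨h', h1, ?_⟩
      intro x hx
      rcases Set.mem_insert_iff.1 hx with hxt | hx'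
      · rw [hxt, Function.update_self, h3]
      · rw [Function.update_of_ne, h2 x hx']
        rintro rfl
        exact ht hx'
  choose Da hDa hDa' using hfail
  obtain ⟨F, hF, hrep⟩ := hO.fin (D ⊕ Unit)
  let z : A → (D ⊕ Unit → A) := fun a => Sum.elim (fun d => h d.1) (fun _ => a)
  have hch : ∀ w : D ⊕ Unit → A, ∃ a : A, (∃ a' : A, ∃ g ∈ autGroup 𝔸, ∀ j, g (z a' j) = w j) →
      ∃ g ∈ autGroup 𝔸, ∀ j, g (z a j) = w j := by
    intro w
    by_cases hw : ∃ a' : A, ∃ g ∈ autGroup 𝔸, ∀ j, g (z a' j) = w j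
    · obtain ⟨a', h1⟩ := hw
      exact ⟨a', fun _ => h1⟩
    · exact ⟨h t, fun h => absurd h hw⟩
  choose aw haw using hch
  obtain ⟨h', h1, h2⟩ := hG (⋃ w ∈ F, Da (aw w)) (hF.biUnion (fun w _ => hDa _))
  obtain ⟨w, hw, g, hg, hgw⟩ := hrep (z (h' t))
  obtain ⟨g', hg', hgw'⟩ := haw w ⟨h' t, g, hg, hgw⟩
  have hγ : g'⁻¹ * g ∈ autGroup 𝔸 := (autGroup 𝔸).mul_mem ((autGroup 𝔸).inv_mem hg') hg
  have h3 : ∀ j, (g'⁻¹ * g) (z (h' t) j) = z (aw w) j := by
    intro j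
    rw [Equiv.Perm.mul_apply, hgw j, ← hgw' j]
    simp
  have h4 : PPol 𝔸 (Da (aw w)) (fun x => (g'⁻¹ * g) (h' x)) := by
    refine (h1.aut hγ).mono ?_
    exact Set.subset_biUnion_of_mem (u := fun w => Da (aw w)) hw
  refine hDa' (aw w) _ h4 ?_ ?_
  · intro x hx
    rw [h2 x hx]
    exact h3 (Sum.inl ⟨x, hx⟩)
  · exact h3 (Sum.inr ())

/-- compactness: a finite map that extends to partial polymorphisms on all finite sets extends to
a polymorphism -/
theorem Good.ext {𝔸 : Str ι ar A} (hO : Oligo 𝔸) [Countable A] {κ : Type} [Finite κ]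
    {D : Set (κ → A)} (hD : D.Finite) {h : (κ → A) → A} (hG : Good 𝔸 D h) :
    ∃ H : (κ → A) → A, PolA 𝔸 H ∧ ∀ x ∈ D, H x = h x := by
  classical
  by_cases hne : Nonempty (κ → A)
  swap
  · refine ⟨h, ?_, fun _ _ => rfl⟩
    intro i v hv
    obtain ⟨h', h1, _⟩ := hG ∅ Set.finite_empty
    have h2 : ∀ j : Fin (ar i), False := fun j => hne ⟨fun a => v a j⟩
    have h3 := h1 i v hv (fun j => (h2 j).elim)
    have h4 : (fun j => h (fun a => v a j)) = fun j => h' (fun a => v a j) := by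
      funext j
      exact (h2 j).elim
    rw [h4]
    exact h3
  have : Countable (κ → A) := inferInstance
  obtain ⟨t, ht⟩ := exists_surjective_nat (κ → A)
  -- the sequence of finite maps
  let S := {p : Set (κ → A) × ((κ → A) → A) // p.1.Finite ∧ Good 𝔸 p.1 p.2}
  have hstep : ∀ (n : ℕ) (p : S), ∃ q : S, q.1.1 = insert (t n) p.1.1 ∧
      ∀ x ∈ p.1.1, q.1.2 x = p.1.2 x := by
    rintro n ⟨⟨D, h⟩, hD, hG⟩
    obtain ⟨h1, h2, h3⟩ := hG.step hO hD (t n)
    exact ⟨⟨(insert (t n) D, h1), hD.insert _, h3⟩, rfl, h2⟩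
  choose nx hnx1 hnx2 using hstep
  let sq : ℕ → S := fun n => Nat.rec ⟨(D, h), hD, hG⟩ (fun n p => nx n p) n
  have hsq0 : sq 0 = ⟨(D, h), hD, hG⟩ := rfl
  have hsqs : ∀ n, sq (n + 1) = nx n (sq n) := fun n => rfl
  have hmono : ∀ n m, n ≤ m → (sq n).1.1 ⊆ (sq m).1.1 ∧
      ∀ x ∈ (sq n).1.1, (sq m).1.2 x = (sq n).1.2 x := by
    intro n m hnm
    induction m, hnm using Nat.le_induction with
    | base => exact ⟨subset_rfl, fun _ _ => rfl⟩
    | succ m _ ih =>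
      refine ⟨ih.1.trans ?_, ?_⟩
      · rw [hsqs, hnx1]
        exact Set.subset_insert _ _
      · intro x hx
        rw [hsqs, hnx2 m (sq m) x (ih.1 hx)]
        exact ih.2 x hx
  choose idx hidx using ht
  have hmem : ∀ x, x ∈ (sq (idx x + 1)).1.1 := by
    intro x
    rw [hsqs, hnx1, hidx]
    exact Set.mem_insert _ _
  let H : (κ → A) → A := fun x => (sq (idx x + 1)).1.2 x
  have hH : ∀ n x, x ∈ (sq n).1.1 → H x = (sq n).1.2 x := by
    intro n x hx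
    rcases le_total (idx x + 1) n with h1 | h1
    · exact ((hmono _ _ h1).2 x (hmem x)).symm
    · exact (hmono _ _ h1).2 x hx
  refine ⟨H, ?_, fun x hx => hH 0 x hx⟩
  intro i v hv
  -- all columns in one finite set
  obtain ⟨N, hN⟩ : ∃ N, ∀ j : Fin (ar i), (fun a => v a j) ∈ (sq N).1.1 := by
    refine ⟨Finset.univ.sup (fun j : Fin (ar i) => idx (fun a => v a j) + 1), fun j => ?_⟩
    exact (hmono _ _ (Finset.le_sup (f := fun j : Fin (ar i) => idx (fun a => v a j) + 1)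
      (Finset.mem_univ j))).1 (hmem _)
  obtain ⟨h', h1, h2⟩ := (sq N).2.2 (range fun j : Fin (ar i) => (fun a => v a j))
    (Set.finite_range _)
  have h3 := h1 i v hv (fun j => ⟨j, rfl⟩)
  have h4 : (fun j => H (fun a => v a j)) = fun j => h' (fun a => v a j) := by
    funext j
    rw [hH N _ (hN j), h2 _ (hN j)]
  rw [h4]
  exact h3

/-- The values of polymorphisms of an omega-categorical structure at given points form a primitive
positive definable relation. -/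
theorem pp_values [Finite ι] [Nonempty A] [Countable A] {𝔸 : Str ι ar A} (hO : Oligo 𝔸)
    {κ J : Type} [Finite κ] [Finite J] (T : J → κ → A) :
    PP 𝔸 {z : J → A | ∃ h : (κ → A) → A, PolA 𝔸 h ∧ ∀ j, z j = h (T j)} := by
  classical
  obtain ⟨D₀, hD₀, hT, hmin⟩ := RR_stable hO T
  convert RR_pp 𝔸 hD₀ T hT using 1
  ext z
  constructor
  · rintro ⟨h, h1, h2⟩
    exact ⟨h, fun i v hv _ => h1 i v hv, h2⟩
  · intro hz
    obtain ⟨h0, h01, h02⟩ := hz
    have hG : Good 𝔸 (range T) h0 := by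
      intro D' hD'
      obtain ⟨h', h1, h2⟩ := hmin D' hD' ⟨h0, h01, h02⟩
      refine ⟨h', h1, ?_⟩
      rintro x ⟨j, rfl⟩
      rw [← h2 j, h02 j]
    obtain ⟨H, hH1, hH2⟩ := hG.ext hO (Set.finite_range T)
    exact ⟨H, hH1, fun j => by rw [h02 j, hH2 _ ⟨j, rfl⟩]⟩

/-- the edges of `K_3` -/
abbrev Ed : Type := {e : Fin 3 × Fin 3 // e.1 ≠ e.2}

/-- A local selection of coordinates, compatible with the two projections of the edges of `K_3`,
gives a pp-construction of `K_3`. -/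
theorem k3_of_select [Finite ι] [Countable A] {𝔸 : Str ι ar A} (hO : Oligo 𝔸) (S : Set A)
    (hS : S.Finite) (hne : S.Nonempty)
    (Φ₃ : ∀ f : (Fin 3 → A) → A, PolA 𝔸 f → Fin 3) (Φ₆ : ∀ f : (Ed → A) → A, PolA 𝔸 f → Ed)
    (h1 : ∀ (f : (Ed → A) → A) (hf : PolA 𝔸 f) (hf' : PolA 𝔸 (fun y : Fin 3 → A =>
      f (fun e => y e.1.1))), Φ₃ _ hf' = (Φ₆ f hf).1.1)
    (h2 : ∀ (f : (Ed → A) → A) (hf : PolA 𝔸 f) (hf' : PolA 𝔸 (fun y : Fin 3 → A =>
      f (fun e => y e.1.2))), Φ₃ _ hf' = (Φ₆ f hf).1.2)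
    (h3 : ∀ (f f' : (Fin 3 → A) → A) (hf : PolA 𝔸 f) (hf' : PolA 𝔸 f'),
      (∀ x : Fin 3 → A, (∀ k, x k ∈ S) → f x = f' x) → Φ₃ f hf = Φ₃ f' hf') :
    PPConstructsK3 𝔸 := by
  classical
  have hA : Nonempty A := ⟨hne.some⟩
  have := hS.to_subtype
  let I : Type := Fin 3 → S
  have hI : Finite I := inferInstance
  let T : I ⊕ I → Ed → A := Sum.elim (fun t e => (t e.1.1 : A)) (fun t e => (t e.1.2 : A))
  let E : Set (I ⊕ I → A) := {z | ∃ h : (Ed → A) → A, PolA 𝔸 h ∧ ∀ j, z j = h (T j)}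
  have hE : PP 𝔸 E := pp_values hO T
  obtain ⟨n, ⟨e⟩⟩ := Finite.exists_equiv_fin I
  have hpol1 : ∀ f : (Ed → A) → A, PolA 𝔸 f → PolA 𝔸 (fun y : Fin 3 → A => f (fun e => y e.1.1)) :=
    fun f hf i v hv => hf i (fun e => v e.1.1) (fun e => hv _)
  have hpol2 : ∀ f : (Ed → A) → A, PolA 𝔸 f → PolA 𝔸 (fun y : Fin 3 → A => f (fun e => y e.1.2)) :=
    fun f hf i v hv => hf i (fun e => v e.1.2) (fun e => hv _)
  refine ⟨n, {z | z ∘ Sum.map e e ∈ E}, ?_, (hE.subst (Sum.map e e)).toPPDef,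
    ⟨fun i k => ((e.symm k) i : A), ?_⟩, ?_⟩
  · have : Nonempty I := ⟨fun _ => ⟨hne.some, hne.some_mem⟩⟩
    have h4 : Nonempty (Fin n) := ⟨e this.some⟩
    exact Fin.pos_iff_nonempty.2 h4
  · intro i j hij
    refine ⟨fun y => y ⟨(i, j), hij⟩, fun i' v hv => hv _, ?_⟩
    rintro (t | t)
    · simp [T]
    · simp [T]
  · let G : (I → A) → Fin 3 := fun u =>
      if hu : ∃ f : (Fin 3 → A) → A, PolA 𝔸 f ∧ ∀ t : I, u t = f (fun k => t k) then
        Φ₃ hu.choose hu.choose_spec.1 else 0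
    have hG : ∀ (u : I → A) (f : (Fin 3 → A) → A) (hf : PolA 𝔸 f),
        (∀ t : I, u t = f (fun k => t k)) → G u = Φ₃ f hf := by
      intro u f hf huf
      have hu : ∃ f : (Fin 3 → A) → A, PolA 𝔸 f ∧ ∀ t : I, u t = f (fun k => t k) := ⟨f, hf, huf⟩
      simp only [G, dif_pos hu]
      apply h3
      intro x hx
      have h5 := hu.choose_spec.2 (fun k => ⟨x k, hx k⟩)
      have h6 := huf (fun k => ⟨x k, hx k⟩)
      simp only at h5 h6
      rw [← h5, ← h6]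
    refine ⟨fun x => G (fun t => x (e t)), ?_⟩
    rintro x y ⟨h, hh, hz⟩
    have e1 := hG (fun t => x (e t)) (fun y : Fin 3 → A => h (fun e => y e.1.1)) (hpol1 h hh) (by
      intro t
      exact hz (Sum.inl t))
    have e2 := hG (fun t => y (e t)) (fun y : Fin 3 → A => h (fun e => y e.1.2)) (hpol2 h hh) (by
      intro t
      exact hz (Sum.inr t))
    show G (fun t => x (e t)) ≠ G (fun t => y (e t))
    rw [e1, e2, h1 h hh, h2 h hh]
    exact (Φ₆ h hh).2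

end Pool.Agent.Q112.BP
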