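import Pool.Agent.Q112.BP.Sel
import Pool.Agent.Q112.BP.Omega

/-!
Components, a maximal component, and the pp-construction of `K_3`.
-/

set_option autoImplicit false

namespace Pool.Agent.Q112.BP

open Set Function Pool.Agent.W994.AR

section walks

variable {W : Type} {E : W → W → Prop}

theorem Walk.zero (x : W) : Walk E 0 x x := ⟨fun _ => x, rfl, rfl, fun t ht => absurd ht (by omega)⟩

theorem Walk.one {x y : W} (h : E x y) : Walk E 1 x y := by
  refine ⟨fun t => if t = 0 then x else y, by simp, by simp, ?_⟩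
  intro t ht
  have : t = 0 := by omega
  subst this
  simpa using h

theorem Walk.trans {n m : ℕ} {x y z : W} (h : Walk E n x y) (h' : Walk E m y z) :
    Walk E (n + m) x z := by
  obtain ⟨w, w0, wn, hw⟩ := h
  obtain ⟨w', w0', wn', hw'⟩ := h'
  refine ⟨fun t => if t ≤ n then w t else w' (t - n), ?_, ?_, ?_⟩
  · simpa using w0
  · by_cases hm : m = 0
    · subst hm
      simp only [Nat.add_zero, le_refl, if_true]
      rw [wn, ← w0', wn']
    · beta_reduce
      rw [if_neg (by omega), show n + m - n = m by omega, wn']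
  · intro t ht
    beta_reduce
    rcases Nat.lt_trichotomy t n with h1 | h1 | h1
    · rw [if_pos (by omega), if_pos (by omega)]
      exact hw t h1
    · subst h1
      rw [if_pos le_rfl, if_neg (by omega), wn, ← w0']
      have := hw' 0 (by omega)
      simpa using this
    · rw [if_neg (by omega), if_neg (by omega), show t + 1 - n = (t - n) + 1 by omega]
      exact hw' _ (by omega)

theorem Walk.symm (hs : ∀ x y, E x y → E y x) {n : ℕ} {x y : W} (h : Walk E n x y) :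
    Walk E n y x := by
  obtain ⟨w, w0, wn, hw⟩ := h
  refine ⟨fun t => w (n - t), by simpa using wn, by simpa using w0, ?_⟩
  intro t ht
  have h1 := hw (n - (t + 1)) (by omega)
  have h2 : n - (t + 1) + 1 = n - t := by omega
  rw [h2] at h1
  exact hs _ _ h1

theorem Walk.map {W' : Type} {E' : W' → W' → Prop} {n : ℕ} {x y : W} (h : Walk E n x y)
    (φ : W → W') (hφ : ∀ a b, E a b → E' (φ a) (φ b)) : Walk E' n (φ x) (φ y) := by
  obtain ⟨w, w0, wn, hw⟩ := h
  exact ⟨fun t => φ (w t), by simp only [w0], by simp only [wn], fun t ht => hφ _ _ (hw t ht)⟩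

/-- the component of `v` -/
def Kc (E : W → W → Prop) (v : W) : Set W := {w | ∃ n, Walk E n v w}

/-- `v` lies on a closed walk of odd length -/
def NB (E : W → W → Prop) (v : W) : Prop := ∃ n, Odd n ∧ Walk E n v v

theorem Kc.self (v : W) : v ∈ Kc E v := ⟨0, Walk.zero v⟩

theorem Kc.next {v x y : W} (hx : x ∈ Kc E v) (h : E x y) : y ∈ Kc E v := by
  obtain ⟨n, hn⟩ := hx
  exact ⟨n + 1, hn.trans (Walk.one h)⟩

theorem Kc.eq (hs : ∀ x y, E x y → E y x) {v w : W} (h : w ∈ Kc E v) : Kc E w = Kc E v := by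
  obtain ⟨n, hn⟩ := h
  ext x
  constructor
  · rintro ⟨m, hm⟩
    exact ⟨n + m, hn.trans hm⟩
  · rintro ⟨m, hm⟩
    exact ⟨n + m, (hn.symm hs).trans hm⟩

/-- a walk starting in a component stays in it -/
theorem Walk.inKc {v : W} {n : ℕ} {x y : W} (h : Walk E n x y) (hx : x ∈ Kc E v)
    (hy : y ∈ Kc E v) :
    Walk (fun a b : Kc E v => E a.1 b.1) n ⟨x, hx⟩ ⟨y, hy⟩ := by
  classical
  obtain ⟨w, w0, wn, hw⟩ := h
  have hin : ∀ t, t ≤ n → w t ∈ Kc E v := by
    intro t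
    induction t with
    | zero => intro _; rw [w0]; exact hx
    | succ t ih => intro ht; exact Kc.next (ih (by omega)) (hw t (by omega))
  refine ⟨fun t => if ht : t ≤ n then ⟨w t, hin t ht⟩ else ⟨x, hx⟩, ?_, ?_, ?_⟩
  · beta_reduce
    rw [dif_pos (Nat.zero_le _)]
    exact Subtype.ext w0
  · beta_reduce
    rw [dif_pos le_rfl]
    exact Subtype.ext wn
  · intro t ht
    beta_reduce
    rw [dif_pos (show t ≤ n by omega), dif_pos (show t + 1 ≤ n by omega)]
    exact hw t ht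

theorem NB.closed (hs : ∀ x y, E x y → E y x) {v : W} (h : NB E v) :
    ∃ n0, ∀ n, n0 ≤ n → Walk E n v v := by
  obtain ⟨ℓ, hℓ, hw⟩ := h
  -- a neighbour of v
  obtain ⟨w, w0, wn, hw'⟩ := hw
  have hpos : 0 < ℓ := hℓ.pos
  have hE : E v (w 1) := by
    have := hw' 0 hpos
    rwa [w0] at this
  have heven : ∀ k, Walk E (2 * k) v v := by
    intro k
    induction k with
    | zero => exact Walk.zero v
    | succ k ih =>
      have := (ih.trans (Walk.one hE)).trans (Walk.one (hs _ _ hE))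
      exact this
  refine ⟨ℓ, fun n hn => ?_⟩
  rcases Nat.even_or_odd n with h1 | h1
  · obtain ⟨k, hk⟩ := h1
    have := heven k
    rwa [show 2 * k = n by omega] at this
  · obtain ⟨k, hk⟩ := hℓ
    obtain ⟨j, hj⟩ := h1
    have := (show Walk E ℓ v v from ⟨w, w0, wn, hw'⟩).trans (heven (j - k))
    rwa [show ℓ + 2 * (j - k) = n by omega] at this

theorem NB.conn (hs : ∀ x y, E x y → E y x) {v : W} (h : NB E v) :
    Conn (fun a b : Kc E v => E a.1 b.1) := by
  rintro ⟨x, hx⟩ ⟨y, hy⟩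
  obtain ⟨n0, hn0⟩ := h.closed hs
  obtain ⟨a, ha⟩ := hx
  obtain ⟨b, hb⟩ := hy
  refine ⟨a + n0 + b, fun n hn => ?_⟩
  have h1 := ((ha.symm hs).trans (hn0 (n - a - b) (by omega))).trans hb
  have h2 : a + (n - a - b) + b = n := by omega
  rw [h2] at h1
  exact h1.inKc _ _

/-- there is a homomorphism from the component of `v` to the component of `w` -/
def le (E : W → W → Prop) (v w : W) : Prop :=
  ∃ φ : W → W, (∀ x ∈ Kc E v, ∀ y ∈ Kc E v, E x y → E (φ x) (φ y)) ∧ ∀ x ∈ Kc E v, φ x ∈ Kc E w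

theorem le.refl (v : W) : le E v v := ⟨id, fun _ _ _ _ h => h, fun _ h => h⟩

theorem le.trans {u v w : W} (h : le E u v) (h' : le E v w) : le E u w := by
  obtain ⟨φ, h1, h2⟩ := h
  obtain ⟨ψ, h3, h4⟩ := h'
  exact ⟨ψ ∘ φ, fun x hx y hy hxy => h3 _ (h2 x hx) _ (h2 y hy) (h1 x hx y hy hxy),
    fun x hx => h4 _ (h2 x hx)⟩

/-- a hom defined everywhere -/
theorem le.of_hom (φ : W → W) (hφ : ∀ a b, E a b → E (φ a) (φ b)) (v : W) : le E v (φ v) :=
  ⟨φ, fun x _ y _ h => hφ x y h, fun _ hx => by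
    obtain ⟨n, hn⟩ := hx
    exact ⟨n, hn.map φ hφ⟩⟩

theorem NB.map {v : W} (h : NB E v) (φ : W → W) (hφ : ∀ a b, E a b → E (φ a) (φ b)) :
    NB E (φ v) := by
  obtain ⟨n, hn, hw⟩ := h
  exact ⟨n, hn, hw.map φ hφ⟩

theorem NB.le (hs : ∀ x y, E x y → E y x) {v w : W} (h : NB E v) (hle : le E v w) : NB E w := by
  obtain ⟨φ, h1, h2⟩ := hle
  obtain ⟨n, hn, hw⟩ := h
  have h3 := hw.inKc (Kc.self v) (Kc.self v)
  have h4 : Walk E n (φ v) (φ v) := h3.map (fun a : Kc E v => φ a.1)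
    (fun a b hab => h1 _ a.2 _ b.2 hab)
  obtain ⟨m, hm⟩ := h2 v (Kc.self v)
  refine ⟨m + n + m, ?_, (hm.trans h4).trans (hm.symm hs)⟩
  obtain ⟨k, hk⟩ := hn
  exact ⟨m + k, by omega⟩

/-- a maximal non-bipartite component -/
theorem exists_maximal_comp (hs : ∀ x y, E x y → E y x)
    (hfin : ∃ F : Set W, F.Finite ∧ ∀ w, ∃ r ∈ F, ∃ g : Equiv.Perm W,
      (∀ x y, E x y ↔ E (g x) (g y)) ∧ g w = r) {v : W} (hv : NB E v) :
    ∃ v₀, NB E v₀ ∧ ∀ w, le E v₀ w → le E w v₀ := by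
  classical
  obtain ⟨F, hF, hrep⟩ := hfin
  have hrep' : ∀ w, ∃ r ∈ F, le E w r ∧ le E r w ∧ (NB E w → NB E r) := by
    intro w
    obtain ⟨r, hr, g, hg, rfl⟩ := hrep w
    refine ⟨_, hr, le.of_hom g (fun a b h => (hg a b).1 h) w, ?_, ?_⟩
    · have h1 := le.of_hom (E := E) g.symm (fun a b h => by
        rw [hg]
        simpa using h) (g w)
      simpa using h1
    · exact fun h => h.map g (fun a b h => (hg a b).1 h)
  let F' : Finset W := hF.toFinset.filter (fun r => NB E r)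
  have hne : F'.Nonempty := by
    obtain ⟨r, hr, _, _, h3⟩ := hrep' v
    exact ⟨r, by simp [F', hr, h3 hv]⟩
  obtain ⟨r, hr, hmax⟩ := Finset.exists_max_image F' (fun r => (F'.filter (fun u => le E u r)).card) hne
  have hrNB : NB E r := (Finset.mem_filter.1 hr).2
  refine ⟨r, hrNB, fun w hw => ?_⟩
  obtain ⟨r', hr', h1, h2, h3⟩ := hrep' w
  have hw' : NB E w := hrNB.le hs hw
  have hr'F : r' ∈ F' := by simp [F', hr', h3 hw']
  have hsub : F'.filter (fun u => le E u r) ⊆ F'.filter (fun u => le E u r') := by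
    intro u hu
    rw [Finset.mem_filter] at hu ⊢
    exact ⟨hu.1, (hu.2.trans hw).trans h1⟩
  have heq := Finset.eq_of_subset_of_card_le hsub (hmax r' hr'F)
  have h4 : r' ∈ F'.filter (fun u => le E u r) := by
    rw [heq, Finset.mem_filter]
    exact ⟨hr'F, le.refl r'⟩
  exact h1.trans (Finset.mem_filter.1 h4).2

/-- polymorphisms of the whole graph are turned into polymorphisms of a maximal component -/
theorem reflection (hs : ∀ x y, E x y → E y x) {v₀ : W} (h0 : NB E v₀)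
    (hmax : ∀ w, le E v₀ w → le E w v₀) :
    ∃ ρ : W → W, ∀ (κ : Type) [Finite κ] (f : (κ → W) → W), PolG E f →
      (∀ x : κ → Kc E v₀, ρ (f (fun k => (x k).1)) ∈ Kc E v₀) ∧
      ∀ x y : κ → Kc E v₀, (∀ k, E (x k).1 (y k).1) →
        E (ρ (f (fun k => (x k).1))) (ρ (f (fun k => (y k).1))) := by
  classical
  let Ψ : Set W → W → W := fun S => if h : ∃ ψ : W → W, (∀ x ∈ S, ∀ y ∈ S, E x y →
    E (ψ x) (ψ y)) ∧ ∀ x ∈ S, ψ x ∈ Kc E v₀ then h.choose else id
  have hΨ : ∀ w, le E w v₀ → (∀ x ∈ Kc E w, ∀ y ∈ Kc E w, E x y →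
      E (Ψ (Kc E w) x) (Ψ (Kc E w) y)) ∧ ∀ x ∈ Kc E w, Ψ (Kc E w) x ∈ Kc E v₀ := by
    intro w hw
    have h : ∃ ψ : W → W, (∀ x ∈ Kc E w, ∀ y ∈ Kc E w, E x y →
      E (ψ x) (ψ y)) ∧ ∀ x ∈ Kc E w, ψ x ∈ Kc E v₀ := hw
    simp only [Ψ, dif_pos h]
    exact h.choose_spec
  refine ⟨fun x => Ψ (Kc E x) x, ?_⟩
  intro κ _ f hf
  set w₀ := f (fun _ => v₀) with hw₀
  have hle : le E v₀ w₀ := le.of_hom (fun p => f (fun _ => p)) (fun a b h => hf _ _ (fun _ => h)) v₀
  have hle' := hmax w₀ hle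
  obtain ⟨hΨ1, hΨ2⟩ := hΨ w₀ hle'
  have hmem : ∀ x : κ → Kc E v₀, f (fun k => (x k).1) ∈ Kc E w₀ := by
    intro x
    have hconn := (h0.conn hs).pi (ι := κ)
    obtain ⟨n0, hn0⟩ := hconn (fun _ => ⟨v₀, Kc.self v₀⟩) x
    refine ⟨n0, ?_⟩
    exact (hn0 n0 le_rfl).map (fun z : κ → Kc E v₀ => f (fun k => (z k).1))
      (fun a b hab => hf _ _ hab)
  constructor
  · intro x
    show Ψ (Kc E (f (fun k => (x k).1))) (f (fun k => (x k).1)) ∈ Kc E v₀
    rw [Kc.eq hs (hmem x)]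
    exact hΨ2 _ (hmem x)
  · intro x y hxy
    show E (Ψ (Kc E (f (fun k => (x k).1))) (f (fun k => (x k).1)))
      (Ψ (Kc E (f (fun k => (y k).1))) (f (fun k => (y k).1)))
    rw [Kc.eq hs (hmem x), Kc.eq hs (hmem y)]
    exact hΨ1 _ (hmem x) _ (hmem y) (hf _ _ hxy)

/-- an odd closed walk as a function on `ZMod` -/
theorem exists_cycle {v : W} {ℓ : ℕ} (hℓ : Odd ℓ) (hw : Walk E ℓ v v) :
    ∃ (M : ℕ) (_ : NeZero M) (C : ZMod M → W), Odd M ∧ ∀ u, E (C u) (C (u + 1)) := by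
  have : NeZero ℓ := ⟨hℓ.pos.ne'⟩
  obtain ⟨w, w0, wn, hw⟩ := hw
  refine ⟨ℓ, this, fun u => w u.val, hℓ, fun u => ?_⟩
  have hu := ZMod.val_lt u
  rcases Nat.lt_or_ge (u.val + 1) ℓ with h1 | h1
  · have h2 : (u + 1).val = u.val + 1 := by
      have e : (u + 1 : ZMod ℓ) = ((u.val + 1 : ℕ) : ZMod ℓ) := by
        push_cast
        rw [ZMod.natCast_zmod_val]
      rw [e, ZMod.val_natCast, Nat.mod_eq_of_lt h1]
    simp only [h2]
    exact hw _ hu
  · have h2 : (u + 1).val = 0 := by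
      have e : (u + 1 : ZMod ℓ) = ((u.val + 1 : ℕ) : ZMod ℓ) := by
        push_cast
        rw [ZMod.natCast_zmod_val]
      have e2 : u.val + 1 = ℓ := by omega
      rw [e, e2, ZMod.natCast_self, ZMod.val_zero]
    simp only [h2]
    have h3 := hw _ hu
    rw [show u.val + 1 = ℓ by omega, wn, ← w0] at h3
    exact h3

end walks

section structures

variable {A ι : Type} {ar : ι → ℕ}

theorem PolA.preserves {𝔸 : Str ι ar A} {κ : Type} {f : (κ → A) → A} (hf : PolA 𝔸 f) {V : Type}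
    {S : Set (V → A)} (hS : PPDef 𝔸 S) (v : κ → V → A) (hv : ∀ a, v a ∈ S) :
    (fun x => f (fun a => v a x)) ∈ S := by
  obtain ⟨q, Φ, h⟩ := hS
  have h1 := fun a => (h (v a)).1 (hv a)
  choose u hu using h1
  rw [h]
  refine ⟨fun x => f (fun a => u a x), ?_⟩
  intro φ hφ
  have h2 := fun a => hu a φ hφ
  have h3 : (Sum.elim (fun x => f (fun a => v a x)) (fun x => f (fun a => u a x))) =
      fun x => f (fun a => Sum.elim (v a) (u a) x) := by
    funext x
    cases x <;> rfl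
  rw [h3]
  cases φ with
  | eq x y =>
    show f _ = f _
    congr 1
    funext a
    exact h2 a
  | rel i x =>
    exact hf i (fun a j => Sum.elim (v a) (u a) (x j)) h2

theorem aut_pol {𝔸 : Str ι ar A} {g : Equiv.Perm A} (hg : g ∈ autGroup 𝔸) :
    PolA 𝔸 (fun x : Unit → A => g (x ())) :=
  fun i v hv => (hg i (v ())).1 (hv ())

/-- Main theorem: an omega-categorical structure that pp-defines, on a power of its domain, a
symmetric relation with a closed walk of odd length and a winding function, pp-constructs `K_3`. -/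
theorem main [Finite ι] [Countable A] {𝔸 : Str ι ar A} (hO : Oligo 𝔸) {n : ℕ}
    (R : Set (Fin n ⊕ Fin n → A)) (hR : PPDef 𝔸 R)
    (hsym : ∀ x y : Fin n → A, Sum.elim x y ∈ R → Sum.elim y x ∈ R)
    {v : Fin n → A} {ℓ : ℕ} (hℓ : Odd ℓ)
    (hw : Walk (fun x y : Fin n → A => Sum.elim x y ∈ R) ℓ v v)
    {δ : (Fin n → A) → (Fin n → A) → ℤ} {B : ℤ}
    (hδ : Winding (fun x y : Fin n → A => Sum.elim x y ∈ R) δ B) :
    PPConstructsK3 𝔸 := by
  classical
  set E : (Fin n → A) → (Fin n → A) → Prop := fun x y => Sum.elim x y ∈ R with hE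
  -- polymorphisms of 𝔸 act on the graph
  have hact : ∀ {κ : Type} {f : (κ → A) → A}, PolA 𝔸 f →
      PolG E (fun (x : κ → Fin n → A) j => f (fun k => x k j)) := by
    intro κ f hf x y hxy
    have h1 := hf.preserves hR (fun k => Sum.elim (x k) (y k)) hxy
    have h2 : (fun z => f (fun k => Sum.elim (x k) (y k) z)) =
        Sum.elim (fun j => f (fun k => x k j)) (fun j => f (fun k => y k j)) := by
      funext z
      cases z <;> rfl
    rw [h2] at h1
    exact h1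
  have haut : ∀ g ∈ autGroup 𝔸, ∀ x y : Fin n → A, E x y → E (fun j => g (x j)) (fun j => g (y j)) :=
    fun g hg x y hxy => hact (aut_pol hg) (fun _ => x) (fun _ => y) (fun _ => hxy)
  have hfin : ∃ F : Set (Fin n → A), F.Finite ∧ ∀ w, ∃ r ∈ F, ∃ g : Equiv.Perm (Fin n → A),
      (∀ x y, E x y ↔ E (g x) (g y)) ∧ g w = r := by
    obtain ⟨F, hF, h⟩ := hO n
    refine ⟨F, hF, fun w => ?_⟩
    obtain ⟨r, hr, g, hg, hgr⟩ := h w
    refine ⟨r, hr, Equiv.piCongrRight (fun _ => g), fun x y => ⟨haut g hg x y, fun hxy => ?_⟩,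
      funext hgr⟩
    have h1 := haut g⁻¹ ((autGroup 𝔸).inv_mem hg) _ _ hxy
    have h2 : ∀ z : Fin n → A, (fun j => g⁻¹ ((Equiv.piCongrRight (fun _ : Fin n => g)) z j)) = z := by
      intro z
      funext j
      simp
    rw [h2, h2] at h1
    exact h1
  obtain ⟨v₀, hv₀, hmax⟩ := exists_maximal_comp hsym hfin ⟨ℓ, hℓ, hw⟩
  obtain ⟨ρ, hρ⟩ := reflection hsym hv₀ hmax
  -- the component
  let K' : Type := Kc E v₀
  let E' : K' → K' → Prop := fun a b => E a.1 b.1
  have hs' : ∀ x y, E' x y → E' y x := fun x y h => hsym _ _ h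
  have hC' : Conn E' := hv₀.conn hsym
  have hδ' : Winding E' (fun a b => δ a.1 b.1) B :=
    ⟨fun x y h => hδ.anti _ _ h, fun x y h => hδ.odd _ _ h, fun x y h => hδ.bdd _ _ h,
      fun a b c d h1 h2 h3 h4 => hδ.sq _ _ _ _ h1 h2 h3 h4⟩
  obtain ⟨ℓ', hℓ', hw'⟩ := hv₀
  obtain ⟨M, _, C, hM, hCy⟩ := exists_cycle (E := E') hℓ' (hw'.inKc (Kc.self v₀) (Kc.self v₀))
  obtain ⟨Φ, hΦ1, hΦ2⟩ := select hδ' hs' hC' hM C hCy
  -- reflected polymorphisms
  let rf : ∀ {κ : Type} [Finite κ] (f : (κ → A) → A), PolA 𝔸 f → (κ → K') → K' :=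
    fun {κ} _ f hf x => ⟨ρ (fun j => f (fun k => (x k).1 j)), (hρ κ _ (hact hf)).1 x⟩
  have hrf : ∀ {κ : Type} [Finite κ] (f : (κ → A) → A) (hf : PolA 𝔸 f), PolG E' (rf f hf) :=
    fun {κ} _ f hf x y hxy => (hρ κ _ (hact hf)).2 x y hxy
  -- no loops, so n is positive
  have hloop : ∀ x, ¬ E x x := by
    intro x hx
    have h1 := hδ.anti x x hx
    obtain ⟨a, ha⟩ := hδ.odd x x hx
    omega
  have hn : Nonempty (Fin n) := by
    by_contra hno
    rw [not_nonempty_iff] at hno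
    have h1 := hCy 0
    have h2 : (C 0).1 = (C (0 + 1)).1 := Subsingleton.elim _ _
    have h3 : E (C 0).1 (C (0 + 1)).1 := h1
    rw [← h2] at h3
    exact hloop _ h3
  let S : Set A := range (fun p : ZMod M × Fin n => (C p.1).1 p.2)
  refine k3_of_select hO S (Set.finite_range _) ⟨_, ⟨(0, hn.some), rfl⟩⟩
    (fun f hf => Φ (Fin 3) (rf f hf) (hrf f hf)) (fun f hf => Φ Ed (rf f hf) (hrf f hf)) ?_ ?_ ?_
  · intro f hf hf'
    exact hΦ1 Ed (Fin 3) (fun e => e.1.1) (rf f hf) (hrf f hf) (hrf _ hf')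
  · intro f hf hf'
    exact hΦ1 Ed (Fin 3) (fun e => e.1.2) (rf f hf) (hrf f hf) (hrf _ hf')
  · intro f f' hf hf' hff
    apply hΦ2
    intro x hx
    apply Subtype.ext
    show ρ (fun j => f (fun k => (x k).1 j)) = ρ (fun j => f' (fun k => (x k).1 j))
    congr 1
    funext j
    apply hff
    intro k
    obtain ⟨u, hu⟩ := hx k
    exact ⟨(u, j), by simp only; rw [hu]⟩

end structures

end Pool.Agent.Q112.BP
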