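import Pool.Agent.Q112.BP.Comp
import Pool.Agent.W994.AR.FB

/-!
Which graphs have a winding function; reducts of homogeneous structures are omega-categorical.
-/

set_option autoImplicit false

namespace Pool.Agent.Q112.BP

open Set Function Pool.Agent.W994.AR

theorem HasWinding.comap {V V' : Type} {E : V → V → Prop} {E' : V' → V' → Prop}
    (h : HasWinding E') (φ : V → V') (hφ : ∀ x y, E x y → E' (φ x) (φ y)) : HasWinding E := by
  obtain ⟨δ, B, h⟩ := h
  exact ⟨fun x y => δ (φ x) (φ y), B, fun x y hxy => h.anti _ _ (hφ _ _ hxy),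
    fun x y hxy => h.odd _ _ (hφ _ _ hxy), fun x y hxy => h.bdd _ _ (hφ _ _ hxy),
    fun a b c d h1 h2 h3 h4 => h.sq _ _ _ _ (hφ _ _ h1) (hφ _ _ h2) (hφ _ _ h3) (hφ _ _ h4)⟩

theorem hasWinding_real {V : Type} {E : V → V → Prop} (c : V → ℝ)
    (hc : ∀ x y, E x y → 1 ≤ |c x - c y| ∧ |c x - c y| < 3) : HasWinding E := by
  classical
  have key : ∀ x y, E x y → (c y < c x ∧ 1 ≤ c x - c y ∧ c x - c y < 3) ∨
      (¬ c y < c x ∧ 1 ≤ c y - c x ∧ c y - c x < 3) := by
    intro x y hxy
    obtain ⟨h1, h2⟩ := hc x y hxy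
    rcases lt_or_ge (c y) (c x) with h | h
    · left
      rw [abs_of_pos (by linarith)] at h1 h2
      exact ⟨h, h1, h2⟩
    · right
      rw [abs_of_nonpos (by linarith)] at h1 h2
      exact ⟨not_lt.2 h, by linarith, by linarith⟩
  refine ⟨fun x y => if c y < c x then 1 else -1, 1, ?_, ?_, ?_, ?_⟩
  · intro x y hxy
    rcases key x y hxy with ⟨h1, h2, h3⟩ | ⟨h1, h2, h3⟩
    · rw [if_pos h1, if_neg (by linarith)]
    · rw [if_neg h1, if_pos (by linarith)]
      norm_num
  · intro x y hxy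
    split_ifs
    · exact odd_one
    · exact ⟨-1, by norm_num⟩
  · intro x y hxy
    split_ifs <;> norm_num
  · intro x y z w h1 h2 h3 h4
    rcases key x y h1 with ⟨a1, a2, a3⟩ | ⟨a1, a2, a3⟩ <;>
    rcases key y z h2 with ⟨b1, b2, b3⟩ | ⟨b1, b2, b3⟩ <;>
    rcases key z w h3 with ⟨c1, c2, c3⟩ | ⟨c1, c2, c3⟩ <;>
    rcases key w x h4 with ⟨d1, d2, d3⟩ | ⟨d1, d2, d3⟩ <;>
    simp only [a1, b1, c1, d1, if_true, if_false] <;>
    first | (exfalso; linarith) | norm_num

theorem hasWinding_squareFree {V : Type} {E : V → V → Prop} (hs : ∀ x y, E x y → E y x)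
    (hne : ∀ x, ¬ E x x)
    (h4 : ∀ a b c d, E a b → E b c → E c d → E d a → a = c ∨ b = d) : HasWinding E := by
  classical
  have hasymm : ∀ x y : V, WellOrderingRel x y → ¬ WellOrderingRel y x :=
    fun x y h h' => (asymm h h')
  have htri : ∀ x y : V, E x y → WellOrderingRel x y ∨ WellOrderingRel y x := by
    intro x y hxy
    rcases trichotomous_of (WellOrderingRel (α := V)) x y with h | h | h
    · exact Or.inl h
    · subst h
      exact absurd hxy (hne _)
    · exact Or.inr h
  have hanti : ∀ x y, E x y → (if WellOrderingRel y x then (1 : ℤ) else -1) =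
      - (if WellOrderingRel x y then (1 : ℤ) else -1) := by
    intro x y hxy
    rcases htri x y hxy with h | h
    · rw [if_pos h, if_neg (hasymm _ _ h)]
    · rw [if_pos h, if_neg (hasymm _ _ h)]
      norm_num
  refine ⟨fun x y => if WellOrderingRel x y then 1 else -1, 1, hanti, ?_, ?_, ?_⟩
  · intro x y hxy
    split_ifs
    · exact odd_one
    · exact ⟨-1, by norm_num⟩
  · intro x y hxy
    split_ifs <;> norm_num
  · intro a b c d h1 h2 h3 h5
    rcases h4 a b c d h1 h2 h3 h5 with rfl | rfl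
    · have e1 := hanti _ _ h1
      have e2 := hanti _ _ h3
      linarith
    · have e1 := hanti _ _ h2
      have e2 := hanti _ _ h1
      linarith

/-- structures whose relations are invariant under the automorphisms of a homogeneous structure in
a finite signature are omega-categorical -/
theorem oligo_of_homogeneous {A σ ι : Type} [Finite σ] {arB : σ → ℕ} {ar : ι → ℕ}
    (𝔹 : Str σ arB A) (hB : Homogeneous 𝔹) (𝔸 : Str ι ar A)
    (h : ∀ i, ∀ g ∈ autGroup 𝔹, ∀ v, v ∈ 𝔸 i → (fun j => g (v j)) ∈ 𝔸 i) : Oligo 𝔸 := by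
  classical
  intro k
  have hfin := hom_finite hB (Fin k)
  refine ⟨range (fun o : Orb (autGroup 𝔹) (Fin k) => o.out), Set.finite_range _, ?_⟩
  intro v
  have h1 : Same (autGroup 𝔹) v
      (Quotient.out (Quotient.mk (orb (autGroup 𝔹) (Fin k)) v)) := by
    have := Quotient.exact (Quotient.out_eq (Quotient.mk (orb (autGroup 𝔹) (Fin k)) v))
    exact this.symm
  obtain ⟨g, hg, hgw⟩ := h1
  refine ⟨_, ⟨Quotient.mk (orb (autGroup 𝔹) (Fin k)) v, rfl⟩, g, ?_, fun j => hgw j⟩
  intro i v
  constructor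
  · exact h i g hg v
  · intro hv
    have h2 := h i g⁻¹ ((autGroup 𝔹).inv_mem hg) _ hv
    have h3 : (fun j => g⁻¹ (g (v j))) = v := by
      funext j
      simp
    rw [h3] at h2
    exact h2

end Pool.Agent.Q112.BP
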