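import Pool.Agent.Q112.BP.Mv
import Pool.Agent.Q112.BP.Comp

/-!
Closed sequences with a cyclic symmetry.
-/

set_option autoImplicit false

namespace Pool.Agent.Q112.BP

open Finset Function

/-- one move in some position -/
def Stp {W P : Type} (E : P → W → W → Prop) (x y : W) : Prop := ∃ a, E a x y

/-- `x` can be moved to `y` -/
def Rch {W P : Type} (E : P → W → W → Prop) : W → W → Prop := Relation.ReflTransGen (Stp E)

section rch

variable {W P : Type} {E : P → W → W → Prop}

theorem Rch.symm (hs : ∀ a x y, E a x y → E a y x) {x y : W} (h : Rch E x y) : Rch E y x := by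
  induction h with
  | refl => exact Relation.ReflTransGen.refl
  | tail _ hbc ih =>
    obtain ⟨a, ha⟩ := hbc
    exact Relation.ReflTransGen.head ⟨a, hs _ _ _ ha⟩ ih

theorem Rch.map {W' P' : Type} {E' : P' → W' → W' → Prop} (φ : W → W') (τ : P → P')
    (h : ∀ a x y, E a x y → E' (τ a) (φ x) (φ y)) {x y : W} (hxy : Rch E x y) :
    Rch E' (φ x) (φ y) := by
  induction hxy with
  | refl => exact Relation.ReflTransGen.refl
  | tail _ hbc ih =>
    obtain ⟨a, ha⟩ := hbc
    exact ih.tail ⟨τ a, h _ _ _ ha⟩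

/-- paths -/
theorem Rch.path [Nonempty P] (hr : ∀ a x, E a x x) {x y : W} (h : Rch E x y) :
    ∃ (N : ℕ) (c : ℕ → W) (a : ℕ → P), 0 < N ∧ c 0 = x ∧ c N = y ∧
      ∀ s, s < N → E (a s) (c s) (c (s + 1)) := by
  classical
  induction h with
  | refl =>
    exact ⟨1, fun _ => x, fun _ => Classical.arbitrary P, Nat.one_pos, rfl, rfl,
      fun s _ => hr _ _⟩
  | @tail b d _ hbd ih =>
    obtain ⟨N, c, a, hN, h0, h1, h2⟩ := ih
    obtain ⟨α, hα⟩ := hbd
    refine ⟨N + 1, fun s => if s ≤ N then c s else d, fun s => if s < N then a s else α,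
      Nat.succ_pos _, ?_, ?_, ?_⟩
    · simpa using h0
    · simp
    · intro s hs
      rcases Nat.lt_or_ge s N with h3 | h3
      · beta_reduce
        rw [if_pos h3, if_pos (by omega), if_pos (by omega)]
        exact h2 s h3
      · have h4 : s = N := by omega
        subst h4
        beta_reduce
        rw [if_neg (by omega), if_pos le_rfl, if_neg (by omega), h1]
        exact hα

theorem pi_rch {ι : Type} [Finite ι] (hr : ∀ a x, E a x x) (hc : ∀ x y, Rch E x y)
    (b b' : ι → W) : Rch (fun a (x y : ι → W) => ∀ i, E a (x i) (y i)) b b' := by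
  classical
  have := Fintype.ofFinite ι
  have key : ∀ S : Finset ι, Rch (fun a (x y : ι → W) => ∀ i, E a (x i) (y i)) b
      (S.piecewise b' b) := by
    intro S
    induction S using Finset.induction_on with
    | empty =>
      rw [Finset.piecewise_empty]
      exact Relation.ReflTransGen.refl
    | insert i S hi ih =>
      refine ih.trans ?_
      rw [Finset.piecewise_insert]
      have h1 : Rch (fun a (x y : ι → W) => ∀ i, E a (x i) (y i))
          (update (S.piecewise b' b) i (b i)) (update (S.piecewise b' b) i (b' i)) := by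
        refine Rch.map (fun x => update (S.piecewise b' b) i x) id ?_ (hc (b i) (b' i))
        intro a x y hxy j
        by_cases hj : j = i
        · subst hj
          simpa using hxy
        · simpa [hj] using hr a _
      have h2 : update (S.piecewise b' b) i (b i) = S.piecewise b' b := by
        rw [Function.update_eq_self_iff]
        simp [Finset.piecewise, hi]
      rwa [h2] at h1
  have h3 := key Finset.univ
  simpa [Finset.piecewise_univ] using h3

end rch

section seq

variable {X : Type}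

/-- the sequence `c 0, …, c (N-1), σ (c 0), …, σ (c (N-1)), …` -/
def lps (σ : X → X) (N : ℕ) (c : ℕ → X) (m : ℕ) : X := σ^[m / N] (c (m % N))

theorem lps_step {σ : X → X} {N : ℕ} (hN : 0 < N) {c : ℕ → X} (hc : c N = σ (c 0)) (m : ℕ) :
    lps σ N c (m + 1) = σ^[m / N] (c (m % N + 1)) := by
  unfold lps
  have h1 := Nat.mod_lt m hN
  have h2 := Nat.div_add_mod m N
  rcases Nat.lt_or_ge (m % N + 1) N with h3 | h3
  · have e1 : (m + 1) / N = m / N := by
      conv_lhs => rw [← h2]
      rw [show N * (m / N) + m % N + 1 = (m % N + 1) + N * (m / N) by ring,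
        Nat.add_mul_div_left _ _ hN, Nat.div_eq_of_lt h3, Nat.zero_add]
    have e2 : (m + 1) % N = m % N + 1 := by
      conv_lhs => rw [← h2]
      rw [show N * (m / N) + m % N + 1 = (m % N + 1) + N * (m / N) by ring,
        Nat.add_mul_mod_self_left, Nat.mod_eq_of_lt h3]
    rw [e1, e2]
  · have h4 : m % N + 1 = N := by omega
    have e1 : (m + 1) / N = m / N + 1 := by
      conv_lhs => rw [← h2]
      rw [show N * (m / N) + m % N + 1 = (m % N + 1) + N * (m / N) by ring,
        Nat.add_mul_div_left _ _ hN, h4, Nat.div_self hN, Nat.add_comm]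
    have e2 : (m + 1) % N = 0 := by
      conv_lhs => rw [← h2]
      rw [show N * (m / N) + m % N + 1 = (m % N + 1) + N * (m / N) by ring,
        Nat.add_mul_mod_self_left, h4, Nat.mod_self]
    rw [e1, e2, h4, hc, Function.iterate_succ_apply]

theorem lps_map {X : Type} {σ : X → X} (h : X → X) (hσ : ∀ x, h (σ x) = σ (h x)) (N : ℕ)
    (c : ℕ → X) (m : ℕ) : h (lps σ N c m) = lps σ N (fun s => h (c s)) m := by
  unfold lps
  have key : ∀ (j : ℕ) (x : X), h (σ^[j] x) = σ^[j] (h x) := by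
    intro j
    induction j with
    | zero => intro x; rfl
    | succ j ih =>
      intro x
      rw [Function.iterate_succ_apply, ih, hσ, ← Function.iterate_succ_apply]
  exact key _ _

theorem sum_range_mul' {N : ℕ} (p : ℕ) (F : ℕ → ℤ) :
    ∑ m ∈ range (p * N), F m = ∑ j ∈ range p, ∑ s ∈ range N, F (j * N + s) := by
  induction p with
  | zero => simp
  | succ p ih =>
    rw [Finset.sum_range_succ, ← ih, Nat.succ_mul, Finset.sum_range_add]

variable {P : Type} {E : P → X → X → Prop} {σ : X → X} {τ : P → P}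

theorem iter_move (hσ : ∀ a x y, E a x y → E (τ a) (σ x) (σ y)) (j : ℕ) {a : P} {x y : X}
    (h : E a x y) : E (τ^[j] a) (σ^[j] x) (σ^[j] y) := by
  induction j with
  | zero => exact h
  | succ j ih =>
    rw [Function.iterate_succ_apply', Function.iterate_succ_apply', Function.iterate_succ_apply']
    exact hσ _ _ _ ih

theorem iter_twist (hσ : ∀ a x y, E a x y → E (τ a) (σ x) (σ y)) {u : X → X → ℤ} {η : X → ℤ}
    (hu : ∀ a x y, E a x y → u (σ x) (σ y) = u x y + (η y - η x)) (j : ℕ) {a : P} {x y : X}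
    (h : E a x y) : u (σ^[j] x) (σ^[j] y) =
      u x y + ∑ l ∈ range j, (η (σ^[l] y) - η (σ^[l] x)) := by
  induction j with
  | zero => simp
  | succ j ih =>
    rw [Function.iterate_succ_apply', Function.iterate_succ_apply', hu _ _ _ (iter_move hσ j h), ih,
      Finset.sum_range_succ]
    ring

/-- the value of the sum modulo `p ^ 2` -/
def Gv (σ : X → X) (p : ℕ) (ψ η : X → ℤ) (x : X) : ℤ :=
  p * (ψ (σ x) - ψ x) + ∑ j ∈ range p, η (σ^[j] x) - p * η x

theorem sum_lps (hσ : ∀ a x y, E a x y → E (τ a) (σ x) (σ y)) {u : X → X → ℤ} {ψ η : X → ℤ}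
    {p : ℕ} (hu : ∀ a x y, E a x y → u (σ x) (σ y) = u x y + (η y - η x))
    (hψ : ∀ a x y, E a x y → (p : ℤ) ∣ u x y - (ψ y - ψ x)) {N : ℕ} (hN : 0 < N) {c : ℕ → X}
    {α : ℕ → P} (hc : ∀ s, s < N → E (α s) (c s) (c (s + 1))) (hcN : c N = σ (c 0)) :
    ((p : ℤ) * p) ∣ ∑ m ∈ range (p * N), u (lps σ N c m) (lps σ N c (m + 1)) -
      Gv σ p ψ η (c 0) := by
  rw [sum_range_mul']
  have e1 : ∀ j ∈ range p, ∑ s ∈ range N, u (lps σ N c (j * N + s)) (lps σ N c (j * N + s + 1)) =
      ∑ s ∈ range N, u (c s) (c (s + 1)) + (η (σ^[j] (c 0)) - η (c 0)) := by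
    intro j _
    have e2 : ∀ s ∈ range N, u (lps σ N c (j * N + s)) (lps σ N c (j * N + s + 1)) =
        u (c s) (c (s + 1)) + ∑ l ∈ range j, (η (σ^[l] (c (s + 1))) - η (σ^[l] (c s))) := by
      intro s hs
      have hs' := Finset.mem_range.1 hs
      have e3 : (j * N + s) / N = j := by
        rw [Nat.add_comm, Nat.add_mul_div_right _ _ hN, Nat.div_eq_of_lt hs', Nat.zero_add]
      have e4 : (j * N + s) % N = s := by
        rw [Nat.add_comm, Nat.add_mul_mod_self_right, Nat.mod_eq_of_lt hs']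
      rw [lps_step hN hcN, e3, e4, show lps σ N c (j * N + s) = σ^[j] (c s) by
        unfold lps; rw [e3, e4]]
      exact iter_twist hσ hu j (hc s hs')
    rw [Finset.sum_congr rfl e2, Finset.sum_add_distrib, Finset.sum_comm]
    congr 1
    have e5 : ∀ l ∈ range j, ∑ s ∈ range N, (η (σ^[l] (c (s + 1))) - η (σ^[l] (c s))) =
        η (σ^[l + 1] (c 0)) - η (σ^[l] (c 0)) := by
      intro l _
      rw [Finset.sum_range_sub (fun s => η (σ^[l] (c s))), hcN, ← Function.iterate_succ_apply]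
    rw [Finset.sum_congr rfl e5, Finset.sum_range_sub (fun l => η (σ^[l] (c 0)))]
    rfl
  rw [Finset.sum_congr rfl e1, Finset.sum_add_distrib, Finset.sum_const, Finset.card_range,
    Finset.sum_sub_distrib, Finset.sum_const, Finset.card_range, nsmul_eq_mul, nsmul_eq_mul]
  have e6 : (p : ℤ) ∣ ∑ s ∈ range N, u (c s) (c (s + 1)) - (ψ (σ (c 0)) - ψ (c 0)) := by
    have e7 : ∑ s ∈ range N, u (c s) (c (s + 1)) - (ψ (σ (c 0)) - ψ (c 0)) =
        ∑ s ∈ range N, (u (c s) (c (s + 1)) - (ψ (c (s + 1)) - ψ (c s))) := by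
      rw [Finset.sum_sub_distrib, Finset.sum_range_sub (fun s => ψ (c s)), hcN]
    rw [e7]
    exact Finset.dvd_sum (fun s hs => hψ _ _ _ (hc s (Finset.mem_range.1 hs)))
  obtain ⟨d, hd⟩ := e6
  refine ⟨d, ?_⟩
  unfold Gv
  linear_combination (p : ℤ) * hd

theorem Gv_move (hσ : ∀ a x y, E a x y → E (τ a) (σ x) (σ y)) {u : X → X → ℤ} {ψ η : X → ℤ}
    {p : ℕ} (hp : ∀ x, σ^[p] x = x)
    (hu : ∀ a x y, E a x y → u (σ x) (σ y) = u x y + (η y - η x))
    (hψ : ∀ a x y, E a x y → (p : ℤ) ∣ u x y - (ψ y - ψ x)) {a : P} {x y : X} (h : E a x y) :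
    ((p : ℤ) * p) ∣ Gv σ p ψ η y - Gv σ p ψ η x := by
  obtain ⟨d, hd⟩ := hψ _ _ _ h
  obtain ⟨d', hd'⟩ := hψ _ _ _ (hσ _ _ _ h)
  have e1 := hu _ _ _ h
  have e2 := iter_twist hσ hu p h
  rw [hp, hp, Finset.sum_sub_distrib] at e2
  refine ⟨d - d', ?_⟩
  unfold Gv
  linear_combination (p : ℤ) * hd - (p : ℤ) * hd' + (p : ℤ) * e1 - e2

theorem Gv_rch (hσ : ∀ a x y, E a x y → E (τ a) (σ x) (σ y)) {u : X → X → ℤ} {ψ η : X → ℤ}
    {p : ℕ} (hp : ∀ x, σ^[p] x = x)
    (hu : ∀ a x y, E a x y → u (σ x) (σ y) = u x y + (η y - η x))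
    (hψ : ∀ a x y, E a x y → (p : ℤ) ∣ u x y - (ψ y - ψ x)) {x y : X} (h : Rch E x y) :
    ((p : ℤ) * p) ∣ Gv σ p ψ η y - Gv σ p ψ η x := by
  induction h with
  | refl => simp
  | @tail b d _ hbd ih =>
    obtain ⟨a, ha⟩ := hbd
    have h1 := Gv_move hσ hp hu hψ ha
    have h2 := dvd_add h1 ih
    have h3 : Gv σ p ψ η d - Gv σ p ψ η x = (Gv σ p ψ η d - Gv σ p ψ η b) +
        (Gv σ p ψ η b - Gv σ p ψ η x) := by ring
    rw [h3]
    exact h2

end seq

end Pool.Agent.Q112.BP
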