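import Pool.Agent.Q112.BP.CycSel

/-!
Components of spaces with moves and a cyclic symmetry; reflection to a maximal component; the
pp-construction of `K_3`.
-/

set_option autoImplicit false

namespace Pool.Agent.Q112.BP

open Set Function Pool.Agent.W994.AR

/-- a maximal element among finitely many classes -/
theorem exists_max_of_fin {W : Type} (le : W → W → Prop) (hrefl : ∀ w, le w w)
    (htrans : ∀ u v w, le u v → le v w → le u w) (NB : W → Prop)
    (hup : ∀ v w, NB v → le v w → NB w)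
    (hfin : ∃ F : Set W, F.Finite ∧ ∀ w, ∃ r ∈ F, le w r ∧ le r w) {v : W} (hv : NB v) :
    ∃ v₀, NB v₀ ∧ ∀ w, le v₀ w → le w v₀ := by
  classical
  obtain ⟨F, hF, hrep⟩ := hfin
  let F' : Finset W := hF.toFinset.filter (fun r => NB r)
  have hne : F'.Nonempty := by
    obtain ⟨r, hr, h1, _⟩ := hrep v
    exact ⟨r, by simp [F', hr, hup v r hv h1]⟩
  obtain ⟨r, hr, hmax⟩ := Finset.exists_max_image F' (fun r => (F'.filter (fun u => le u r)).card) hne
  have hrNB : NB r := (Finset.mem_filter.1 hr).2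
  refine ⟨r, hrNB, fun w hw => ?_⟩
  obtain ⟨r', hr', h1, h2⟩ := hrep w
  have hw' : NB w := hup _ _ hrNB hw
  have hr'F : r' ∈ F' := by simp [F', hr', hup _ _ hw' h1]
  have hsub : F'.filter (fun u => le u r) ⊆ F'.filter (fun u => le u r') := by
    intro u hu
    rw [Finset.mem_filter] at hu ⊢
    exact ⟨hu.1, htrans _ _ _ (htrans _ _ _ hu.2 hw) h1⟩
  have heq := Finset.eq_of_subset_of_card_le hsub (hmax r' hr'F)
  have h4 : r' ∈ F'.filter (fun u => le u r) := by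
    rw [heq, Finset.mem_filter]
    exact ⟨hr'F, hrefl r'⟩
  exact htrans _ _ _ h1 (Finset.mem_filter.1 h4).2

section comp

variable {W P : Type} {E : P → W → W → Prop} {σ : W → W} {τ : P → P}

/-- the component of `v` -/
def Kp (E : P → W → W → Prop) (v : W) : Set W := {w | Rch E v w}

theorem Kp.self (v : W) : v ∈ Kp E v := Relation.ReflTransGen.refl

theorem Kp.eq (hs : ∀ a x y, E a x y → E a y x) {v w : W} (h : w ∈ Kp E v) : Kp E w = Kp E v := by
  ext x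
  exact ⟨fun hx => Relation.ReflTransGen.trans h hx,
    fun hx => Relation.ReflTransGen.trans (Rch.symm hs h) hx⟩

theorem Rch.inKp {v x y : W} (h : Rch E x y) (hx : x ∈ Kp E v) : ∃ hy : y ∈ Kp E v,
    Rch (fun a (x y : Kp E v) => E a x.1 y.1) ⟨x, hx⟩ ⟨y, hy⟩ := by
  induction h with
  | refl => exact ⟨hx, Relation.ReflTransGen.refl⟩
  | tail _ hbc ih =>
    obtain ⟨hb, ih⟩ := ih
    obtain ⟨a, ha⟩ := hbc
    exact ⟨Relation.ReflTransGen.tail hb ⟨a, ha⟩, ih.tail ⟨a, ha⟩⟩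

/-- `v` is a point with trivial moves which can be moved to its image under `σ` -/
def Sy (E : P → W → W → Prop) (σ : W → W) (v : W) : Prop := (∀ a, E a v v) ∧ Rch E v (σ v)

theorem Sy.stable (hσ : ∀ a x y, E a x y → E (τ a) (σ x) (σ y)) {v : W} (h : Sy E σ v) {x : W}
    (hx : x ∈ Kp E v) : σ x ∈ Kp E v :=
  Relation.ReflTransGen.trans h.2 (Rch.map σ τ hσ hx)

theorem Sy.refl (hr : ∀ a x y, E a x y → ∀ b, E b y y) {v : W} (h : Sy E σ v) {x : W}
    (hx : x ∈ Kp E v) (a : P) : E a x x := by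
  have h1 : ∀ a, E a x x := by
    induction hx with
    | refl => exact h.1
    | tail _ hbc _ =>
      obtain ⟨b, hb⟩ := hbc
      exact hr _ _ _ hb
  exact h1 a

/-- there is a map from the component of `v` to the component of `w` which preserves the moves and
commutes with `σ` -/
def leS (E : P → W → W → Prop) (σ : W → W) (v w : W) : Prop :=
  ∃ φ : W → W, (∀ x ∈ Kp E v, ∀ y ∈ Kp E v, ∀ a, E a x y → E a (φ x) (φ y)) ∧
    (∀ x ∈ Kp E v, φ (σ x) = σ (φ x)) ∧ ∀ x ∈ Kp E v, φ x ∈ Kp E w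

theorem leS.refl (v : W) : leS E σ v v :=
  ⟨id, fun _ _ _ _ _ h => h, fun _ _ => rfl, fun _ h => h⟩

theorem leS.trans {u v w : W} (h : leS E σ u v) (h' : leS E σ v w) : leS E σ u w := by
  obtain ⟨φ, h1, h2, h3⟩ := h
  obtain ⟨ψ, h4, h5, h6⟩ := h'
  refine ⟨ψ ∘ φ, fun x hx y hy a hxy => h4 _ (h3 x hx) _ (h3 y hy) a (h1 x hx y hy a hxy),
    fun x hx => ?_, fun x hx => h6 _ (h3 x hx)⟩
  show ψ (φ (σ x)) = σ (ψ (φ x))
  rw [h2 x hx, h5 _ (h3 x hx)]

theorem leS.of_hom (φ : W → W) (hφ : ∀ a x y, E a x y → E a (φ x) (φ y))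
    (hφσ : ∀ x, φ (σ x) = σ (φ x)) (v : W) : leS E σ v (φ v) :=
  ⟨φ, fun x _ y _ a h => hφ a x y h, fun x _ => hφσ x, fun _ hx => Rch.map φ id hφ hx⟩

theorem Sy.le (hs : ∀ a x y, E a x y → E a y x) (hr : ∀ a x y, E a x y → ∀ b, E b y y)
    (hσ : ∀ a x y, E a x y → E (τ a) (σ x) (σ y)) {v w : W} (h : Sy E σ v)
    (hle : leS E σ v w) : Sy E σ w := by
  obtain ⟨φ, h1, h2, h3⟩ := hle
  have h4 : ∀ a, E a (φ v) (φ v) := fun a => h1 v (Kp.self v) v (Kp.self v) a (h.1 a)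
  have h5 : Rch E (φ v) w := Rch.symm hs (h3 v (Kp.self v))
  have h6 : Rch E (φ v) (φ (σ v)) := by
    obtain ⟨hy, hpath⟩ := Rch.inKp h.2 (Kp.self (E := E) v)
    exact Rch.map (fun x : Kp E v => φ x.1) id (fun a x y hxy => h1 _ x.2 _ y.2 a hxy) hpath
  rw [h2 v (Kp.self v)] at h6
  constructor
  · have h7 : Sy E σ (φ v) := ⟨h4, h6⟩
    exact fun a => h7.refl hr h5 a
  · exact Relation.ReflTransGen.trans (Rch.symm hs h5)
      (Relation.ReflTransGen.trans h6 (Rch.map σ τ hσ h5))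

/-- maps of several variables of the whole space are turned into maps of a maximal component -/
theorem reflectionS (hs : ∀ a x y, E a x y → E a y x) (hr : ∀ a x y, E a x y → ∀ b, E b y y)
    (hσ : ∀ a x y, E a x y → E (τ a) (σ x) (σ y)) {v₀ : W} (h0 : Sy E σ v₀)
    (hmax : ∀ w, leS E σ v₀ w → leS E σ w v₀) :
    ∃ ρ : W → W, ∀ (κ : Type) [Finite κ] (f : (κ → W) → W), PolM E f →
      (∀ x : κ → W, f (fun k => σ (x k)) = σ (f x)) →
      (∀ x : κ → Kp E v₀, ρ (f (fun k => (x k).1)) ∈ Kp E v₀) ∧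
      (∀ a (x y : κ → Kp E v₀), (∀ k, E a (x k).1 (y k).1) →
        E a (ρ (f (fun k => (x k).1))) (ρ (f (fun k => (y k).1)))) ∧
      ∀ x : κ → Kp E v₀, ρ (f (fun k => σ (x k).1)) = σ (ρ (f (fun k => (x k).1))) := by
  classical
  let Ψ : Set W → W → W := fun S => if h : ∃ ψ : W → W, (∀ x ∈ S, ∀ y ∈ S, ∀ a, E a x y →
    E a (ψ x) (ψ y)) ∧ (∀ x ∈ S, ψ (σ x) = σ (ψ x)) ∧ ∀ x ∈ S, ψ x ∈ Kp E v₀ then h.choose else id
  have hΨ : ∀ w, leS E σ w v₀ → (∀ x ∈ Kp E w, ∀ y ∈ Kp E w, ∀ a, E a x y →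
      E a (Ψ (Kp E w) x) (Ψ (Kp E w) y)) ∧ (∀ x ∈ Kp E w, Ψ (Kp E w) (σ x) = σ (Ψ (Kp E w) x)) ∧
      ∀ x ∈ Kp E w, Ψ (Kp E w) x ∈ Kp E v₀ := by
    intro w hw
    have h : ∃ ψ : W → W, (∀ x ∈ Kp E w, ∀ y ∈ Kp E w, ∀ a, E a x y →
      E a (ψ x) (ψ y)) ∧ (∀ x ∈ Kp E w, ψ (σ x) = σ (ψ x)) ∧ ∀ x ∈ Kp E w, ψ x ∈ Kp E v₀ := hw
    simp only [Ψ, dif_pos h]
    exact h.choose_spec
  refine ⟨fun x => Ψ (Kp E x) x, ?_⟩
  intro κ _ f hf hfσ
  set w₀ := f (fun _ => v₀) with hw₀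
  have hle : leS E σ v₀ w₀ := leS.of_hom (fun p => f (fun _ => p))
    (fun a x y h => hf a _ _ (fun _ => h)) (fun x => hfσ (fun _ => x)) v₀
  have hle' := hmax w₀ hle
  obtain ⟨hΨ1, hΨ2, hΨ3⟩ := hΨ w₀ hle'
  have hrefl : ∀ a (x : Kp E v₀), E a x.1 x.1 := fun a x => h0.refl hr x.2 a
  have hconn : ∀ x y : Kp E v₀, Rch (fun a (x y : Kp E v₀) => E a x.1 y.1) x y := by
    intro x y
    obtain ⟨_, h1⟩ := Rch.inKp (Relation.ReflTransGen.trans (Rch.symm hs x.2) y.2) x.2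
    exact h1
  have hmem : ∀ x : κ → Kp E v₀, f (fun k => (x k).1) ∈ Kp E w₀ := by
    intro x
    have h1 := pi_rch (E := fun a (x y : Kp E v₀) => E a x.1 y.1) (ι := κ) hrefl hconn
      (fun _ => ⟨v₀, Kp.self v₀⟩) x
    exact Rch.map (fun z : κ → Kp E v₀ => f (fun k => (z k).1)) id
      (fun a x y hxy => hf a _ _ hxy) h1
  refine ⟨?_, ?_, ?_⟩
  · intro x
    show Ψ (Kp E (f (fun k => (x k).1))) (f (fun k => (x k).1)) ∈ Kp E v₀
    rw [Kp.eq hs (hmem x)]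
    exact hΨ3 _ (hmem x)
  · intro a x y hxy
    show E a (Ψ (Kp E (f (fun k => (x k).1))) (f (fun k => (x k).1)))
      (Ψ (Kp E (f (fun k => (y k).1))) (f (fun k => (y k).1)))
    rw [Kp.eq hs (hmem x), Kp.eq hs (hmem y)]
    exact hΨ1 _ (hmem x) _ (hmem y) a (hf a _ _ hxy)
  · intro x
    have h1 := hmem (fun k => ⟨σ (x k).1, h0.stable hσ (x k).2⟩)
    show Ψ (Kp E (f (fun k => σ (x k).1))) (f (fun k => σ (x k).1)) =
      σ (Ψ (Kp E (f (fun k => (x k).1))) (f (fun k => (x k).1)))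
    rw [Kp.eq hs (hmem x), Kp.eq hs h1, hfσ (fun k => (x k).1)]
    exact hΨ2 _ (hmem x)

end comp

section structures

variable {A ι : Type} {ar : ι → ℕ}

/-- the moves of the tuples of `R` -/
def Mov {P J A : Type} (R : Set (P × J → A)) (a : P) (x y : P × J → A) : Prop :=
  x ∈ R ∧ y ∈ R ∧ ∀ b, b ≠ a → ∀ j, x (b, j) = y (b, j)

/-- Main theorem on cyclic relations. -/
theorem mainCyc [Finite ι] [Countable A] {𝔸 : Str ι ar A} (hO : Oligo 𝔸) {p : ℕ} [NeZero p] {n : ℕ}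
    (R : Set (ZMod p × Fin n → A)) (hR : PPDef 𝔸 R)
    (hcyc : ∀ x ∈ R, (fun z : ZMod p × Fin n => x (z.1 + 1, z.2)) ∈ R)
    {t : ZMod p × Fin n → A} (ht : t ∈ R)
    (hreach : Rch (Mov R) t (fun z => t (z.1 + 1, z.2)))
    {w : (ZMod p × Fin n → A) → (ZMod p × Fin n → A) → ℤ} {B : ℤ}
    (hline : ∀ a x y z, Mov R a x y → Mov R a y z → w x y + w y z = w x z)
    (hsq : ∀ a b x y z u, Mov R a x y → Mov R b y z → Mov R b x u → Mov R a u z →
      w x y + w y z = w x u + w u z)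
    (hbd : ∀ a x y, Mov R a x y → |w x y| ≤ B)
    (hw : ∀ a x y, Mov R a x y →
      w (fun z => x (z.1 + 1, z.2)) (fun z => y (z.1 + 1, z.2)) = w x y)
    {φ : (ZMod p × Fin n → A) → ℤ} {k : ℤ}
    (hφ : ∀ a x y, Mov R a x y → (p : ℤ) ∣ w x y - (φ y - φ x))
    (hφσ : ∀ x ∈ R, (p : ℤ) ∣ φ (fun z => x (z.1 + 1, z.2)) - φ x - k) (hk : ¬ (p : ℤ) ∣ k) :
    PPConstructsK3 𝔸 := by
  classical
  let W : Type := ZMod p × Fin n → A
  let E : ZMod p → W → W → Prop := Mov R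
  let σ : W → W := fun x z => x (z.1 + 1, z.2)
  let τ : ZMod p → ZMod p := fun a => a - 1
  have hs : ∀ a x y, E a x y → E a y x :=
    fun a x y h => ⟨h.2.1, h.1, fun b hb j => (h.2.2 b hb j).symm⟩
  have hr : ∀ a x y, E a x y → ∀ b, E b y y :=
    fun a x y h b => ⟨h.2.1, h.2.1, fun _ _ _ => rfl⟩
  have hσ : ∀ a x y, E a x y → E (τ a) (σ x) (σ y) := by
    intro a x y h
    refine ⟨hcyc x h.1, hcyc y h.2.1, fun b hb j => h.2.2 (b + 1) ?_ j⟩
    rintro rfl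
    exact hb (by simp [τ])
  have hσp : ∀ x, σ^[p] x = x := by
    intro x
    have key : ∀ (m : ℕ) (z : ZMod p × Fin n), (σ^[m] x) z = x (z.1 + m, z.2) := by
      intro m
      induction m with
      | zero => intro z; simp
      | succ m ih =>
        intro z
        rw [Function.iterate_succ_apply']
        show (σ^[m] x) (z.1 + 1, z.2) = x (z.1 + ((m + 1 : ℕ) : ZMod p), z.2)
        rw [ih]
        push_cast
        congr 2
        ring
    funext z
    rw [key]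
    simp
  -- polymorphisms of 𝔸 act on the tuples
  have hact : ∀ {κ : Type} {f : (κ → A) → A}, PolA 𝔸 f →
      PolM E (fun (x : κ → W) z => f (fun k => x k z)) := by
    intro κ f hf a x y hxy
    refine ⟨hf.preserves hR x (fun k => (hxy k).1), hf.preserves hR y (fun k => (hxy k).2.1),
      fun b hb j => ?_⟩
    show f _ = f _
    congr 1
    funext k
    exact (hxy k).2.2 b hb j
  have hactR : ∀ g ∈ autGroup 𝔸, ∀ a x y, E a x y → E a (fun z => g (x z)) (fun z => g (y z)) :=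
    fun g hg a x y hxy => hact (aut_pol hg) a (fun _ => x) (fun _ => y) (fun _ => hxy)
  have hfin : ∃ F : Set W, F.Finite ∧ ∀ w, ∃ r ∈ F, leS E σ w r ∧ leS E σ r w := by
    obtain ⟨F, hF, h⟩ := hO.fin (ZMod p × Fin n)
    refine ⟨F, hF, fun w => ?_⟩
    obtain ⟨r, hr, g, hg, hgr⟩ := h w
    have e1 : (fun z => g (w z)) = r := funext hgr
    have e2 : (fun z => g⁻¹ (r z)) = w := by
      funext z
      rw [← hgr z]
      simp
    refine ⟨r, hr, ?_, ?_⟩
    · have h1 := leS.of_hom (E := E) (σ := σ) (fun x z => g (x z)) (hactR g hg)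
        (fun x => rfl) w
      rwa [e1] at h1
    · have h1 := leS.of_hom (E := E) (σ := σ) (fun x z => g⁻¹ (x z))
        (hactR g⁻¹ ((autGroup 𝔸).inv_mem hg)) (fun x => rfl) r
      rwa [e2] at h1
  obtain ⟨v₀, hv₀, hmax⟩ := exists_max_of_fin (leS E σ) leS.refl (fun _ _ _ => leS.trans)
    (Sy E σ) (fun v w hv hle => hv.le hs hr hσ hle) hfin
    (v := t) ⟨fun a => ⟨ht, ht, fun _ _ _ => rfl⟩, hreach⟩
  obtain ⟨ρ, hρ⟩ := reflectionS hs hr hσ hv₀ hmax
  -- the component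
  let K' : Type := Kp E v₀
  let E' : ZMod p → K' → K' → Prop := fun a x y => E a x.1 y.1
  let σ' : K' → K' := fun x => ⟨σ x.1, hv₀.stable hσ x.2⟩
  have hrefl : ∀ a (x : K'), E' a x x := fun a x => hv₀.refl hr x.2 a
  have hconn : ∀ x y : K', Rch E' x y := by
    intro x y
    obtain ⟨_, h1⟩ := Rch.inKp (Relation.ReflTransGen.trans (Rch.symm hs x.2) y.2) x.2
    exact h1
  have hinR : ∀ x : K', x.1 ∈ R := fun x => (hrefl 0 x).1
  have hF : FlatOn E' (fun x y => w x.1 y.1) B :=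
    ⟨hrefl, fun a x y z h1 h2 _ => hline a _ _ _ h1 h2,
      fun a b x y z u h1 h2 h3 h4 => hsq a b _ _ _ _ h1 h2 h3 h4, fun a x y h => hbd a _ _ h⟩
  have hσ'p : ∀ x : K', σ'^[p] x = x := by
    intro x
    have key : ∀ m : ℕ, (σ'^[m] x).1 = σ^[m] x.1 := by
      intro m
      induction m with
      | zero => rfl
      | succ m ih =>
        rw [Function.iterate_succ_apply', Function.iterate_succ_apply', ← ih]
    exact Subtype.ext ((key p).trans (hσp x.1))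
  obtain ⟨S, hSf, hSne, Φ, hΦ1, hΦ2⟩ := selectC (E := E') (w := fun x y => w x.1 y.1) (σ := σ')
    (τ := τ) (φ := fun x => φ x.1) hF hconn (fun a x y h => hσ a _ _ h)
    (Nat.pos_of_ne_zero (NeZero.ne p)) hσ'p (fun a x y h => hw a _ _ h)
    (fun a x y h => hφ a _ _ h) (fun x => hφσ x.1 (hinR x)) hk ⟨v₀, Kp.self v₀⟩
  -- reflected polymorphisms
  let rf : ∀ {κ : Type} [Finite κ] (f : (κ → A) → A), PolA 𝔸 f → (κ → K') → K' :=
    fun {κ} _ f hf x => ⟨ρ (fun z => f (fun k => (x k).1 z)),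
      (hρ κ _ (hact hf) (fun x => rfl)).1 x⟩
  have hrf : ∀ {κ : Type} [Finite κ] (f : (κ → A) → A) (hf : PolA 𝔸 f),
      QS E' σ' (rf f hf) := by
    intro κ _ f hf
    refine ⟨fun a x y hxy => (hρ κ _ (hact hf) (fun x => rfl)).2.1 a x y hxy, fun x => ?_⟩
    exact Subtype.ext ((hρ κ _ (hact hf) (fun x => rfl)).2.2 x)
  -- n is positive
  have hn : Nonempty (ZMod p × Fin n) := by
    by_contra hno
    rw [not_nonempty_iff] at hno
    have h1 : (fun z : ZMod p × Fin n => t (z.1 + 1, z.2)) = t := Subsingleton.elim _ _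
    have h2 := hφσ t ht
    rw [h1, sub_self, zero_sub, dvd_neg] at h2
    exact hk h2
  let S' : Set A := (fun q : K' × (ZMod p × Fin n) => q.1.1 q.2) '' (S ×ˢ Set.univ)
  refine k3_of_select hO S' ((hSf.prod Set.finite_univ).image _)
    ⟨_, ⟨(hSne.some, hn.some), ⟨hSne.some_mem, trivial⟩, rfl⟩⟩
    (fun f hf => Φ (Fin 3) (rf f hf) (hrf f hf)) (fun f hf => Φ Ed (rf f hf) (hrf f hf)) ?_ ?_ ?_
  · intro f hf hf'
    exact hΦ1 Ed (Fin 3) (fun e => e.1.1) (rf f hf) (hrf f hf) (hrf _ hf')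
  · intro f hf hf'
    exact hΦ1 Ed (Fin 3) (fun e => e.1.2) (rf f hf) (hrf f hf) (hrf _ hf')
  · intro f f' hf hf' hff
    apply hΦ2
    intro x hx
    apply Subtype.ext
    show ρ (fun z => f (fun k => (x k).1 z)) = ρ (fun z => f' (fun k => (x k).1 z))
    congr 1
    funext z
    apply hff
    intro k
    exact ⟨(x k, z), ⟨hx k, trivial⟩, rfl⟩

end structures

end Pool.Agent.Q112.BP
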