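import Pool.Agent.Q112.BP.Cyc

/-!
Selection of a variable for maps preserving moves and a cyclic symmetry.
-/

set_option autoImplicit false

namespace Pool.Agent.Q112.BP

open Finset Function

theorem sum_zmod_range {L : ℕ} [NeZero L] (f : ℕ → ℤ) :
    ∑ s : ZMod L, f s.val = ∑ m ∈ range L, f m := by
  refine Finset.sum_nbij' (fun s : ZMod L => s.val) (fun m => (m : ZMod L)) ?_ ?_ ?_ ?_ ?_
  · intro s _
    exact Finset.mem_range.2 (ZMod.val_lt s)
  · intro m _
    exact Finset.mem_univ _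
  · intro s _
    exact ZMod.natCast_zmod_val s
  · intro m hm
    exact ZMod.val_natCast_of_lt (Finset.mem_range.1 hm)
  · intro s _
    rfl

theorem val_succ_cases {L : ℕ} [NeZero L] (s : ZMod L) :
    (s.val + 1 < L ∧ (s + 1).val = s.val + 1) ∨ (s.val + 1 = L ∧ (s + 1).val = 0) := by
  have hu := ZMod.val_lt s
  have e : (s + 1 : ZMod L) = ((s.val + 1 : ℕ) : ZMod L) := by
    push_cast
    rw [ZMod.natCast_zmod_val]
  rcases Nat.lt_or_ge (s.val + 1) L with h1 | h1
  · left
    exact ⟨h1, by rw [e, ZMod.val_natCast, Nat.mod_eq_of_lt h1]⟩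
  · right
    have h2 : s.val + 1 = L := by omega
    exact ⟨h2, by rw [e, h2, ZMod.natCast_self, ZMod.val_zero]⟩

theorem lps_val {X : Type} {σ : X → X} {p N : ℕ} [NeZero (p * N)] (hN : 0 < N)
    (hp : ∀ x, σ^[p] x = x) (c : ℕ → X) (s : ZMod (p * N)) :
    lps σ N c (s + 1).val = lps σ N c (s.val + 1) := by
  rcases val_succ_cases s with ⟨_, h⟩ | ⟨h1, h⟩
  · rw [h]
  · rw [h, h1]
    unfold lps
    rw [Nat.zero_div, Nat.zero_mod, Nat.mul_div_cancel _ hN, Nat.mul_mod_left, hp]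
    rfl

section

variable {X Y Z P : Type} {RX : P → X → X → Prop} {RY : P → Y → Y → Prop} {R : P → Z → Z → Prop}
  {w : Z → Z → ℤ} {B : ℤ}

theorem Sm_base_rch {L : ℕ} [NeZero L] (h : FlatOn R w B) (hX : ∀ a x, RX a x x)
    (hY : ∀ a y, RY a y y) {g : X → Y → Z}
    (hg : ∀ a x x' y y', RX a x x' → RY a y y' → R a (g x y) (g x' y')) (α : ZMod L → P)
    (x : ZMod L → X) (hx : ∀ s, RX (α s) (x s) (x (s + 1))) {y y' : Y} (hy : Rch RY y y') :
    Sm w (fun s => g (x s) y) = Sm w (fun s => g (x s) y') := by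
  induction hy with
  | refl => rfl
  | tail _ hbc ih =>
    obtain ⟨a, ha⟩ := hbc
    rw [ih]
    exact Sm_base h hX hY hg α x hx ha

theorem base_eta (h : FlatOn R w B) (hX : ∀ a x, RX a x x) (hY : ∀ a y, RY a y y) {g : X → Y → Z}
    (hg : ∀ a x x' y y', RX a x x' → RY a y y' → R a (g x y) (g x' y')) {y y' : Y}
    (hy : Rch RY y y') : ∃ η : X → ℤ, ∀ a x x', RX a x x' →
      w (g x y') (g x' y') = w (g x y) (g x' y) + (η x' - η x) := by
  induction hy with
  | refl => exact ⟨0, fun a x x' _ => by simp⟩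
  | @tail z z' _ hbc ih =>
    obtain ⟨b, hb⟩ := hbc
    obtain ⟨η, hη⟩ := ih
    refine ⟨fun x => η x + w (g x z) (g x z'), fun a x x' hx => ?_⟩
    have e1 := hη a x x' hx
    have e2 := h.square a b (g x z) (g x' z) (g x' z') (g x z')
      (hg _ _ _ _ _ hx (hY _ _)) (hg _ _ _ _ _ (hX _ _) hb) (hg _ _ _ _ _ (hX _ _) hb)
      (hg _ _ _ _ _ hx (hY _ _))
    linarith

end

/-- the map preserves the moves and commutes with `σ` -/
def QS {X P : Type} (E : P → X → X → Prop) (σ : X → X) {ι : Type} (f : (ι → X) → X) : Prop :=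
  PolM E f ∧ ∀ x : ι → X, f (fun i => σ (x i)) = σ (f x)

section

variable {X P : Type} {E : P → X → X → Prop} {w : X → X → ℤ} {B : ℤ} {σ : X → X} {τ : P → P}
  {p : ℕ} {φ : X → ℤ}

/-- data of the closed sequence -/
theorem sum_cyc {N : ℕ} [NeZero (p * N)] (hσ : ∀ a x y, E a x y → E (τ a) (σ x) (σ y))
    (hp : ∀ x, σ^[p] x = x) (hN : 0 < N) {c : ℕ → X} {a : ℕ → P}
    (hc : ∀ s, s < N → E (a s) (c s) (c (s + 1))) (hcN : c N = σ (c 0)) {u : X → X → ℤ}
    {ψ η : X → ℤ} (hu : ∀ a x y, E a x y → u (σ x) (σ y) = u x y + (η y - η x))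
    (hψ : ∀ a x y, E a x y → (p : ℤ) ∣ u x y - (ψ y - ψ x)) {h : X → X}
    (hh : ∀ a x y, E a x y → E a (h x) (h y)) (hhσ : ∀ x, h (σ x) = σ (h x)) :
    ((p : ℤ) * p) ∣ ∑ s : ZMod (p * N), u (h (lps σ N c s.val)) (h (lps σ N c (s + 1).val)) -
      Gv σ p ψ η (h (c 0)) := by
  have e1 : ∑ s : ZMod (p * N), u (h (lps σ N c s.val)) (h (lps σ N c (s + 1).val)) =
      ∑ m ∈ range (p * N), u (lps σ N (fun s => h (c s)) m)
        (lps σ N (fun s => h (c s)) (m + 1)) := by
    rw [← sum_zmod_range (L := p * N) (fun m => u (lps σ N (fun s => h (c s)) m)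
        (lps σ N (fun s => h (c s)) (m + 1)))]
    apply Finset.sum_congr rfl
    intro s _
    rw [lps_val hN hp, lps_map h hhσ, lps_map h hhσ]
  rw [e1]
  exact sum_lps hσ hu hψ hN (c := fun s => h (c s)) (fun s hs => hh _ _ _ (hc s hs))
    (by rw [hcN, hhσ])

theorem selectC [Nonempty P] (hF : FlatOn E w B) (hconn : ∀ x y, Rch E x y)
    (hσ : ∀ a x y, E a x y → E (τ a) (σ x) (σ y)) (hp0 : 0 < p) (hp : ∀ x, σ^[p] x = x)
    (hw : ∀ a x y, E a x y → w (σ x) (σ y) = w x y) {k : ℤ}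
    (hφ : ∀ a x y, E a x y → (p : ℤ) ∣ w x y - (φ y - φ x))
    (hφσ : ∀ x, (p : ℤ) ∣ φ (σ x) - φ x - k) (hk : ¬ (p : ℤ) ∣ k) (x₀ : X) :
    ∃ S : Set X, S.Finite ∧ S.Nonempty ∧
    ∃ Φ : ∀ (κ : Type) [Fintype κ] (g : (κ → X) → X), QS E σ g → κ,
    (∀ (κ κ' : Type) [Fintype κ] [Fintype κ'] (π : κ → κ') (g : (κ → X) → X) (hg : QS E σ g)
      (hg' : QS E σ (fun y : κ' → X => g (y ∘ π))), Φ κ' (fun y => g (y ∘ π)) hg' = π (Φ κ g hg)) ∧
    (∀ (κ : Type) [Fintype κ] (g g' : (κ → X) → X) (hg : QS E σ g) (hg' : QS E σ g'),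
      (∀ x : κ → X, (∀ k, x k ∈ S) → g x = g' x) → Φ κ g hg = Φ κ g' hg') := by
  classical
  obtain ⟨N, c, a, hN, hc0, hcN, hc⟩ := (hconn x₀ (σ x₀)).path hF.refl
  have hcN' : c N = σ (c 0) := by rw [hcN, hc0]
  have hL : NeZero (p * N) := ⟨(Nat.mul_pos hp0 hN).ne'⟩
  let C : ZMod (p * N) → X := fun s => lps σ N c s.val
  let α : ZMod (p * N) → P := fun s => τ^[s.val / N] (a (s.val % N))
  have hC : ∀ s, E (α s) (C s) (C (s + 1)) := by
    intro s
    show E (τ^[s.val / N] (a (s.val % N))) (lps σ N c s.val) (lps σ N c (s + 1).val)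
    rw [lps_val hN hp, lps_step hN hcN']
    exact iter_move hσ _ (hc _ (Nat.mod_lt _ hN))
  have hdiag : ∀ {ι : Type} (f : (ι → X) → X), QS E σ f →
      (∀ a x y, E a x y → E a (f fun _ => x) (f fun _ => y)) ∧
      ∀ x, f (fun _ => σ x) = σ (f fun _ => x) :=
    fun f hf => ⟨fun a x y hxy => hf.1 a _ _ (fun _ => hxy), fun x => hf.2 (fun _ => x)⟩
  refine ⟨Set.range C, Set.finite_range _, ⟨_, ⟨0, rfl⟩⟩, ?_⟩
  refine selectM (R := E) (w := w) C α ((p : ℤ) * p) (fun {ι} f => QS E σ f) (fun f hf => hf.1) ?_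
    ?_ ?_ ?_ hF hC
  · intro ι κ m g hm hg
    refine ⟨starM_pol hm.1 hg.1, fun x => ?_⟩
    show m (fun i => g (fun k => σ (x (i, k)))) = σ (m (fun i => g (fun k => x (i, k))))
    rw [← hm.2]
    congr 1
    funext i
    exact hg.2 (fun k => x (i, k))
  · exact ⟨fun a x y hxy => hxy (), fun x => rfl⟩
  · intro ι _ f hf hdvd
    obtain ⟨hh, hhσ⟩ := hdiag f hf
    have h1 := sum_cyc (u := w) (ψ := φ) (η := 0) hσ hp hN hc hcN'
      (fun a x y h => by rw [hw a x y h]; simp) hφ hh hhσ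
    have h2 : ((p : ℤ) * p) ∣ Gv σ p φ 0 (f fun _ => c 0) := by
      have h3 := dvd_sub hdvd h1
      rwa [show Sm w (fun s => f (fun _ => C s)) - (∑ s : ZMod (p * N),
        w (f fun _ => lps σ N c s.val) (f fun _ => lps σ N c (s + 1).val) -
        Gv σ p φ 0 (f fun _ => c 0)) = Gv σ p φ 0 (f fun _ => c 0) by
          unfold Sm
          simp only [C]
          ring] at h3
    have h4 : Gv σ p φ 0 (f fun _ => c 0) = p * (φ (σ (f fun _ => c 0)) - φ (f fun _ => c 0)) := by
      unfold Gv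
      simp
    rw [h4] at h2
    have hp1 : (p : ℤ) ≠ 0 := by
      have : (0 : ℤ) < p := by exact_mod_cast hp0
      exact this.ne'
    have h5 := (mul_dvd_mul_iff_left hp1).1 h2
    apply hk
    have h6 := dvd_sub h5 (hφσ (f fun _ => c 0))
    simpa using h6
  · intro ι κ _ _ m g i hm hg
    obtain ⟨hh, hhσ⟩ := hdiag g hg
    set b : ι → X := fun _ => C 0 with hb
    have hslot : ∀ (a : P) (x x' : X) (y y' : ι → X), E a x x' → (∀ j, E a (y j) (y' j)) →
        E a (m (update y i x)) (m (update y' i x')) :=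
      fun a x x' y y' hx hy => hm.1.slot i a x x' y y' hx hy
    have hr : ∀ (a : P) (y : ι → X), ∀ j, E a (y j) (y j) := fun a y j => hF.refl _ _
    have hpi := fun (y y' : ι → X) => pi_rch (ι := ι) hF.refl hconn y y'
    -- move the base point
    have e1 : dg w (fun s => g (fun _ => C s)) m i =
        Sm w (fun s => m (update b i (g (fun _ => C s)))) :=
      Sm_base_rch (RX := E) (RY := fun a (x y : ι → X) => ∀ i, E a (x i) (y i))
        (g := fun x y => m (update y i x)) hF hF.refl hr hslot α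
        (fun s => g (fun _ => C s)) (fun s => hh _ _ _ (hC s)) (hpi _ _)
    have e2 : dg w C m i = Sm w (fun s => m (update b i (C s))) := rfl
    obtain ⟨η, hη⟩ := base_eta (RX := E) (RY := fun a (x y : ι → X) => ∀ i, E a (x i) (y i))
        (g := fun x y => m (update y i x)) hF hF.refl hr hslot (hpi (fun j => σ (b j)) b)
    have hu : ∀ a x y, E a x y → w (m (update b i (σ x))) (m (update b i (σ y))) =
        w (m (update b i x)) (m (update b i y)) + ((fun z => η (σ z)) y - (fun z => η (σ z)) x) := by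
      intro a x y hxy
      have h1 := hη _ _ _ (hσ _ _ _ hxy)
      have h2 : ∀ z, m (update (fun j => σ (b j)) i (σ z)) = σ (m (update b i z)) := by
        intro z
        rw [← hm.2]
        congr 1
        funext j
        by_cases hj : j = i
        · subst hj
          simp
        · simp [hj]
      have h3 : ∀ z, (fun x y => m (update y i x)) z (fun j => σ (b j)) =
          m (update (fun j => σ (b j)) i z) := fun z => rfl
      simp only [h2] at h1
      rw [h1, hw a _ _ (hslot a x y b b hxy (hr a b))]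
    have hψ : ∀ a x y, E a x y → (p : ℤ) ∣ w (m (update b i x)) (m (update b i y)) -
        ((fun z => φ (m (update b i z))) y - (fun z => φ (m (update b i z))) x) :=
      fun a x y hxy => hφ a _ _ (hslot a x y b b hxy (hr a b))
    have k1 := sum_cyc (u := fun x y => w (m (update b i x)) (m (update b i y)))
      (ψ := fun z => φ (m (update b i z))) (η := fun z => η (σ z)) hσ hp hN hc hcN' hu hψ hh hhσ
    have k2 := sum_cyc (u := fun x y => w (m (update b i x)) (m (update b i y)))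
      (ψ := fun z => φ (m (update b i z))) (η := fun z => η (σ z)) hσ hp hN hc hcN' hu hψ
      (h := fun x => x) (fun a x y h => h) (fun x => rfl)
    have k3 := Gv_rch (u := fun x y => w (m (update b i x)) (m (update b i y)))
      (ψ := fun z => φ (m (update b i z))) (η := fun z => η (σ z)) hσ hp hu hψ
      (hconn (c 0) (g fun _ => c 0))
    have k4 := dvd_sub (dvd_add k1 k3) k2
    rw [e1, e2]
    unfold Sm
    have k5 : ∀ (A A' G G' : ℤ), (A - G + (G - G') - (A' - G')) = A - A' := by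
      intro A A' G G'
      ring
    rw [k5] at k4
    exact k4

end

end Pool.Agent.Q112.BP
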