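import Pool.Agent.Q112.BP.CycComp

/-!
Functions on pairs with constant cyclic sum.
-/

set_option autoImplicit false

namespace Pool.Agent.Q112.BP

open Finset Function

section

variable {V : Type} {p : ℕ} [NeZero p] (T : V → V → ℤ) (k : ℤ)

/-- the change of `T` under a move -/
def wT (x y : ZMod p → V) : ℤ := ∑ i, T (x i) (y (i + 1)) - k

/-- the primitive modulo `p` -/
def phT (x : ZMod p → V) : ℤ := - ∑ i, ((i.val : ℕ) : ℤ) * T (x i) (x (i + 1))

variable {T k}

theorem wT_move {a : ZMod p} {x y : ZMod p → V} (hx : ∑ i, T (x i) (x (i + 1)) = k)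
    (hxy : ∀ b, b ≠ a → x b = y b) :
    wT T k x y = T (x (a - 1)) (y a) - T (x (a - 1)) (x a) := by
  unfold wT
  rw [← hx, ← Finset.sum_sub_distrib, Finset.sum_eq_single (a - 1)]
  · simp
  · intro i _ hi
    have h1 : i + 1 ≠ a := fun h => hi (by rw [← h]; ring)
    rw [hxy _ h1, sub_self]
  · intro h
    exact absurd (Finset.mem_univ _) h

theorem tot_move {a : ZMod p} (h1 : a - 1 ≠ a) {x y : ZMod p → V}
    (hx : ∑ i, T (x i) (x (i + 1)) = k) (hy : ∑ i, T (y i) (y (i + 1)) = k)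
    (hxy : ∀ b, b ≠ a → x b = y b) :
    T (x (a - 1)) (x a) + T (x a) (x (a + 1)) = T (y (a - 1)) (y a) + T (y a) (y (a + 1)) := by
  have h2 : ∑ i, (T (x i) (x (i + 1)) - T (y i) (y (i + 1))) = 0 := by
    rw [Finset.sum_sub_distrib, hx, hy, sub_self]
  rw [Finset.sum_eq_add (a - 1) a h1] at h2
  · simp only [sub_add_cancel] at h2
    linarith
  · rintro i _ ⟨h3, h4⟩
    have h5 : i + 1 ≠ a := fun h => h3 (by rw [← h]; ring)
    rw [hxy _ h4, hxy _ h5, sub_self]
  · intro h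
    exact absurd (Finset.mem_univ _) h
  · intro h
    exact absurd (Finset.mem_univ _) h

theorem wT_line {a : ZMod p} (h1 : a - 1 ≠ a) {x y z : ZMod p → V}
    (hx : ∑ i, T (x i) (x (i + 1)) = k) (hy : ∑ i, T (y i) (y (i + 1)) = k)
    (hxy : ∀ b, b ≠ a → x b = y b) (hyz : ∀ b, b ≠ a → y b = z b) :
    wT T k x y + wT T k y z = wT T k x z := by
  rw [wT_move hx hxy, wT_move hy hyz, wT_move hx (fun b hb => (hxy b hb).trans (hyz b hb)),
    hxy _ h1]
  ring

theorem wT_square {a b : ZMod p} (h1 : ∀ c : ZMod p, c - 1 ≠ c) (h2 : ∀ c : ZMod p, c - 1 ≠ c + 1)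
    {x y z u : ZMod p → V}
    (hx : ∑ i, T (x i) (x (i + 1)) = k) (hy : ∑ i, T (y i) (y (i + 1)) = k)
    (hz : ∑ i, T (z i) (z (i + 1)) = k) (hu : ∑ i, T (u i) (u (i + 1)) = k)
    (hxy : ∀ c, c ≠ a → x c = y c) (hyz : ∀ c, c ≠ b → y c = z c)
    (hxu : ∀ c, c ≠ b → x c = u c) (huz : ∀ c, c ≠ a → u c = z c) :
    wT T k x y + wT T k y z = wT T k x u + wT T k u z := by
  by_cases hab : a = b
  · subst hab
    rw [wT_line (h1 a) hx hy hxy hyz, wT_line (h1 a) hx hu hxu huz]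
  have hba : b ≠ a := fun h => hab h.symm
  rw [wT_move hx hxy, wT_move hy hyz, wT_move hx hxu, wT_move hu huz]
  have e1 : u b = z b := huz b hba
  have e2 : y a = z a := hyz a hab
  have e3 : x b = y b := hxy b hba
  have e4 : x a = u a := hxu a hab
  by_cases hb : b - 1 = a
  · -- b = a + 1
    have hb' : b = a + 1 := by rw [← hb]; ring
    have e5 : x (a - 1) = u (a - 1) := hxu _ (by rw [hb']; exact h2 a)
    have e6 : x (a - 1) = y (a - 1) := hxy _ (h1 a)
    have e7 : u (a - 1) = z (a - 1) := huz _ (h1 a)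
    have t1 := tot_move (h1 a) hx hy hxy
    have t2 := tot_move (h1 a) hu hz huz
    rw [← hb'] at t1 t2
    rw [hb]
    rw [e1, ← e4, ← e7, ← e5, ← e2] at t2
    rw [← e6, ← e3] at t1
    rw [← e3, ← e5, e1, ← e4, ← e2]
    linarith
  · by_cases ha : a - 1 = b
    · have ha' : a = b + 1 := by rw [← ha]; ring
      have e5 : x (b - 1) = y (b - 1) := hxy _ (by rw [ha']; exact h2 b)
      have e6 : x (b - 1) = u (b - 1) := hxu _ (h1 b)
      have e7 : y (b - 1) = z (b - 1) := hyz _ (h1 b)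
      have t1 := tot_move (h1 b) hx hu hxu
      have t2 := tot_move (h1 b) hy hz hyz
      rw [← ha'] at t1 t2
      rw [ha]
      rw [← e3, e2, ← e7, ← e5, ← e1] at t2
      rw [← e6, ← e4] at t1
      rw [← e3, ← e5, e1, ← e4, e2]
      rw [e1] at t1 t2
      linarith
    · rw [← hxy _ hb, ← hxu _ ha, ← e3, ← e4, e1, e2]
      ring

theorem wT_shift (x y : ZMod p → V) :
    wT T k (fun i => x (i + 1)) (fun i => y (i + 1)) = wT T k x y := by
  unfold wT
  congr 1
  exact Equiv.sum_comp (Equiv.addRight (1 : ZMod p)) (fun i => T (x i) (y (i + 1)))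

theorem phT_cast (x : ZMod p → V) :
    ((phT T x : ℤ) : ZMod p) = - ∑ i, i * ((T (x i) (x (i + 1)) : ℤ) : ZMod p) := by
  unfold phT
  push_cast
  congr 1
  apply Finset.sum_congr rfl
  intro i _
  rw [ZMod.natCast_zmod_val]

theorem phT_move {a : ZMod p} (h1 : a - 1 ≠ a) {x y : ZMod p → V}
    (hx : ∑ i, T (x i) (x (i + 1)) = k) (hy : ∑ i, T (y i) (y (i + 1)) = k)
    (hxy : ∀ b, b ≠ a → x b = y b) :
    (p : ℤ) ∣ wT T k x y - (phT T y - phT T x) := by
  rw [← ZMod.intCast_zmod_eq_zero_iff_dvd _ p]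
  have h2 : ∑ i : ZMod p, i * (((T (x i) (x (i + 1)) - T (y i) (y (i + 1)) : ℤ)) : ZMod p) =
      (a - 1) * (((T (x (a - 1)) (x a) - T (y (a - 1)) (y a) : ℤ)) : ZMod p) +
      a * (((T (x a) (x (a + 1)) - T (y a) (y (a + 1)) : ℤ)) : ZMod p) := by
    rw [Finset.sum_eq_add (a - 1) a h1]
    · simp only [sub_add_cancel]
    · rintro i _ ⟨h3, h4⟩
      have h5 : i + 1 ≠ a := fun h => h3 (by rw [← h]; ring)
      rw [hxy _ h4, hxy _ h5, sub_self, Int.cast_zero, mul_zero]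
    · intro h
      exact absurd (Finset.mem_univ _) h
    · intro h
      exact absurd (Finset.mem_univ _) h
  have t1 := tot_move h1 hx hy hxy
  have e6 : x (a - 1) = y (a - 1) := hxy _ h1
  have t2 : T (x a) (x (a + 1)) - T (y a) (y (a + 1)) =
      - (T (x (a - 1)) (x a) - T (y (a - 1)) (y a)) := by linarith
  rw [t2] at h2
  have h3 : ∑ i : ZMod p, i * (((T (x i) (x (i + 1)) - T (y i) (y (i + 1)) : ℤ)) : ZMod p) =
      ∑ i : ZMod p, i * ((T (x i) (x (i + 1)) : ℤ) : ZMod p) -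
      ∑ i : ZMod p, i * ((T (y i) (y (i + 1)) : ℤ) : ZMod p) := by
    rw [← Finset.sum_sub_distrib]
    apply Finset.sum_congr rfl
    intro i _
    push_cast
    ring
  rw [h3] at h2
  rw [wT_move hx hxy]
  push_cast
  rw [phT_cast, phT_cast]
  push_cast at h2
  rw [← e6] at h2
  linear_combination - h2

theorem phT_shift {x : ZMod p → V} (hx : ∑ i, T (x i) (x (i + 1)) = k) :
    (p : ℤ) ∣ phT T (fun i => x (i + 1)) - phT T x - k := by
  rw [← ZMod.intCast_zmod_eq_zero_iff_dvd _ p]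
  push_cast
  rw [phT_cast, phT_cast]
  have h1 : ∑ i : ZMod p, i * ((T (x (i + 1)) (x (i + 1 + 1)) : ℤ) : ZMod p) =
      ∑ i : ZMod p, (i - 1) * ((T (x i) (x (i + 1)) : ℤ) : ZMod p) := by
    rw [← Equiv.sum_comp (Equiv.addRight (1 : ZMod p))
      (fun i : ZMod p => (i - 1) * ((T (x i) (x (i + 1)) : ℤ) : ZMod p))]
    apply Finset.sum_congr rfl
    intro i _
    simp
  rw [h1]
  have h2 : ((k : ℤ) : ZMod p) = ∑ i : ZMod p, ((T (x i) (x (i + 1)) : ℤ) : ZMod p) := by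
    rw [← hx]
    push_cast
    rfl
  rw [h2]
  simp only [sub_mul, one_mul, Finset.sum_sub_distrib]
  ring

end

section

open Pool.Agent.W994.AR

theorem bool3 : ∀ d : ZMod 3 → Bool, (∃ i i', d i ≠ d i') →
    ∑ i : ZMod 3, (if d i = true ∧ d (i + 1) = false then (1 : ℤ) else 0) = 1 := by
  decide

/-- the cyclic shift of a tuple of elements of `A ^ n` -/
def shift {A : Type} {p n : ℕ} (x : ZMod p × Fin n → A) : ZMod p × Fin n → A :=
  fun z => x (z.1 + 1, z.2)

/-- `x` and `y` belong to `R` and differ in at most one position -/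
def OneStep {A : Type} {p n : ℕ} (R : Set (ZMod p × Fin n → A)) (x y : ZMod p × Fin n → A) : Prop :=
  x ∈ R ∧ y ∈ R ∧ ∃ a : ZMod p, ∀ b, b ≠ a → ∀ j, x (b, j) = y (b, j)

theorem cyclic_k3 {A ι : Type} [Countable A] [Finite ι] {ar : ι → ℕ} (𝔸 : Str ι ar A)
    (hO : Oligo 𝔸) (p : ℕ) [NeZero p] (hp : 3 ≤ p) (n : ℕ) (R : Set (ZMod p × Fin n → A))
    (hR : PPDef 𝔸 R)
    (hcyc : ∀ x ∈ R, shift x ∈ R) (ht : ∃ t ∈ R, Relation.ReflTransGen (OneStep R) t (shift t))
    (T : (Fin n → A) → (Fin n → A) → ℤ) (B k : ℤ) (hB : ∀ a b, |T a b| ≤ B) (hk : ¬ (p : ℤ) ∣ k)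
    (hT' : ∀ x ∈ R, ∑ i : ZMod p, T (fun j => x (i, j)) (fun j => x (i + 1, j)) = k) :
    PPConstructsK3 𝔸 := by
  classical
  obtain ⟨t, htR, hreach⟩ := ht
  have h1 : ∀ c : ZMod p, c - 1 ≠ c := by
    intro c h
    have h3 : (1 : ZMod p) = 0 := by linear_combination - h
    have h4 : ((1 : ℕ) : ZMod p) = 0 := by exact_mod_cast h3
    rw [ZMod.natCast_eq_zero_iff] at h4
    have := Nat.le_of_dvd Nat.one_pos h4
    omega
  have h2 : ∀ c : ZMod p, c - 1 ≠ c + 1 := by
    intro c h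
    have h3 : (2 : ZMod p) = 0 := by linear_combination - h
    have h4 : ((2 : ℕ) : ZMod p) = 0 := by exact_mod_cast h3
    rw [ZMod.natCast_eq_zero_iff] at h4
    have := Nat.le_of_dvd Nat.two_pos h4
    omega
  let cu : (ZMod p × Fin n → A) → ZMod p → Fin n → A := fun x i j => x (i, j)
  have hrow : ∀ {a : ZMod p} {x y : ZMod p × Fin n → A}, Mov R a x y →
      ∀ b, b ≠ a → cu x b = cu y b :=
    fun h b hb => funext (h.2.2 b hb)
  refine mainCyc (B := 2 * B) hO R hR hcyc htR ?_ (w := fun x y => wT T k (cu x) (cu y)) ?_ ?_ ?_ ?_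
    (φ := fun x => phT T (cu x)) (k := k) ?_ ?_ hk
  · have key : ∀ y, Relation.ReflTransGen (OneStep R) t y → Rch (Mov R) t y := by
      intro y hy
      induction hy with
      | refl => exact Relation.ReflTransGen.refl
      | tail _ hbc ih =>
        obtain ⟨h3, h4, a, h5⟩ := hbc
        exact Relation.ReflTransGen.tail ih ⟨a, h3, h4, h5⟩
    exact key _ hreach
  · intro a x y z h h'
    exact wT_line (h1 a) (hT' x h.1) (hT' y h.2.1) (hrow h) (hrow h')
  · intro a b x y z u h3 h4 h5 h6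
    exact wT_square h1 h2 (hT' x h3.1) (hT' y h3.2.1) (hT' z h4.2.1) (hT' u h5.2.1)
      (hrow h3) (hrow h4) (hrow h5) (hrow h6)
  · intro a x y h
    show |wT T k (cu x) (cu y)| ≤ 2 * B
    rw [wT_move (hT' x h.1) (hrow h)]
    refine (abs_sub _ _).trans ?_
    have h3 := hB (cu x (a - 1)) (cu y a)
    have h4 := hB (cu x (a - 1)) (cu x a)
    linarith
  · intro a x y h
    exact wT_shift (cu x) (cu y)
  · intro a x y h
    exact phT_move (h1 a) (hT' x h.1) (hT' y h.2.1) (hrow h)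
  · intro x hx
    exact phT_shift (x := cu x) (hT' x hx)

end

end Pool.Agent.Q112.BP
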