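import Pool.Agent.W994.AR.Hom

/-!
Definitions: winding functions, walks, omega-categorical structures.
-/

set_option autoImplicit false

namespace Pool.Agent.Q112.BP

open Pool.Agent.W994.AR

/-- A winding function on the graph `E`: odd integers on the edges, antisymmetric, bounded, with sum
zero along every closed walk of length four. -/
structure Winding {V : Type} (E : V → V → Prop) (δ : V → V → ℤ) (B : ℤ) : Prop where
  anti : ∀ x y, E x y → δ y x = - δ x y
  odd : ∀ x y, E x y → Odd (δ x y)
  bdd : ∀ x y, E x y → |δ x y| ≤ B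
  sq : ∀ a b c d, E a b → E b c → E c d → E d a → δ a b + δ b c + δ c d + δ d a = 0

/-- The graph `E` has a winding function: a bounded antisymmetric function with odd integer values
on the edges whose sum along every closed walk of length four is zero. -/
def HasWinding {V : Type} (E : V → V → Prop) : Prop := ∃ δ B, Winding E δ B

/-- a walk of length `n` from `x` to `y` -/
def Walk {Q : Type} (R : Q → Q → Prop) (n : ℕ) (x y : Q) : Prop :=
  ∃ w : ℕ → Q, w 0 = x ∧ w n = y ∧ ∀ t < n, R (w t) (w (t + 1))

/-- `Aut(𝔸)` has finitely many orbits on `A ^ k` for every `k`: for countable `A` this says that `𝔸`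
is omega-categorical. -/
def Oligo {A ι : Type} {ar : ι → ℕ} (𝔸 : Str ι ar A) : Prop :=
  ∀ k : ℕ, ∃ F : Set (Fin k → A), F.Finite ∧ ∀ v : Fin k → A, ∃ w ∈ F, ∃ g ∈ autGroup 𝔸,
    ∀ j, g (v j) = w j

end Pool.Agent.Q112.BP
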