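import Pool.Agent.Q112.BP.Flat

/-!
Degrees of polymorphisms in their coordinates.
-/

set_option autoImplicit false

namespace Pool.Agent.Q112.BP

open Finset Function

variable {V : Type} {E : V → V → Prop} {δ : V → V → ℤ} {B : ℤ}

/-- polymorphism of the graph `E` -/
def PolG (E : V → V → Prop) {ι : Type} (f : (ι → V) → V) : Prop :=
  ∀ x y : ι → V, (∀ i, E (x i) (y i)) → E (f x) (f y)

theorem PolG.slot {ι : Type} [DecidableEq ι] {f : (ι → V) → V} (hf : PolG E f) (i : ι) (p p' : V)
    (q q' : ι → V) (hp : E p p') (hq : ∀ j, E (q j) (q' j)) :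
    E (f (update q i p)) (f (update q' i p')) := by
  apply hf
  intro j
  by_cases hj : j = i
  · subst hj
    simpa using hp
  · simpa [hj] using hq j

theorem T_const (h : Winding E δ B) {M : ℕ} [NeZero M] {a b : V} (hab : E a b) :
    T δ (fun _ : ZMod M => a) (fun _ => b) = 0 := by
  unfold T
  apply Finset.sum_eq_zero
  intro s _
  rw [h.anti a b hab]
  ring

/-- additivity in all coordinates -/
theorem T_sum (h : Winding E δ B) (hs : ∀ x y, E x y → E y x) (hC : Conn E) {ι : Type} [Fintype ι]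
    [DecidableEq ι] {f : (ι → V) → V} (hf : PolG E f) {M : ℕ} [NeZero M] (X Y : ZMod M → ι → V)
    (h1 : ∀ s i, E (X s i) (Y s i)) (h2 : ∀ s i, E (X (s + 1) i) (Y s i)) (c c' : ι → V)
    (hc : ∀ i, E (c i) (c' i)) :
    T δ (fun s => f (X s)) (fun s => f (Y s)) =
      ∑ i, T δ (fun s => f (update c i (X s i))) (fun s => f (update c' i (Y s i))) := by
  have hQs : ∀ x y : ι → V, (∀ i, E (x i) (y i)) → ∀ i, E (y i) (x i) :=
    fun x y hxy i => hs _ _ (hxy i)
  have hCQ : Conn (fun x y : ι → V => ∀ i, E (x i) (y i)) := hC.pi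
  have key : ∀ S : Finset ι, T δ (fun s => f (S.piecewise (X s) c))
      (fun s => f (S.piecewise (Y s) c')) =
      ∑ i ∈ S, T δ (fun s => f (update c i (X s i))) (fun s => f (update c' i (Y s i))) := by
    intro S
    induction S using Finset.induction_on with
    | empty =>
      simp only [Finset.piecewise_empty, Finset.sum_empty]
      exact T_const h (hf _ _ hc)
    | insert i S hi ih =>
      rw [Finset.sum_insert hi, ← ih]
      have e1 : ∀ s, (insert i S).piecewise (X s) c = update (S.piecewise (X s) c) i (X s i) :=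
        fun s => Finset.piecewise_insert _ _ _ _
      have e2 : ∀ s, (insert i S).piecewise (Y s) c' = update (S.piecewise (Y s) c') i (Y s i) :=
        fun s => Finset.piecewise_insert _ _ _ _
      have hu : ∀ s j, E (S.piecewise (X s) c j) (S.piecewise (Y s) c' j) := by
        intro s j
        by_cases hj : j ∈ S
        · simpa [Finset.piecewise, hj] using h1 s j
        · simpa [Finset.piecewise, hj] using hc j
      have hu2 : ∀ s j, E (S.piecewise (X (s + 1)) c j) (S.piecewise (Y s) c' j) := by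
        intro s j
        by_cases hj : j ∈ S
        · simpa [Finset.piecewise, hj] using h2 s j
        · simpa [Finset.piecewise, hj] using hc j
      have hadd := T_add h hs (EP := E) (EQ := fun x y : ι → V => ∀ i, E (x i) (y i))
        (g := fun p q => f (update q i p)) hs hQs (fun p p' q q' hp hq => hf.slot i p p' q q' hp hq)
        (fun s => X s i) (fun s => Y s i) (fun s => h1 s i) (fun s => h2 s i)
        (fun s => S.piecewise (X s) c) (fun s => S.piecewise (Y s) c') hu hu2
      have hb1 := T_base h hs (EP := E) (EQ := fun x y : ι → V => ∀ i, E (x i) (y i))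
        (g := fun p q => f (update q i p)) hs hQs (fun p p' q q' hp hq => hf.slot i p p' q q' hp hq)
        hCQ (hu 0) hc (fun s => X s i) (fun s => Y s i) (fun s => h1 s i) (fun s => h2 s i)
      have hb2 := T_base h hs (EP := fun x y : ι → V => ∀ i, E (x i) (y i)) (EQ := E)
        (g := fun q p => f (update q i p)) hQs hs (fun q q' p p' hq hp => hf.slot i p p' q q' hp hq)
        hC (h1 0 i) (hc i) (fun s => S.piecewise (X s) c) (fun s => S.piecewise (Y s) c') hu hu2
      have e3 : ∀ s, update (S.piecewise (X s) c) i (c i) = S.piecewise (X s) c := by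
        intro s
        rw [Function.update_eq_self_iff]
        simp [Finset.piecewise, hi]
      have e4 : ∀ s, update (S.piecewise (Y s) c') i (c' i) = S.piecewise (Y s) c' := by
        intro s
        rw [Function.update_eq_self_iff]
        simp [Finset.piecewise, hi]
      simp only [e1, e2]
      simp only [e3, e4] at hb2
      rw [hadd, hb1, hb2]
  have h3 := key Finset.univ
  simpa [Finset.piecewise_univ] using h3

/-- the sum along a closed walk of odd length, run through twice -/
def AA {M : ℕ} [NeZero M] {P : Type} (δ : V → V → ℤ) (F F' : P → V) (γ : ZMod M → P) : ℤ :=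
  ∑ u, (δ (F (γ u)) (F' (γ (u + 1))) + δ (F' (γ u)) (F (γ (u + 1))))

theorem dbl_bij {M : ℕ} [NeZero M] (hM : Odd M) : Bijective (fun s : ZMod M => 2 * s) := by
  obtain ⟨k, hk⟩ := hM
  have hkey : ∀ a : ZMod M, ((k : ZMod M) + 1) * (2 * a) = a := by
    intro a
    have h0 : ((2 * k + 1 : ℕ) : ZMod M) = 0 := by
      rw [← hk]
      exact ZMod.natCast_self M
    push_cast at h0
    calc ((k : ZMod M) + 1) * (2 * a) = (2 * k + 1) * a + a := by ring
      _ = a := by rw [h0]; ring
  apply Finite.injective_iff_bijective.1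
  intro a b hab
  simp only at hab
  rw [← hkey a, ← hkey b, hab]

theorem T_dbl {M : ℕ} [NeZero M] (hM : Odd M) {P : Type} (δ : V → V → ℤ) (F F' : P → V)
    (γ : ZMod M → P) :
    T δ (fun s => F (γ (2 * s))) (fun s => F' (γ (2 * s + 1))) = AA δ F F' γ := by
  unfold T AA
  rw [Finset.sum_add_distrib, Finset.sum_add_distrib]
  congr 1
  · exact (dbl_bij hM).sum_comp (fun u => δ (F (γ u)) (F' (γ (u + 1))))
  · have e1 : ∑ s : ZMod M, δ (F' (γ (2 * s + 1))) (F (γ (2 * (s + 1)))) =
        ∑ s : ZMod M, (fun u => δ (F' (γ (u + 1))) (F (γ (u + 1 + 1)))) (2 * s) := by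
      apply Finset.sum_congr rfl
      intro s _
      simp only
      congr 3
      ring
    rw [e1, (dbl_bij hM).sum_comp (fun u => δ (F' (γ (u + 1))) (F (γ (u + 1 + 1))))]
    exact sum_shift (fun u => δ (F' (γ u)) (F (γ (u + 1))))

theorem AA_rev (h : Winding E δ B) {M : ℕ} [NeZero M] {P : Type} (F F' : P → V) (γ : ZMod M → P)
    (h1 : ∀ u, E (F (γ u)) (F' (γ (u + 1)))) (h2 : ∀ u, E (F' (γ u)) (F (γ (u + 1)))) :
    AA δ F F' (fun u => γ (-u)) = - AA δ F F' γ := by
  unfold AA
  rw [← Finset.sum_neg_distrib]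
  have e1 := Equiv.sum_comp (Equiv.subLeft (-1 : ZMod M)) (fun u : ZMod M =>
    (δ (F (γ (-u))) (F' (γ (-(u + 1)))) + δ (F' (γ (-u))) (F (γ (-(u + 1))))))
  rw [← e1]
  apply Finset.sum_congr rfl
  intro u _
  have e2 : -((Equiv.subLeft (-1 : ZMod M)) u) = u + 1 := by
    simp only [Equiv.subLeft_apply]
    ring
  have e3 : -((Equiv.subLeft (-1 : ZMod M)) u + 1) = u := by
    simp only [Equiv.subLeft_apply]
    ring
  simp only [e2, e3]
  rw [h.anti _ _ (h1 u), h.anti _ _ (h2 u)]
  ring

section parity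

variable {P Q : Type} {EP : P → P → Prop} {EQ : Q → Q → Prop} {g : P → Q → V}

theorem parity_aux (h : Winding E δ B) (hs : ∀ x y, E x y → E y x)
    (hPs : ∀ x y, EP x y → EP y x) (hQs : ∀ x y, EQ x y → EQ y x)
    (hg : ∀ p p' q q', EP p p' → EQ q q' → E (g p q) (g p' q')) (hC : Conn EQ) (hCP : Conn EP)
    {c c' : Q} (hc : EQ c c') {M : ℕ} [NeZero M] (γ γ' : ZMod M → P)
    (hγ : ∀ u, EP (γ u) (γ (u + 1))) (hγ' : ∀ u, EP (γ' u) (γ' (u + 1))) :
    (4 : ℤ) ∣ AA δ (fun p => g p c) (fun p => g p c') γ -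
      AA δ (fun p => g p c) (fun p => g p c') γ' := by
  obtain ⟨r, s, hrs⟩ := base_change h hs hPs hQs hg hC (hQs _ _ hc) hc
  -- r and s
  have k1 : ∀ p p', EP p p' → r p + s p' = r p' + s p := by
    intro p p' hp
    have e1 := hrs p p' hp
    have e2 := hrs p' p (hPs _ _ hp)
    have e3 := h.anti _ _ (hg p' p c c' (hPs _ _ hp) hc)
    have e4 := h.anti _ _ (hg p p' c c' hp hc)
    linarith
  have k2 : ∀ p p', EP p p' → (2 : ℤ) ∣ r p + s p' := by
    intro p p' hp
    obtain ⟨a, ha⟩ := h.odd _ _ (hg p p' c' c hp (hQs _ _ hc))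
    obtain ⟨b, hb⟩ := h.odd _ _ (hg p p' c c' hp hc)
    refine ⟨a - b, ?_⟩
    rw [← hrs p p' hp, ha, hb]
    ring
  have kc : ∀ p q, s p - r p = s q - r q := by
    intro p q
    obtain ⟨n0, hn0⟩ := hCP p q
    obtain ⟨w, w0, wn, hw⟩ := hn0 n0 le_rfl
    have key : ∀ t, t ≤ n0 → s (w t) - r (w t) = s p - r p := by
      intro t
      induction t with
      | zero => intro _; rw [w0]
      | succ t ih =>
        intro ht
        rw [← ih (by omega)]
        have := k1 _ _ (hw t (by omega))
        linarith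
    rw [← key n0 le_rfl, wn]
  have kr : ∀ p q, (2 : ℤ) ∣ r p - r q := by
    intro p q
    obtain ⟨n0, hn0⟩ := hCP p q
    obtain ⟨w, w0, wn, hw⟩ := hn0 (2 * n0) (by omega)
    have key : ∀ t, t ≤ 2 * n0 → (2 : ℤ) ∣ r p - r (w t) + t * (s p - r p) := by
      intro t
      induction t with
      | zero => intro _; rw [w0]; simp
      | succ t ih =>
        intro ht
        have h3 := ih (by omega)
        have h4 := k2 _ _ (hw t (by omega))
        have h5 := kc (w (t + 1)) p
        obtain ⟨a, ha⟩ := h3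
        obtain ⟨b, hb⟩ := h4
        refine ⟨a + b - r (w (t + 1)), ?_⟩
        push_cast
        have h6 : s (w (t + 1)) = r (w (t + 1)) + (s p - r p) := by linarith
        rw [h6] at hb
        linarith
    have h7 := key (2 * n0) le_rfl
    rw [wn] at h7
    obtain ⟨a, ha⟩ := h7
    refine ⟨a - n0 * (s p - r p), ?_⟩
    push_cast at ha
    linarith
  have krs : ∀ p q, (4 : ℤ) ∣ (r p + s p) - (r q + s q) := by
    intro p q
    obtain ⟨a, ha⟩ := kr p q
    refine ⟨a, ?_⟩
    have := kc p q
    linarith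
  -- the sums
  have hAA : ∀ γ : ZMod M → P, (∀ u, EP (γ u) (γ (u + 1))) →
      ∃ a : ℤ, AA δ (fun p => g p c) (fun p => g p c') γ =
        2 * (2 * a + M) + ∑ u, (r (γ u) + s (γ u)) := by
    intro γ hγ
    have hodd := fun u => h.odd _ _ (hg _ _ c c' (hγ u) hc)
    choose a ha using hodd
    refine ⟨∑ u, a u, ?_⟩
    have e1 : AA δ (fun p => g p c) (fun p => g p c') γ =
        ∑ u, (2 * (2 * a u + 1) + r (γ u) + s (γ (u + 1))) := by
      unfold AA
      apply Finset.sum_congr rfl
      intro u _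
      have e2 := hrs _ _ (hγ u)
      have e3 := ha u
      linarith
    rw [e1, Finset.sum_add_distrib, Finset.sum_add_distrib, Finset.sum_add_distrib,
      sum_shift (fun u => s (γ u))]
    have hM : (Finset.univ : Finset (ZMod M)).card = M := by
      rw [Finset.card_univ, ZMod.card]
    have e4 : ∑ u : ZMod M, 2 * (2 * a u + 1) = 2 * (2 * ∑ u, a u + M) := by
      rw [← Finset.mul_sum, Finset.sum_add_distrib, ← Finset.mul_sum, Finset.sum_const, hM]
      simp
    rw [e4]
    ring
  obtain ⟨a, ha⟩ := hAA γ hγ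
  obtain ⟨a', ha'⟩ := hAA γ' hγ'
  have hd : (4 : ℤ) ∣ ∑ u, ((r (γ u) + s (γ u)) - (r (γ' u) + s (γ' u))) :=
    Finset.dvd_sum (fun u _ => krs _ _)
  rw [Finset.sum_sub_distrib] at hd
  obtain ⟨b, hb⟩ := hd
  refine ⟨a - a' + b, ?_⟩
  rw [ha, ha']
  linarith

theorem parity (h : Winding E δ B) (hs : ∀ x y, E x y → E y x)
    (hPs : ∀ x y, EP x y → EP y x) (hQs : ∀ x y, EQ x y → EQ y x)
    (hg : ∀ p p' q q', EP p p' → EQ q q' → E (g p q) (g p' q')) (hC : Conn EQ) (hCP : Conn EP)
    {c c' d d' : Q} (hc : EQ c c') (hd : EQ d d') {M : ℕ} [NeZero M] (hM : Odd M)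
    (γ γ' : ZMod M → P) (hγ : ∀ u, EP (γ u) (γ (u + 1))) (hγ' : ∀ u, EP (γ' u) (γ' (u + 1))) :
    (4 : ℤ) ∣ AA δ (fun p => g p c) (fun p => g p c') γ -
      AA δ (fun p => g p d) (fun p => g p d') γ' := by
  have e1 : AA δ (fun p => g p d) (fun p => g p d') γ' =
      AA δ (fun p => g p c) (fun p => g p c') γ' := by
    rw [← T_dbl hM, ← T_dbl hM]
    refine T_base h hs hPs hQs hg hC hd hc (fun s => γ' (2 * s)) (fun s => γ' (2 * s + 1))
      (fun s => hγ' _) (fun s => ?_)
    have e2 : (2 * (s + 1) : ZMod M) = 2 * s + 1 + 1 := by ring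
    simp only [e2]
    exact hPs _ _ (hγ' _)
  rw [e1]
  exact parity_aux h hs hPs hQs hg hC hCP hc γ γ' hγ hγ'

end parity

end Pool.Agent.Q112.BP
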