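import Pool.Agent.Q112.BP.Defs

/-!
Winding functions on graphs, closed sums, base change and additivity.
-/

set_option autoImplicit false

namespace Pool.Agent.Q112.BP

open Finset Function

variable {V : Type} {E : V → V → Prop} {δ : V → V → ℤ} {B : ℤ}

theorem Winding.mid (h : Winding E δ B) (hs : ∀ x y, E x y → E y x) {a c m m' : V} (h1 : E a m)
    (h2 : E m c) (h3 : E a m') (h4 : E m' c) : δ a m + δ m c = δ a m' + δ m' c := by
  have h5 := h.sq a m c m' h1 h2 (hs _ _ h4) (hs _ _ h3)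
  have e1 := h.anti m' c h4
  have e2 := h.anti a m' h3
  linarith

/-- walks of all large lengths between any two vertices -/
def Conn {Q : Type} (R : Q → Q → Prop) : Prop := ∀ x y : Q, ∃ n0 : ℕ, ∀ n, n0 ≤ n → Walk R n x y

theorem Conn.pi {Q ι : Type} [Finite ι] {R : Q → Q → Prop} (h : Conn R) :
    Conn (fun x y : ι → Q => ∀ i, R (x i) (y i)) := by
  classical
  have := Fintype.ofFinite ι
  intro x y
  choose n0 hn0 using fun i => h (x i) (y i)
  refine ⟨∑ i, n0 i, fun n hn => ?_⟩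
  have hw := fun i => hn0 i n (le_trans (Finset.single_le_sum (f := n0) (fun _ _ => Nat.zero_le _)
    (Finset.mem_univ i)) hn)
  choose w hw0 hwn hw using hw
  exact ⟨fun t i => w i t, funext hw0, funext hwn, fun t ht i => hw i t ht⟩

section twofactor

variable {P Q : Type} {EP : P → P → Prop} {EQ : Q → Q → Prop} {g : P → Q → V}

theorem base_step0 (h : Winding E δ B) (hs : ∀ x y, E x y → E y x)
    (hPs : ∀ x y, EP x y → EP y x) (hQs : ∀ x y, EQ x y → EQ y x)
    (hg : ∀ p p' q q', EP p p' → EQ q q' → E (g p q) (g p' q')) {q0 q1 q2 : Q}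
    (h01 : EQ q0 q1) (h21 : EQ q2 q1) :
    ∃ r : P → ℤ, ∀ p p', EP p p' →
      δ (g p q0) (g p' q1) - δ (g p q2) (g p' q1) = r p := by
  classical
  refine ⟨fun p => if h' : ∃ p', EP p p' then
    δ (g p q0) (g h'.choose q1) - δ (g p q2) (g h'.choose q1) else 0, ?_⟩
  intro p p' hp
  have hex : ∃ p', EP p p' := ⟨p', hp⟩
  simp only [dif_pos hex]
  set p'' := hex.choose with hp''
  have hpp : EP p p'' := hex.choose_spec
  have e1 := h.mid hs (hg p p' q0 q1 hp h01) (hg p' p q1 q2 (hPs _ _ hp) (hQs _ _ h21))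
    (hg p p'' q0 q1 hpp h01) (hg p'' p q1 q2 (hPs _ _ hpp) (hQs _ _ h21))
  have e2 := h.anti _ _ (hg p p' q2 q1 hp h21)
  have e3 := h.anti _ _ (hg p p'' q2 q1 hpp h21)
  linarith

theorem base_step1 (h : Winding E δ B) (hs : ∀ x y, E x y → E y x)
    (hPs : ∀ x y, EP x y → EP y x) (hQs : ∀ x y, EQ x y → EQ y x)
    (hg : ∀ p p' q q', EP p p' → EQ q q' → E (g p q) (g p' q')) {q1 q2 q3 : Q}
    (h21 : EQ q2 q1) (h23 : EQ q2 q3) :
    ∃ r : P → ℤ, ∀ p p', EP p p' →
      δ (g p q2) (g p' q1) - δ (g p q2) (g p' q3) = r p' := by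
  classical
  refine ⟨fun p' => if h' : ∃ p, EP p p' then
    δ (g h'.choose q2) (g p' q1) - δ (g h'.choose q2) (g p' q3) else 0, ?_⟩
  intro p p' hp
  have hex : ∃ p, EP p p' := ⟨p, hp⟩
  simp only [dif_pos hex]
  set p'' := hex.choose with hp''
  have hpp : EP p'' p' := hex.choose_spec
  have e1 := h.mid hs (hg p' p q3 q2 (hPs _ _ hp) (hQs _ _ h23)) (hg p p' q2 q1 hp h21)
    (hg p' p'' q3 q2 (hPs _ _ hpp) (hQs _ _ h23)) (hg p'' p' q2 q1 hpp h21)
  have e2 := h.anti _ _ (hg p p' q2 q3 hp h23)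
  have e3 := h.anti _ _ (hg p'' p' q2 q3 hpp h23)
  linarith

/-- base change changes the pulled back function by a coboundary -/
theorem base_change (h : Winding E δ B) (hs : ∀ x y, E x y → E y x)
    (hPs : ∀ x y, EP x y → EP y x) (hQs : ∀ x y, EQ x y → EQ y x)
    (hg : ∀ p p' q q', EP p p' → EQ q q' → E (g p q) (g p' q')) (hC : Conn EQ) {c c' d d' : Q}
    (hc : EQ c c') (hd : EQ d d') :
    ∃ r s : P → ℤ, ∀ p p', EP p p' →
      δ (g p c) (g p' c') - δ (g p d) (g p' d') = r p + s p' := by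
  obtain ⟨n0, hn0⟩ := hC c' d
  obtain ⟨w', hw0, hwn, hw'⟩ := hn0 (2 * n0 + 1) (by omega)
  -- the walk c, c', ..., d, d'
  let w : ℕ → Q := fun t => if t = 0 then c else if t = 2 * n0 + 3 then d' else w' (t - 1)
  have w0 : w 0 = c := by simp [w]
  have w1 : w 1 = c' := by simp [w, hw0]
  have wd : w (2 * (n0 + 1)) = d := by
    have : w (2 * (n0 + 1)) = w' (2 * (n0 + 1) - 1) := by
      simp only [w]
      rw [if_neg (by omega), if_neg (by omega)]
    rw [this, ← hwn]
    congr 1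
  have wd' : w (2 * (n0 + 1) + 1) = d' := by
    simp only [w]
    rw [if_neg (by omega), if_pos (by omega)]
  have hw : ∀ t, t < 2 * n0 + 3 → EQ (w t) (w (t + 1)) := by
    intro t ht
    rcases Nat.eq_zero_or_pos t with rfl | ht0
    · rw [w0, w1]
      exact hc
    · rcases Nat.lt_or_ge t (2 * n0 + 2) with h1 | h1
      · have e1 : w t = w' (t - 1) := by
          simp only [w]
          rw [if_neg (by omega), if_neg (by omega)]
        have e2 : w (t + 1) = w' (t - 1 + 1) := by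
          simp only [w]
          rw [if_neg (by omega), if_neg (by omega)]
          congr 1
          omega
        rw [e1, e2]
        exact hw' (t - 1) (by omega)
      · have ht2 : t = 2 * (n0 + 1) := by omega
        subst ht2
        rw [wd, wd']
        exact hd
  have key : ∀ m, 2 * m + 1 ≤ 2 * n0 + 3 → ∃ r s : P → ℤ, ∀ p p', EP p p' →
      δ (g p (w 0)) (g p' (w 1)) - δ (g p (w (2 * m))) (g p' (w (2 * m + 1))) = r p + s p' := by
    intro m
    induction m with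
    | zero =>
      intro _
      exact ⟨0, 0, fun p p' _ => by simp⟩
    | succ m ih =>
      intro hm
      obtain ⟨r, s, hrs⟩ := ih (by omega)
      have a1 : EQ (w (2 * m)) (w (2 * m + 1)) := hw _ (by omega)
      have a2 : EQ (w (2 * m + 1)) (w (2 * m + 2)) := hw _ (by omega)
      have a3 : EQ (w (2 * m + 2)) (w (2 * m + 3)) := hw _ (by omega)
      obtain ⟨r1, hr1⟩ := base_step0 h hs hPs hQs hg a1 (hQs _ _ a2)
      obtain ⟨s1, hs1⟩ := base_step1 h hs hPs hQs hg (hQs _ _ a2) a3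
      refine ⟨r + r1, s + s1, fun p p' hp => ?_⟩
      have e1 := hrs p p' hp
      have e2 := hr1 p p' hp
      have e3 := hs1 p p' hp
      have e4 : 2 * (m + 1) = 2 * m + 2 := by ring
      rw [e4]
      simp only [Pi.add_apply]
      linarith
  have hfin := key (n0 + 1) (by omega)
  rw [w0, w1, wd, wd'] at hfin
  exact hfin

variable {M : ℕ} [NeZero M]

/-- the sum along the closed walk `x 0, y 0, x 1, y 1, …` -/
def T {M : ℕ} [NeZero M] (δ : V → V → ℤ) (x y : ZMod M → V) : ℤ :=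
  ∑ s, (δ (x s) (y s) + δ (y s) (x (s + 1)))

theorem sum_shift {M : ℕ} [NeZero M] (f : ZMod M → ℤ) : ∑ s, f (s + 1) = ∑ s, f s :=
  Equiv.sum_comp (Equiv.addRight (1 : ZMod M)) f

theorem const_of_shift {M : ℕ} [NeZero M] (f : ZMod M → ℤ) (h : ∀ s, f (s + 1) = f s)
    (s : ZMod M) : f s = f 0 := by
  have key : ∀ n : ℕ, f (n : ZMod M) = f 0 := by
    intro n
    induction n with
    | zero => simp
    | succ n ih =>
      rw [← ih]
      push_cast
      exact h _
  have h1 := key s.val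
  rwa [ZMod.natCast_zmod_val] at h1

theorem torus {M : ℕ} [NeZero M] (Hh Vv Dd : ZMod M → ZMod M → ℤ)
    (f1 : ∀ s r, Hh s r + Vv (s + 1) r = Dd s r) (f2 : ∀ s r, Vv s r + Hh s (r + 1) = Dd s r) :
    ∑ s, Dd s s = ∑ s, Hh s 0 + ∑ r, Vv 0 r := by
  have hrow : ∀ r, ∑ s, Hh s r = ∑ s, Hh s 0 := by
    apply const_of_shift (fun r => ∑ s, Hh s r)
    intro r
    have h3 : ∑ s, (Hh s r + Vv (s + 1) r) = ∑ s, (Vv s r + Hh s (r + 1)) :=
      Finset.sum_congr rfl (fun s _ => (f1 s r).trans (f2 s r).symm)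
    rw [Finset.sum_add_distrib, Finset.sum_add_distrib, sum_shift (fun s => Vv s r)] at h3
    linarith
  have hcol : ∀ s, ∑ r, Vv s r = ∑ r, Vv 0 r := by
    apply const_of_shift (fun s => ∑ r, Vv s r)
    intro s
    have h3 : ∑ r, (Hh s r + Vv (s + 1) r) = ∑ r, (Vv s r + Hh s (r + 1)) :=
      Finset.sum_congr rfl (fun r _ => (f1 s r).trans (f2 s r).symm)
    rw [Finset.sum_add_distrib, Finset.sum_add_distrib, sum_shift (fun r => Hh s r)] at h3
    linarith
  -- diagonals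
  have hdiag : ∀ k, ∑ s, Dd s (s + k) = ∑ s, Dd s (s + 0) := by
    apply const_of_shift (fun k => ∑ s, Dd s (s + k))
    intro k
    have h3 : ∑ s, Dd s (s + (k + 1)) = ∑ s, (Hh s (s + (k + 1)) + Vv (s + 1) (s + 1 + k)) := by
      apply Finset.sum_congr rfl
      intro s _
      rw [← f1 s (s + (k + 1))]
      congr 2
      ring
    have h4 : ∑ s, Dd s (s + k) = ∑ s, (Vv s (s + k) + Hh s (s + (k + 1))) := by
      apply Finset.sum_congr rfl
      intro s _
      rw [← f2 s (s + k)]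
      congr 2
      ring
    rw [h3, h4, Finset.sum_add_distrib, Finset.sum_add_distrib,
      sum_shift (fun s => Vv s (s + k))]
    ring
  have htot : ∑ k, ∑ s, Dd s (s + k) = ∑ s, ∑ r, Dd s r := by
    rw [Finset.sum_comm]
    apply Finset.sum_congr rfl
    intro s _
    exact Equiv.sum_comp (Equiv.addLeft s) (fun r => Dd s r)
  have hM : (Finset.univ : Finset (ZMod M)).card = M := by
    rw [Finset.card_univ, ZMod.card]
  have hsum1 : ∑ k : ZMod M, ∑ s, Dd s (s + k) = M * ∑ s, Dd s (s + 0) := by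
    rw [Finset.sum_congr rfl (fun k _ => hdiag k), Finset.sum_const, hM, nsmul_eq_mul]
  have hsum2 : ∑ s, ∑ r, Dd s r = M * ∑ s, Hh s 0 + M * ∑ r, Vv 0 r := by
    have h3 : ∀ s, ∑ r, Dd s r = ∑ r, Hh s r + ∑ r, Vv (s + 1) r := by
      intro s
      rw [← Finset.sum_add_distrib]
      exact Finset.sum_congr rfl (fun r _ => (f1 s r).symm)
    rw [Finset.sum_congr rfl (fun s _ => h3 s), Finset.sum_add_distrib]
    congr 1
    · rw [Finset.sum_comm, Finset.sum_congr rfl (fun r _ => hrow r), Finset.sum_const, hM,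
        nsmul_eq_mul]
    · rw [Finset.sum_congr rfl (fun s _ => hcol (s + 1)), Finset.sum_const, hM, nsmul_eq_mul]
  have hfin : (M : ℤ) * ∑ s, Dd s (s + 0) = M * (∑ s, Hh s 0 + ∑ r, Vv 0 r) := by
    rw [← hsum1, htot, hsum2]
    ring
  have hM0 : (M : ℤ) ≠ 0 := by exact_mod_cast NeZero.ne M
  have hfin' := mul_left_cancel₀ hM0 hfin
  simp only [add_zero] at hfin'
  exact hfin'

theorem T_base (h : Winding E δ B) (hs : ∀ x y, E x y → E y x)
    (hPs : ∀ x y, EP x y → EP y x) (hQs : ∀ x y, EQ x y → EQ y x)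
    (hg : ∀ p p' q q', EP p p' → EQ q q' → E (g p q) (g p' q')) (hC : Conn EQ) {c c' d d' : Q}
    (hc : EQ c c') (hd : EQ d d') (x y : ZMod M → P) (h1 : ∀ s, EP (x s) (y s))
    (h2 : ∀ s, EP (x (s + 1)) (y s)) :
    T δ (fun s => g (x s) c) (fun s => g (y s) c') =
      T δ (fun s => g (x s) d) (fun s => g (y s) d') := by
  obtain ⟨r, s, hrs⟩ := base_change h hs hPs hQs hg hC hc hd
  unfold T
  have key : ∀ u : ZMod M, (δ (g (x u) c) (g (y u) c') + δ (g (y u) c') (g (x (u + 1)) c)) -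
      (δ (g (x u) d) (g (y u) d') + δ (g (y u) d') (g (x (u + 1)) d)) = r (x u) - r (x (u + 1)) := by
    intro u
    have e1 := hrs _ _ (h1 u)
    have e2 := hrs _ _ (h2 u)
    have e3 := h.anti _ _ (hg _ _ c c' (h2 u) hc)
    have e4 := h.anti _ _ (hg _ _ d d' (h2 u) hd)
    linarith
  have h3 : ∑ u, ((δ (g (x u) c) (g (y u) c') + δ (g (y u) c') (g (x (u + 1)) c)) -
      (δ (g (x u) d) (g (y u) d') + δ (g (y u) d') (g (x (u + 1)) d))) = 0 := by
    rw [Finset.sum_congr rfl (fun u _ => key u), Finset.sum_sub_distrib,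
      sum_shift (fun u => r (x u)), sub_self]
  rw [Finset.sum_sub_distrib] at h3
  linarith

/-- additivity in two factors -/
theorem T_add (h : Winding E δ B) (hs : ∀ x y, E x y → E y x)
    (hPs : ∀ x y, EP x y → EP y x) (hQs : ∀ x y, EQ x y → EQ y x)
    (hg : ∀ p p' q q', EP p p' → EQ q q' → E (g p q) (g p' q')) (x y : ZMod M → P)
    (h1 : ∀ s, EP (x s) (y s)) (h2 : ∀ s, EP (x (s + 1)) (y s)) (u v : ZMod M → Q)
    (k1 : ∀ s, EQ (u s) (v s)) (k2 : ∀ s, EQ (u (s + 1)) (v s)) :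
    T δ (fun s => g (x s) (u s)) (fun s => g (y s) (v s)) =
      T δ (fun s => g (x s) (u 0)) (fun s => g (y s) (v 0)) +
        T δ (fun s => g (x 0) (u s)) (fun s => g (y 0) (v s)) := by
  let Hh : ZMod M → ZMod M → ℤ := fun s r =>
    δ (g (x s) (u r)) (g (y s) (v r)) + δ (g (y s) (v r)) (g (x (s + 1)) (u r))
  let Vv : ZMod M → ZMod M → ℤ := fun s r =>
    δ (g (x s) (u r)) (g (y s) (v r)) + δ (g (y s) (v r)) (g (x s) (u (r + 1)))
  let Dd : ZMod M → ZMod M → ℤ := fun s r =>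
    δ (g (x s) (u r)) (g (y s) (v r)) + δ (g (y s) (v r)) (g (x (s + 1)) (u (r + 1)))
  have f1 : ∀ s r, Hh s r + Vv (s + 1) r = Dd s r := by
    intro s r
    have e1 := h.mid hs (hg _ _ _ _ (h1 (s + 1)) (k1 r))
      (hg _ _ _ _ (hPs _ _ (h1 (s + 1))) (hQs _ _ (k2 r)))
      (hg _ _ _ _ (h2 s) (k1 r)) (hg _ _ _ _ (hPs _ _ (h2 s)) (hQs _ _ (k2 r)))
    have e2 := h.anti _ _ (hg _ _ _ _ (h2 s) (k1 r))
    simp only [Hh, Vv, Dd]
    linarith
  have f2 : ∀ s r, Vv s r + Hh s (r + 1) = Dd s r := by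
    intro s r
    have e1 := h.mid hs (hg _ _ _ _ (h1 s) (k1 (r + 1)))
      (hg _ _ _ _ (hPs _ _ (h2 s)) (hQs _ _ (k1 (r + 1))))
      (hg _ _ _ _ (h1 s) (k2 r)) (hg _ _ _ _ (hPs _ _ (h2 s)) (hQs _ _ (k2 r)))
    have e2 := h.anti _ _ (hg _ _ _ _ (h1 s) (k2 r))
    simp only [Hh, Vv, Dd]
    linarith
  exact torus Hh Vv Dd f1 f2

end twofactor

end Pool.Agent.Q112.BP
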