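import Pool.Agent.Q112.BP.Flat

/-!
Flat integer functions on spaces with moves, degrees of maps of several variables, and the selection
of a variable.
-/

set_option autoImplicit false

namespace Pool.Agent.Q112.BP

open Finset Function

/-- `w` is a bounded flat integer function on the moves `R a` (`a : P`) of the space `X`. -/
structure FlatOn {X P : Type} (R : P → X → X → Prop) (w : X → X → ℤ) (B : ℤ) : Prop where
  refl : ∀ a x, R a x x
  line : ∀ a x y z, R a x y → R a y z → R a x z → w x y + w y z = w x z
  square : ∀ a b x y z u, R a x y → R b y z → R b x u → R a u z →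
    w x y + w y z = w x u + w u z
  bdd : ∀ a x y, R a x y → |w x y| ≤ B

/-- the map `f` of several variables preserves the moves -/
def PolM {X P : Type} (R : P → X → X → Prop) {ι : Type} (f : (ι → X) → X) : Prop :=
  ∀ (a : P) (x y : ι → X), (∀ i, R a (x i) (y i)) → R a (f x) (f y)

/-- the sum along a closed sequence -/
def Sm {X : Type} {L : ℕ} [NeZero L] (w : X → X → ℤ) (x : ZMod L → X) : ℤ :=
  ∑ s, w (x s) (x (s + 1))

section

variable {X Y Z P : Type} {RX : P → X → X → Prop} {RY : P → Y → Y → Prop} {R : P → Z → Z → Prop}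
  {w : Z → Z → ℤ} {B : ℤ} {L : ℕ} [NeZero L]

theorem FlatOn.self (h : FlatOn R w B) (a : P) (x : Z) : w x x = 0 := by
  have := h.line a x x x (h.refl a x) (h.refl a x) (h.refl a x)
  linarith

theorem Sm_add (h : FlatOn R w B) (hX : ∀ a x, RX a x x) (hY : ∀ a y, RY a y y) {g : X → Y → Z}
    (hg : ∀ a x x' y y', RX a x x' → RY a y y' → R a (g x y) (g x' y')) (α : ZMod L → P)
    (x : ZMod L → X) (y : ZMod L → Y) (hx : ∀ s, RX (α s) (x s) (x (s + 1)))
    (hy : ∀ s, RY (α s) (y s) (y (s + 1))) :
    Sm w (fun s => g (x s) (y s)) = Sm w (fun s => g (x s) (y 0)) + Sm w (fun s => g (x 0) (y s)) := by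
  have h1 := torus (fun s r => w (g (x s) (y r)) (g (x (s + 1)) (y r)))
    (fun s r => w (g (x s) (y r)) (g (x s) (y (r + 1))))
    (fun s r => w (g (x s) (y r)) (g (x (s + 1)) (y r)) +
      w (g (x (s + 1)) (y r)) (g (x (s + 1)) (y (r + 1)))) (fun s r => rfl) (fun s r => by
      exact (h.square (α s) (α r) _ _ _ _ (hg _ _ _ _ _ (hx s) (hY _ _))
        (hg _ _ _ _ _ (hX _ _) (hy r)) (hg _ _ _ _ _ (hX _ _) (hy r))
        (hg _ _ _ _ _ (hx s) (hY _ _))).symm)
  unfold Sm
  rw [← h1]
  apply Finset.sum_congr rfl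
  intro s _
  exact (h.line (α s) _ _ _ (hg _ _ _ _ _ (hx s) (hY _ _)) (hg _ _ _ _ _ (hX _ _) (hy s))
    (hg _ _ _ _ _ (hx s) (hy s))).symm

theorem Sm_base (h : FlatOn R w B) (hX : ∀ a x, RX a x x) (hY : ∀ a y, RY a y y) {g : X → Y → Z}
    (hg : ∀ a x x' y y', RX a x x' → RY a y y' → R a (g x y) (g x' y')) (α : ZMod L → P)
    (x : ZMod L → X) (hx : ∀ s, RX (α s) (x s) (x (s + 1))) {b : P} {y y' : Y} (hy : RY b y y') :
    Sm w (fun s => g (x s) y) = Sm w (fun s => g (x s) y') := by
  unfold Sm
  have key : ∀ s, w (g (x s) y) (g (x (s + 1)) y) - w (g (x s) y') (g (x (s + 1)) y') =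
      w (g (x s) y) (g (x s) y') - w (g (x (s + 1)) y) (g (x (s + 1)) y') := by
    intro s
    have := h.square (α s) b (g (x s) y) (g (x (s + 1)) y) (g (x (s + 1)) y') (g (x s) y')
      (hg _ _ _ _ _ (hx s) (hY _ _)) (hg _ _ _ _ _ (hX _ _) hy) (hg _ _ _ _ _ (hX _ _) hy)
      (hg _ _ _ _ _ (hx s) (hY _ _))
    linarith
  have h3 : ∑ s, (w (g (x s) y) (g (x (s + 1)) y) - w (g (x s) y') (g (x (s + 1)) y')) = 0 := by
    rw [Finset.sum_congr rfl (fun s _ => key s), Finset.sum_sub_distrib,
      sum_shift (fun s => w (g (x s) y) (g (x s) y')), sub_self]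
  rw [Finset.sum_sub_distrib] at h3
  linarith

end

section

variable {X P : Type} {R : P → X → X → Prop} {w : X → X → ℤ} {B : ℤ} {L : ℕ} [NeZero L]

theorem PolM.slot {ι : Type} [DecidableEq ι] {f : (ι → X) → X} (hf : PolM R f) (i : ι) (a : P)
    (p p' : X) (q q' : ι → X) (hp : R a p p') (hq : ∀ j, R a (q j) (q' j)) :
    R a (f (update q i p)) (f (update q' i p')) := by
  apply hf
  intro j
  by_cases hj : j = i
  · subst hj
    simpa using hp
  · simpa [hj] using hq j

/-- additivity in all variables -/
theorem Sm_sum (h : FlatOn R w B) {ι : Type} [Fintype ι] [DecidableEq ι] {f : (ι → X) → X}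
    (hf : PolM R f) (α : ZMod L → P) (x : ZMod L → ι → X)
    (hx : ∀ s i, R (α s) (x s i) (x (s + 1) i)) (c : ι → X) (hc : ∀ i, x 0 i = c i) :
    Sm w (fun s => f (x s)) = ∑ i, Sm w (fun s => f (update c i (x s i))) := by
  have key : ∀ S : Finset ι, Sm w (fun s => f (S.piecewise (x s) c)) =
      ∑ i ∈ S, Sm w (fun s => f (update c i (x s i))) := by
    intro S
    induction S using Finset.induction_on with
    | empty =>
      simp only [Finset.piecewise_empty, Finset.sum_empty]
      unfold Sm
      exact Finset.sum_eq_zero (fun s _ => h.self (α s) _)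
    | insert i S hi ih =>
      rw [Finset.sum_insert hi, ← ih]
      have e1 : ∀ s, (insert i S).piecewise (x s) c = update (S.piecewise (x s) c) i (x s i) :=
        fun s => Finset.piecewise_insert _ _ _ _
      have hu : ∀ s j, R (α s) (S.piecewise (x s) c j) (S.piecewise (x (s + 1)) c j) := by
        intro s j
        by_cases hj : j ∈ S
        · simpa [Finset.piecewise, hj] using hx s j
        · simpa [Finset.piecewise, hj] using h.refl (α s) (c j)
      have hadd := Sm_add (RX := R) (RY := fun a (x y : ι → X) => ∀ i, R a (x i) (y i)) h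
        h.refl (fun a y i => h.refl a (y i)) (g := fun p q => f (update q i p))
        (fun a p p' q q' hp hq => hf.slot i a p p' q q' hp hq) α (fun s => x s i)
        (fun s => S.piecewise (x s) c) (fun s => hx s i) hu
      have e2 : S.piecewise (x 0) c = c := by
        funext j
        by_cases hj : j ∈ S
        · simp [Finset.piecewise, hj, hc j]
        · simp [Finset.piecewise, hj]
      have e3 : ∀ s, update (S.piecewise (x s) c) i (x 0 i) = S.piecewise (x s) c := by
        intro s
        rw [Function.update_eq_self_iff]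
        simp [Finset.piecewise, hi, hc i]
      simp only [e1]
      simp only [e2, e3] at hadd
      rw [hadd]
  have h3 := key Finset.univ
  simpa [Finset.piecewise_univ] using h3

open Classical in
/-- the degree of `f` in the variable `i` along the closed sequence `C` -/
noncomputable def dg (w : X → X → ℤ) (C : ZMod L → X) {ι : Type} (f : (ι → X) → X) (i : ι) : ℤ :=
  Sm w (fun s => f (update (fun _ => C 0) i (C s)))

variable (h : FlatOn R w B) (C : ZMod L → X) (α : ZMod L → P)
  (hC : ∀ s, R (α s) (C s) (C (s + 1)))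

include h hC in
theorem dg_minor {ι κ : Type} [Fintype ι] {f : (ι → X) → X} (hf : PolM R f) (π : ι → κ) (k : κ) :
    dg w C (fun y : κ → X => f (y ∘ π)) k =
      ∑ i, open Classical in if π i = k then dg w C f i else 0 := by
  classical
  have e1 := Sm_sum h hf α (fun s i => if π i = k then C s else C 0)
    (fun s i => by
      by_cases hi : π i = k
      · simp only [hi, if_true]; exact hC _
      · simp only [hi, if_false]; exact h.refl _ _) (fun _ => C 0)
    (fun i => by by_cases hi : π i = k <;> simp [hi])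
  have e2 : dg w C (fun y : κ → X => f (y ∘ π)) k =
      Sm w (fun s => f (fun i => if π i = k then C s else C 0)) := by
    unfold dg
    congr 1
    funext s
    show f _ = f _
    congr 1
    funext i
    simp only [Function.comp, Function.update_apply]
  rw [e2, e1]
  apply Finset.sum_congr rfl
  intro i _
  by_cases hi : π i = k
  · simp only [hi, if_true]
    unfold dg
    congr! 3
  · simp only [hi, if_false]
    have e3 : update (fun _ : ι => C 0) i (C 0) = fun _ => C 0 := by
      funext j
      by_cases hj : j = i <;> simp [Function.update_apply]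
    rw [e3]
    unfold Sm
    exact Finset.sum_eq_zero (fun s _ => h.self (α s) _)

include h hC in
theorem dg_diag {ι : Type} [Fintype ι] {f : (ι → X) → X} (hf : PolM R f) :
    ∑ i, dg w C f i = Sm w (fun s => f (fun _ => C s)) := by
  classical
  have e1 := Sm_sum h hf α (fun s _ => C s) (fun s _ => hC s) (fun _ => C 0) (fun _ => rfl)
  rw [e1]
  apply Finset.sum_congr rfl
  intro i _
  unfold dg
  congr! 3

include h hC in
theorem dg_abs {ι : Type} [Fintype ι] {f : (ι → X) → X} (hf : PolM R f) :
    ∑ i, |dg w C f i| ≤ 2 * (L * B) := by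
  classical
  -- sum of the degrees over the variables in T
  have key : ∀ T : Finset ι, |∑ i ∈ T, dg w C f i| ≤ L * B := by
    intro T
    have e1 := Sm_sum h hf α (fun s i => if i ∈ T then C s else C 0)
      (fun s i => by
        by_cases hi : i ∈ T
        · simp only [hi, if_true]; exact hC _
        · simp only [hi, if_false]; exact h.refl _ _) (fun _ => C 0)
      (fun i => by by_cases hi : i ∈ T <;> simp [hi])
    have e2 : ∑ i ∈ T, dg w C f i =
        ∑ i, Sm w (fun s => f (update (fun _ => C 0) i (if i ∈ T then C s else C 0))) := by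
      rw [← Finset.sum_subset (Finset.subset_univ T)]
      · apply Finset.sum_congr rfl
        intro i hi
        simp only [hi, if_true]
        unfold dg
        congr! 3
      · intro i _ hi
        simp only [hi, if_false]
        have e3 : update (fun _ : ι => C 0) i (C 0) = fun _ => C 0 := by
          funext j
          by_cases hj : j = i <;> simp [Function.update_apply]
        rw [e3]
        unfold Sm
        exact Finset.sum_eq_zero (fun s _ => h.self (α s) _)
    rw [e2, ← e1]
    unfold Sm
    refine (Finset.abs_sum_le_sum_abs _ _).trans ?_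
    refine (Finset.sum_le_sum (fun s _ => h.bdd (α s) _ _ (hf _ _ _ (fun i => ?_)))).trans ?_
    · by_cases hi : i ∈ T
      · simp only [hi, if_true]; exact hC _
      · simp only [hi, if_false]; exact h.refl _ _
    · rw [Finset.sum_const, Finset.card_univ, ZMod.card, nsmul_eq_mul]
  have hpos := key (Finset.univ.filter (fun i => 0 ≤ dg w C f i))
  have hneg := key (Finset.univ.filter (fun i => ¬ 0 ≤ dg w C f i))
  have e3 : ∑ i, |dg w C f i| =
      ∑ i ∈ Finset.univ.filter (fun i => 0 ≤ dg w C f i), dg w C f i -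
      ∑ i ∈ Finset.univ.filter (fun i => ¬ 0 ≤ dg w C f i), dg w C f i := by
    rw [← Finset.sum_filter_add_sum_filter_not Finset.univ (fun i => 0 ≤ dg w C f i),
      sub_eq_add_neg, ← Finset.sum_neg_distrib]
    congr 1
    · apply Finset.sum_congr rfl
      intro i hi
      exact abs_of_nonneg (Finset.mem_filter.1 hi).2
    · apply Finset.sum_congr rfl
      intro i hi
      exact abs_of_neg (not_le.1 (Finset.mem_filter.1 hi).2)
  rw [e3]
  have h1 := abs_le.1 hpos
  have h2 := abs_le.1 hneg
  linarith [h1.2, h2.1]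

open Classical in
/-- the variables with degree not divisible by `q` -/
noncomputable def nzSet (w : X → X → ℤ) (q : ℤ) (C : ZMod L → X) {ι : Type} [Fintype ι]
    (f : (ι → X) → X) : Finset ι :=
  Finset.univ.filter (fun i => ¬ q ∣ dg w C f i)

include h hC in
theorem nzSet_card (q : ℤ) {ι : Type} [Fintype ι] {f : (ι → X) → X} (hf : PolM R f) :
    ((nzSet w q C f).card : ℤ) ≤ 2 * (L * B) := by
  classical
  refine le_trans ?_ (dg_abs h C α hC hf)
  calc ((nzSet w q C f).card : ℤ) = ∑ i ∈ nzSet w q C f, (1 : ℤ) := by simp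
    _ ≤ ∑ i ∈ nzSet w q C f, |dg w C f i| := by
        apply Finset.sum_le_sum
        intro i hi
        have h3 : ¬ q ∣ dg w C f i := by simpa [nzSet] using hi
        have h4 : dg w C f i ≠ 0 := fun h0 => h3 (by rw [h0]; exact dvd_zero _)
        exact Int.one_le_abs h4
    _ ≤ ∑ i, |dg w C f i| := Finset.sum_le_univ_sum_of_nonneg (fun i => abs_nonneg _)

/-- star composition -/
def starM {X : Type} {ι κ : Type} (m : (ι → X) → X) (g : (κ → X) → X) (z : ι × κ → X) : X :=
  m (fun i => g (fun k => z (i, k)))

theorem starM_pol {ι κ : Type} {m : (ι → X) → X} {g : (κ → X) → X} (hm : PolM R m)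
    (hg : PolM R g) : PolM R (starM m g) := by
  intro a x y hxy
  exact hm _ _ _ (fun i => hg _ _ _ (fun k => hxy (i, k)))

theorem dg_local {ι κ : Type} (m : (ι → X) → X) {g g' : (κ → X) → X}
    (hgg : ∀ x : κ → X, (∀ k, x k ∈ Set.range C) → g x = g' x) (z : ι × κ) :
    dg w C (starM m g) z = dg w C (starM m g') z := by
  classical
  unfold dg
  congr 1
  funext s
  show m _ = m _
  congr 1
  funext i
  apply hgg
  intro k
  simp only [Function.update_apply]
  split_ifs
  · exact ⟨_, rfl⟩
  · exact ⟨_, rfl⟩

include h hC in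
/-- the sum of the degrees over a block -/
theorem dg_block {ι κ : Type} [Fintype ι] [Fintype κ] {m : (ι → X) → X} {g : (κ → X) → X}
    (hm : PolM R m) (hg : PolM R g) (i : ι) :
    ∑ k, dg w C (starM m g) (i, k) = dg w (fun s => g (fun _ => C s)) m i := by
  classical
  have e1 := dg_minor h C α hC (starM_pol hm hg) Prod.fst i
  have e2 : ∑ z : ι × κ, (if z.1 = i then dg w C (starM m g) z else 0) =
      ∑ k, dg w C (starM m g) (i, k) := by
    rw [Fintype.sum_prod_type, Finset.sum_eq_single i]
    · simp
    · intro j _ hj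
      simp [hj]
    · intro hi
      exact absurd (Finset.mem_univ _) hi
  have e3 : ∑ k, dg w C (starM m g) (i, k) =
      dg w C (fun y : ι → X => starM m g (y ∘ Prod.fst)) i := by
    rw [e1, ← e2]
  rw [e3]
  unfold dg
  congr 1
  funext s
  show m _ = m _
  congr 1
  funext j
  by_cases hj : j = i
  · subst hj
    simp [Function.comp]
  · simp [Function.comp, hj, Function.update_apply]

/-- Selection of a variable: let `Q` be a class of maps preserving the moves, closed under star
composition, which contains a map; suppose that the sum of the degrees is never divisible by `q` and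
that the degrees modulo `q` do not change when the closed sequence is replaced by its image under a
map of the class. -/
theorem selectM (q : ℤ) (Q : ∀ {ι : Type}, ((ι → X) → X) → Prop)
    (hQ : ∀ {ι : Type} (f : (ι → X) → X), Q f → PolM R f)
    (hQs : ∀ {ι κ : Type} (m : (ι → X) → X) (g : (κ → X) → X), Q m → Q g → Q (starM m g))
    (hQ1 : Q (fun x : Unit → X => x ()))
    (hnz : ∀ {ι : Type} [Fintype ι] (f : (ι → X) → X), Q f →
      ¬ q ∣ Sm w (fun s => f (fun _ => C s)))
    (hinv : ∀ {ι κ : Type} [Fintype ι] [Fintype κ] (m : (ι → X) → X) (g : (κ → X) → X) (i : ι),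
      Q m → Q g → q ∣ dg w (fun s => g (fun _ => C s)) m i - dg w C m i) (h : FlatOn R w B)
    (hC : ∀ s, R (α s) (C s) (C (s + 1))) :
    ∃ Φ : ∀ (κ : Type) [Fintype κ] (g : (κ → X) → X), Q g → κ,
    (∀ (κ κ' : Type) [Fintype κ] [Fintype κ'] (π : κ → κ') (g : (κ → X) → X) (hg : Q g)
      (hg' : Q (fun y : κ' → X => g (y ∘ π))), Φ κ' (fun y => g (y ∘ π)) hg' = π (Φ κ g hg)) ∧
    (∀ (κ : Type) [Fintype κ] (g g' : (κ → X) → X) (hg : Q g) (hg' : Q g'),
      (∀ x : κ → X, (∀ k, x k ∈ Set.range C) → g x = g' x) → Φ κ g hg = Φ κ g' hg') := by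
  classical
  -- a map with the largest number of variables of nonzero degree
  obtain ⟨ι, hι, m, hm, hne, hmax⟩ : ∃ (ι : Type) (_ : Fintype ι) (m : (ι → X) → X), Q m ∧
      (nzSet w q C m).Nonempty ∧ ∀ (κ : Type) [Fintype κ] (g : (κ → X) → X), Q g →
      (nzSet w q C g).card ≤ (nzSet w q C m).card := by
    let S : Set ℕ := {N | ∃ (ι : Type) (_ : Fintype ι) (m : (ι → X) → X), Q m ∧
      (nzSet w q C m).card = N}
    have hne : S.Nonempty := ⟨_, Unit, inferInstance, fun x => x (), hQ1, rfl⟩
    have hbd : BddAbove S := by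
      refine ⟨(2 * (L * B)).toNat, ?_⟩
      rintro N ⟨ι, _, m, hm, rfl⟩
      have := nzSet_card h C α hC q (hQ m hm)
      omega
    obtain ⟨ι, hι, m, hm, hN⟩ := Nat.sSup_mem hne hbd
    refine ⟨ι, hι, m, hm, ?_, ?_⟩
    · rw [Finset.nonempty_iff_ne_empty]
      intro hemp
      apply hnz m hm
      rw [← dg_diag h C α hC (hQ m hm)]
      apply Finset.dvd_sum
      intro i _
      by_contra hi
      have : i ∈ nzSet w q C m := by simpa [nzSet] using hi
      rw [hemp] at this
      exact absurd this (Finset.notMem_empty _)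
    · intro κ _ g hg
      rw [hN]
      exact le_csSup hbd ⟨κ, inferInstance, g, hg, rfl⟩
  obtain ⟨i₀, hi₀⟩ := hne
  have hu : ∀ (κ : Type) [Fintype κ] (g : (κ → X) → X), Q g →
      ∃! k, ¬ q ∣ dg w C (starM m g) (i₀, k) := by
    intro κ _ g hg
    have hblock : ∀ i ∈ nzSet w q C m, ∃ k, ¬ q ∣ dg w C (starM m g) (i, k) := by
      intro i hi
      by_contra hno
      push Not at hno
      have h1 := dg_block h C α hC (hQ m hm) (hQ g hg) i
      have h2 : q ∣ ∑ k, dg w C (starM m g) (i, k) := Finset.dvd_sum (fun k _ => hno k)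
      have h3 : ¬ q ∣ dg w C m i := by simpa [nzSet] using hi
      apply h3
      rw [h1] at h2
      have := dvd_sub h2 (hinv m g i hm hg)
      simpa using this
    have hκ : Nonempty κ := ⟨(hblock i₀ hi₀).choose⟩
    choose! φ hφ using hblock
    refine ⟨φ i₀, hφ i₀ hi₀, ?_⟩
    intro k hk
    by_contra hne
    have h4 : (insert (i₀, k) ((nzSet w q C m).image (fun i => (i, φ i)))) ⊆
        nzSet w q C (starM m g) := by
      intro z hz
      rw [Finset.mem_insert, Finset.mem_image] at hz
      rcases hz with rfl | ⟨i, hi, rfl⟩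
      · simpa [nzSet] using hk
      · simpa [nzSet] using hφ i hi
    have h5 := Finset.card_le_card h4
    have h6 : (i₀, k) ∉ (nzSet w q C m).image (fun i => (i, φ i)) := by
      intro hmem
      obtain ⟨i, hi, hik⟩ := Finset.mem_image.1 hmem
      simp only [Prod.mk.injEq] at hik
      obtain ⟨rfl, h7⟩ := hik
      exact hne h7.symm
    rw [Finset.card_insert_of_notMem h6, Finset.card_image_of_injective _
      (fun a b hab => (Prod.mk.inj hab).1)] at h5
    have h7 := hmax (ι × κ) (starM m g) (hQs m g hm hg)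
    omega
  refine ⟨fun κ _ g hg => (hu κ g hg).choose, ?_, ?_⟩
  · intro κ κ' _ _ π g hg hg'
    obtain ⟨h1, h2⟩ := (hu κ' (fun y => g (y ∘ π)) hg').choose_spec
    obtain ⟨h3, h4⟩ := (hu κ g hg).choose_spec
    symm
    apply h2
    have e1 := dg_minor h C α hC (starM_pol (hQ m hm) (hQ g hg)) (fun z : ι × κ => (z.1, π z.2))
      (i₀, π (hu κ g hg).choose)
    have e2 : (fun y : ι × κ' → X => starM m g (y ∘ fun z : ι × κ => (z.1, π z.2))) =
        starM m (fun y => g (y ∘ π)) := by
      funext y
      rfl
    rw [e2] at e1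
    show ¬ q ∣ dg w C (starM m fun y => g (y ∘ π)) (i₀, π (hu κ g hg).choose)
    rw [e1]
    intro hdiv
    apply h3
    have e3 : ∑ z : ι × κ, (if (z.1, π z.2) = (i₀, π (hu κ g hg).choose) then
        dg w C (starM m g) z else 0) = dg w C (starM m g) (i₀, (hu κ g hg).choose) +
        ∑ z ∈ Finset.univ.erase (i₀, (hu κ g hg).choose),
          (if (z.1, π z.2) = (i₀, π (hu κ g hg).choose) then dg w C (starM m g) z else 0) := by
      rw [← Finset.add_sum_erase _ _ (Finset.mem_univ (i₀, (hu κ g hg).choose))]
      simp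
    have e4 : q ∣ ∑ z ∈ Finset.univ.erase (i₀, (hu κ g hg).choose),
          (if (z.1, π z.2) = (i₀, π (hu κ g hg).choose) then dg w C (starM m g) z else 0) := by
      apply Finset.dvd_sum
      rintro ⟨i, k⟩ hz
      split_ifs with hz2
      · simp only [Prod.mk.injEq] at hz2
        obtain ⟨rfl, _⟩ := hz2
        by_contra hz3
        have := h4 k hz3
        rw [Finset.mem_erase] at hz
        exact hz.1 (by rw [this])
      · exact dvd_zero _
    have e5 : q ∣ ∑ z : ι × κ, (if (z.1, π z.2) = (i₀, π (hu κ g hg).choose) then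
        dg w C (starM m g) z else 0) := by
      convert hdiv using 4
    rw [e3] at e5
    exact (Int.dvd_add_left e4).1 e5
  · intro κ _ g g' hg hg' hgg
    obtain ⟨h1, h2⟩ := (hu κ g' hg').choose_spec
    obtain ⟨h3, h4⟩ := (hu κ g hg).choose_spec
    apply h2
    intro hd
    apply h3
    show q ∣ dg w C (starM m g) (i₀, (hu κ g hg).choose)
    rw [dg_local C m hgg]
    exact hd

end

end Pool.Agent.Q112.BP
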