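import Pool.Agent.Q112.BP.CycSel

/-!
Bounded flat integer functions on pp-definable families of relations in model-complete cores.
-/

set_option autoImplicit false

namespace Pool.Agent.Q112.BP

open Set Function Pool.Agent.W994.AR

/-- A bounded flat integer function `w` on a family of relations `R a` (`a : P`) of the space `X`.
The relations are reflexive on the set of points which occur in them, and the family is closed under
taking inverse relations. -/
structure FlatFam {X P : Type} (R : P → X → X → Prop) (w : X → X → ℤ) : Prop where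
  refl : ∀ a b x y, R a x y → R b x x
  symm : ∀ a, ∃ b, ∀ x y, R a x y → R b y x
  bdd : ∃ B : ℤ, ∀ a x y, R a x y → |w x y| ≤ B
  tri : ∀ a x y z, R a x y → R a y z → R a x z → w x y + w y z = w x z
  sq : ∀ a b x y z u, R a x y → R b y z → R b x u → R a u z → w x y + w y z = w x u + w u z

/-- `𝔸` is a model-complete core: every endomorphism preserves every orbit of `Aut(𝔸)` on tuples -/
def MCCore {A ι : Type} {ar : ι → ℕ} (𝔸 : Str ι ar A) : Prop :=
  ∀ h : A → A, (∀ (i : ι) (v : Fin (ar i) → A), v ∈ 𝔸 i → (fun j => h (v j)) ∈ 𝔸 i) →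
    ∀ (k : ℕ) (v : Fin k → A), ∃ g ∈ autGroup 𝔸, ∀ j, g (v j) = h (v j)

section exact

variable {X P : Type} {R : P → X → X → Prop} {w : X → X → ℤ}

theorem FlatFam.self (h : FlatFam R w) {a : P} {x y : X} (hx : R a x y) : w x x = 0 := by
  have h1 := h.refl a a x y hx
  have := h.tri a x x x h1 h1 h1
  linarith

theorem FlatFam.anti (h : FlatFam R w) {a : P} {x y : X} (hx : R a x y) : w y x = - w x y := by
  obtain ⟨b, hb⟩ := h.symm a
  have h1 := h.sq a b x y x x hx (hb _ _ hx) (h.refl a b x y hx) (h.refl a a x y hx)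
  have h2 := h.self hx
  linarith

/-- there is a path from `x` to `y` with sum `m` -/
inductive PSum (R : P → X → X → Prop) (w : X → X → ℤ) (x : X) : X → ℤ → Prop
  | refl : PSum R w x x 0
  | tail {y z : X} {m : ℤ} {a : P} : PSum R w x y m → R a y z → PSum R w x z (m + w y z)

theorem PSum.trans {x y z : X} {m m' : ℤ} (h : PSum R w x y m) (h' : PSum R w y z m') :
    PSum R w x z (m + m') := by
  induction h' with
  | refl => simpa using h
  | tail _ hr ih =>
    have := PSum.tail ih hr
    rwa [add_assoc] at this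

theorem PSum.symm (hF : FlatFam R w) {x y : X} {m : ℤ} (h : PSum R w x y m) :
    PSum R w y x (-m) := by
  induction h with
  | refl => simpa using PSum.refl
  | @tail y z m a _ hr ih =>
    obtain ⟨b, hb⟩ := hF.symm a
    have h1 : PSum R w z y (0 + w z y) := PSum.tail PSum.refl (hb _ _ hr)
    have h2 := h1.trans ih
    have h3 : 0 + w z y + -m = -(m + w y z) := by
      rw [hF.anti hr]
      ring
    rwa [h3] at h2

theorem PSum.path {x y : X} {m : ℤ} (h : PSum R w x y m) :
    ∃ (N : ℕ) (c : ℕ → X) (α : ℕ → P → Prop), c 0 = x ∧ c N = y ∧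
      (∀ s, s < N → ∃ a, α s a ∧ R a (c s) (c (s + 1))) ∧
      ∑ s ∈ Finset.range N, w (c s) (c (s + 1)) = m := by
  classical
  induction h with
  | refl => exact ⟨0, fun _ => x, fun _ _ => True, rfl, rfl, fun s hs => absurd hs (by omega), rfl⟩
  | @tail y z m a _ hr ih =>
    obtain ⟨N, c, _, h0, h1, h2, h3⟩ := ih
    refine ⟨N + 1, fun s => if s ≤ N then c s else z, fun _ _ => True, ?_, ?_, ?_, ?_⟩
    · simpa using h0
    · simp
    · intro s hs
      rcases Nat.lt_or_ge s N with h4 | h4
      · beta_reduce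
        rw [if_pos (by omega), if_pos (by omega)]
        obtain ⟨b, _, hb⟩ := h2 s h4
        exact ⟨b, trivial, hb⟩
      · have h5 : s = N := by omega
        subst h5
        beta_reduce
        rw [if_pos le_rfl, if_neg (by omega), h1]
        exact ⟨a, trivial, hr⟩
    · rw [Finset.sum_range_succ]
      have e1 : ∀ s ∈ Finset.range N, w (if s ≤ N then c s else z)
          (if s + 1 ≤ N then c (s + 1) else z) = w (c s) (c (s + 1)) := by
        intro s hs
        have := Finset.mem_range.1 hs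
        rw [if_pos (by omega), if_pos (by omega)]
      rw [Finset.sum_congr rfl e1, h3]
      beta_reduce
      rw [if_pos le_rfl, if_neg (by omega), h1]

theorem PSum.closed (hz : ∀ (L : ℕ) [NeZero L] (C : ZMod L → X), (∀ s, ∃ a, R a (C s) (C (s + 1))) →
    Sm w C = 0) {x : X} {m : ℤ} (h : PSum R w x x m) : m = 0 := by
  obtain ⟨N, c, _, h0, h1, h2, h3⟩ := h.path
  rcases Nat.eq_zero_or_pos N with rfl | hN
  · simpa using h3.symm
  · have : NeZero N := ⟨hN.ne'⟩
    have hval : ∀ s : ZMod N, c (s + 1).val = c (s.val + 1) := by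
      intro s
      rcases val_succ_cases s with ⟨_, h4⟩ | ⟨h4, h5⟩
      · rw [h4]
      · rw [h5, h4, h0, h1]
    have h4 := hz N (fun s => c s.val) (fun s => by
      obtain ⟨a, _, ha⟩ := h2 s.val (ZMod.val_lt s)
      refine ⟨a, ?_⟩
      show R a (c s.val) (c (s + 1).val)
      rw [hval]
      exact ha)
    unfold Sm at h4
    have h5 : ∑ s : ZMod N, w (c s.val) (c (s + 1).val) =
        ∑ s ∈ Finset.range N, w (c s) (c (s + 1)) := by
      rw [← sum_zmod_range (L := N) (fun s => w (c s) (c (s + 1)))]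
      exact Finset.sum_congr rfl (fun s _ => by rw [hval])
    rw [h5, h3] at h4
    exact h4

/-- a flat function whose sum along all closed walks is zero is exact -/
theorem exact_of_closed (hF : FlatFam R w)
    (hz : ∀ (L : ℕ) [NeZero L] (C : ZMod L → X), (∀ s, ∃ a, R a (C s) (C (s + 1))) →
    Sm w C = 0) : ∃ u : X → ℤ, ∀ a x y, R a x y → w x y = u y - u x := by
  classical
  let st : Setoid X := {
    r := fun x y => ∃ m, PSum R w x y m
    iseqv := {
      refl := fun x => ⟨0, PSum.refl⟩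
      symm := fun ⟨m, h⟩ => ⟨-m, h.symm hF⟩
      trans := fun ⟨m, h⟩ ⟨m', h'⟩ => ⟨m + m', h.trans h'⟩ } }
  have hrep : ∀ x : X, ∃ m, PSum R w (Quotient.mk st x).out x m :=
    fun x => Quotient.exact (Quotient.out_eq (Quotient.mk st x))
  choose u hu using hrep
  refine ⟨u, fun a x y hxy => ?_⟩
  have h1 : Quotient.mk st x = Quotient.mk st y :=
    Quotient.sound ⟨0 + w x y, PSum.tail PSum.refl hxy⟩
  have h2 := hu x
  have h3 := (hu y).symm hF
  rw [← h1] at h3
  have h4 := (PSum.tail h2 hxy).trans h3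
  have h5 := h4.closed hz
  linarith

end exact

section structures

variable {A ι : Type} {ar : ι → ℕ}

theorem PolA.comp_end {𝔸 : Str ι ar A} {κ : Type} {f : (κ → A) → A} (hf : PolA 𝔸 f) {e : A → A}
    (he : ∀ (i : ι) (v : Fin (ar i) → A), v ∈ 𝔸 i → (fun j => e (v j)) ∈ 𝔸 i) :
    PolA 𝔸 (fun x => e (f x)) :=
  fun i v hv => he i _ (hf i v hv)

/-- In a model-complete core which does not pp-construct `K_3`, bounded flat integer functions have
sum zero along closed walks. -/
theorem closed_sum_zero [Finite ι] [Countable A] {𝔸 : Str ι ar A} (hO : Oligo 𝔸)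
    (hcore : MCCore 𝔸) (hno : ¬ PPConstructsK3 𝔸) {J : Type} [Finite J] {P : Type}
    {R : P → (J → A) → (J → A) → Prop}
    (hR : ∀ {κ : Type} {f : (κ → A) → A}, PolA 𝔸 f →
      PolM R (fun (x : κ → J → A) j => f (fun k => x k j)))
    {w : (J → A) → (J → A) → ℤ} (hw : FlatFam R w) {L : ℕ} [NeZero L] (C : ZMod L → J → A)
    (hC : ∀ s, ∃ a, R a (C s) (C (s + 1))) : Sm w C = 0 := by
  classical
  by_contra hne
  apply hno
  choose α hα using hC
  obtain ⟨B, hB⟩ := hw.bdd
  let X : Type := {x : J → A // ∀ a, R a x x}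
  let R' : P → X → X → Prop := fun a x y => R a x.1 y.1
  have hF : FlatOn R' (fun x y => w x.1 y.1) B :=
    ⟨fun a x => x.2 a, fun a x y z h1 h2 h3 => hw.tri a _ _ _ h1 h2 h3,
      fun a b x y z u h1 h2 h3 h4 => hw.sq a b _ _ _ _ h1 h2 h3 h4, fun a x y h => hB a _ _ h⟩
  let C' : ZMod L → X := fun s => ⟨C s, fun b => hw.refl _ b _ _ (hα s)⟩
  have hC' : ∀ s, R' (α s) (C' s) (C' (s + 1)) := hα
  have hSm : Sm (fun x y : X => w x.1 y.1) C' ≠ 0 := hne
  let Q : ∀ {κ : Type}, ((κ → X) → X) → Prop := fun {κ} f =>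
    PolM R' f ∧ ∀ s, f (fun _ => C' s) = C' s
  obtain ⟨Φ, hΦ1, hΦ2⟩ := selectM (R := R') (w := fun x y : X => w x.1 y.1) C' α 0 (@Q)
    (fun f hf => hf.1)
    (fun {κ κ'} m g hm hg => ⟨starM_pol hm.1 hg.1, fun s => by
      show m (fun i => g (fun k => C' s)) = C' s
      rw [hg.2 s]
      exact hm.2 s⟩)
    ⟨fun a x y hxy => hxy (), fun s => rfl⟩
    (fun {κ} _ f hf hdvd => by
      have h1 : (fun s => f (fun _ => C' s)) = C' := funext hf.2
      rw [h1, zero_dvd_iff] at hdvd
      exact hSm hdvd)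
    (fun {κ κ'} _ _ m g i hm hg => by
      have h1 : (fun s => g (fun _ => C' s)) = C' := funext hg.2
      rw [h1, sub_self]) hF hC'
  -- the entries
  let S : Set A := range (fun q : ZMod L × J => C q.1 q.2)
  have hSf : S.Finite := Set.finite_range _
  have hSfin := hSf.to_subtype
  -- correcting endomorphisms
  have hch : ∀ u : S → A, ∃ e : A → A,
      (∀ (i : ι) (v : Fin (ar i) → A), v ∈ 𝔸 i → (fun j => e (v j)) ∈ 𝔸 i) ∧
      ((∃ e' : A → A, (∀ (i : ι) (v : Fin (ar i) → A), v ∈ 𝔸 i → (fun j => e' (v j)) ∈ 𝔸 i) ∧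
        ∀ c : S, e' (u c) = c) → ∀ c : S, e (u c) = c) := by
    intro u
    by_cases h : ∃ e' : A → A, (∀ (i : ι) (v : Fin (ar i) → A), v ∈ 𝔸 i →
      (fun j => e' (v j)) ∈ 𝔸 i) ∧ ∀ c : S, e' (u c) = c
    · obtain ⟨e', h1, h2⟩ := h
      exact ⟨e', h1, fun _ => h2⟩
    · exact ⟨id, fun i v hv => hv, fun h' => absurd h' h⟩
  choose ev hev hev' using hch
  have hcor : ∀ {κ : Type} (f : (κ → A) → A), PolA 𝔸 f →
      ∀ c : S, ev (fun c : S => f (fun _ => c)) (f (fun _ => (c : A))) = c := by
    intro κ f hf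
    refine hev' (fun c : S => f (fun _ => (c : A))) ?_
    obtain ⟨k, ⟨e⟩⟩ := Finite.exists_equiv_fin S
    obtain ⟨g, hg, hgv⟩ := hcore (fun a => f (fun _ => a)) (fun i v hv => hf i (fun _ => v)
      (fun _ => hv)) k (fun j => (e.symm j : A))
    refine ⟨(g⁻¹ : Equiv.Perm A), fun i v hv => ((autGroup 𝔸).inv_mem hg i v).1 hv, fun c => ?_⟩
    have h1 := hgv (e c)
    simp only [Equiv.symm_apply_apply] at h1
    rw [← h1]
    simp
  let rf : ∀ {κ : Type} (f : (κ → A) → A), PolA 𝔸 f → (κ → X) → X :=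
    fun {κ} f hf x => ⟨fun j => ev (fun c : S => f (fun _ => (c : A))) (f (fun k => (x k).1 j)),
      fun a => hR (hf.comp_end (hev (fun c : S => f (fun _ => (c : A))))) a (fun k => (x k).1)
        (fun k => (x k).1) (fun k => (x k).2 a)⟩
  have hrf : ∀ {κ : Type} (f : (κ → A) → A) (hf : PolA 𝔸 f), Q (rf f hf) := by
    intro κ f hf
    refine ⟨fun a x y hxy => hR (hf.comp_end (hev (fun c : S => f (fun _ => (c : A))))) a
      (fun k => (x k).1) (fun k => (y k).1) hxy, fun s => ?_⟩
    apply Subtype.ext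
    funext j
    exact hcor f hf ⟨C s j, ⟨(s, j), rfl⟩⟩
  -- J is nonempty
  have hJ : Nonempty J := by
    by_contra hno
    rw [not_nonempty_iff] at hno
    apply hne
    unfold Sm
    apply Finset.sum_eq_zero
    intro s _
    have h1 : C (s + 1) = C s := Subsingleton.elim _ _
    rw [h1]
    exact hw.self (hα s)
  refine k3_of_select hO S hSf ⟨_, ⟨(0, hJ.some), rfl⟩⟩
    (fun f hf => Φ (Fin 3) (rf f hf) (hrf f hf)) (fun f hf => Φ Ed (rf f hf) (hrf f hf)) ?_ ?_ ?_
  · intro f hf hf'
    exact hΦ1 Ed (Fin 3) (fun e => e.1.1) (rf f hf) (hrf f hf) (hrf _ hf')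
  · intro f hf hf'
    exact hΦ1 Ed (Fin 3) (fun e => e.1.2) (rf f hf) (hrf f hf) (hrf _ hf')
  · intro f f' hf hf' hff
    apply hΦ2
    intro x hx
    have hu : (fun c : S => f (fun _ => (c : A))) = fun c : S => f' (fun _ => (c : A)) :=
      funext (fun c => hff (fun _ => c) (fun _ => c.2))
    apply Subtype.ext
    funext j
    show ev (fun c : S => f (fun _ => (c : A))) (f (fun k => (x k).1 j)) =
      ev (fun c : S => f' (fun _ => (c : A))) (f' (fun k => (x k).1 j))
    rw [hu, hff]
    intro k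
    obtain ⟨s, hs⟩ := hx k
    exact ⟨(s, j), by simp only; rw [← hs]⟩

/-- In a model-complete core which does not pp-construct `K_3`, bounded flat integer functions on
families of invariant relations are exact. -/
theorem flat_exact [Finite ι] [Countable A] {𝔸 : Str ι ar A} (hO : Oligo 𝔸)
    (hcore : MCCore 𝔸) (hno : ¬ PPConstructsK3 𝔸) {J : Type} [Finite J] {P : Type}
    {R : P → (J → A) → (J → A) → Prop}
    (hR : ∀ {κ : Type} {f : (κ → A) → A}, PolA 𝔸 f →
      PolM R (fun (x : κ → J → A) j => f (fun k => x k j)))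
    {w : (J → A) → (J → A) → ℤ} (hw : FlatFam R w) :
    ∃ u : (J → A) → ℤ, ∀ a x y, R a x y → w x y = u y - u x :=
  exact_of_closed hw (fun _ _ C hC => closed_sum_zero hO hcore hno hR hw C hC)

/-- relations with primitive positive definitions are preserved -/
theorem polM_of_pp {𝔸 : Str ι ar A} {J P : Type} {R : P → Set (J ⊕ J → A)}
    (hR : ∀ a, PPDef 𝔸 (R a)) {κ : Type} {f : (κ → A) → A} (hf : PolA 𝔸 f) :
    PolM (fun a (x y : J → A) => Sum.elim x y ∈ R a)
      (fun (x : κ → J → A) j => f (fun k => x k j)) := by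
  intro a x y hxy
  have h1 := hf.preserves (hR a) (fun k => Sum.elim (x k) (y k)) hxy
  have h2 : (fun z => f (fun k => Sum.elim (x k) (y k) z)) =
      Sum.elim (fun j => f (fun k => x k j)) (fun j => f (fun k => y k j)) := by
    funext z
    cases z <;> rfl
  rw [h2] at h1
  exact h1

/-- additive functions on preorders -/
theorem preorder_exact [Finite ι] [Countable A] {𝔸 : Str ι ar A} (hO : Oligo 𝔸)
    (hcore : MCCore 𝔸) (hno : ¬ PPConstructsK3 𝔸) {n : ℕ} {R : Set (Fin n ⊕ Fin n → A)}
    (hR : PPDef 𝔸 R)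
    (hrefl : ∀ x y : Fin n → A, Sum.elim x y ∈ R → Sum.elim x x ∈ R ∧ Sum.elim y y ∈ R)
    (htrans : ∀ x y z : Fin n → A, Sum.elim x y ∈ R → Sum.elim y z ∈ R → Sum.elim x z ∈ R)
    {w : (Fin n → A) → (Fin n → A) → ℤ} (hbd : ∃ B : ℤ, ∀ x y, Sum.elim x y ∈ R → |w x y| ≤ B)
    (hadd : ∀ x y z : Fin n → A, Sum.elim x y ∈ R → Sum.elim y z ∈ R → w x y + w y z = w x z) :
    ∃ u : (Fin n → A) → ℤ, ∀ x y, Sum.elim x y ∈ R → w x y = u y - u x := by
  classical
  let le : (Fin n → A) → (Fin n → A) → Prop := fun x y => Sum.elim x y ∈ R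
  let R' : Bool → (Fin n → A) → (Fin n → A) → Prop := fun b x y => if b then le x y else le y x
  let w' : (Fin n → A) → (Fin n → A) → ℤ := fun x y => if le x y then w x y else - w y x
  have hself : ∀ x y, le x y → w x x = 0 := by
    intro x y h
    have h1 := (hrefl x y h).1
    have := hadd x x x h1 h1
    linarith
  have e1 : ∀ x y, le x y → w' x y = w x y := fun x y h => if_pos h
  have e2 : ∀ x y, le y x → w' x y = - w y x := by
    intro x y h
    by_cases h' : le x y
    · rw [e1 x y h']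
      have h1 := hadd x y x h' h
      have h2 := hself x y h'
      linarith
    · exact if_neg h'
  have hR' : ∀ {κ : Type} {f : (κ → A) → A}, PolA 𝔸 f →
      PolM R' (fun (x : κ → Fin n → A) j => f (fun k => x k j)) := by
    intro κ f hf a x y hxy
    have h1 := polM_of_pp (R := fun _ : Unit => R) (fun _ => hR) hf ()
    cases a
    · exact h1 y x hxy
    · exact h1 x y hxy
  have hflat : FlatFam R' w' := by
    refine ⟨?_, ?_, ?_, ?_, ?_⟩
    · rintro (_ | _) (_ | _) x y h
      · exact (hrefl y x h).2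
      · exact (hrefl y x h).2
      · exact (hrefl x y h).1
      · exact (hrefl x y h).1
    · rintro (_ | _)
      · exact ⟨true, fun x y h => h⟩
      · exact ⟨false, fun x y h => h⟩
    · obtain ⟨B, hB⟩ := hbd
      refine ⟨B, ?_⟩
      rintro (_ | _) x y h
      · rw [e2 x y h, abs_neg]
        exact hB y x h
      · rw [e1 x y h]
        exact hB x y h
    · rintro (_ | _) x y z h1 h2 h3
      · rw [e2 x y h1, e2 y z h2, e2 x z h3]
        have := hadd z y x h2 h1
        linarith
      · rw [e1 x y h1, e1 y z h2, e1 x z h3]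
        exact hadd x y z h1 h2
    · rintro (_ | _) (_ | _) x y z u h1 h2 h3 h4
      · rw [e2 x y h1, e2 y z h2, e2 x u h3, e2 u z h4]
        have a1 := hadd z y x h2 h1
        have a2 := hadd z u x h4 h3
        linarith
      · rw [e2 x y h1, e1 y z h2, e1 x u h3, e2 u z h4]
        have a1 := hadd y x u h1 h3
        have a2 := hadd y z u h2 h4
        linarith
      · rw [e1 x y h1, e2 y z h2, e2 x u h3, e1 u z h4]
        have a1 := hadd u x y h3 h1
        have a2 := hadd u z y h4 h2
        linarith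
      · rw [e1 x y h1, e1 y z h2, e1 x u h3, e1 u z h4]
        have a1 := hadd x y z h1 h2
        have a2 := hadd x u z h3 h4
        linarith
  obtain ⟨u, hu⟩ := flat_exact hO hcore hno hR' hflat
  exact ⟨u, fun x y h => by rw [← e1 x y h]; exact hu true x y h⟩

end structures

end Pool.Agent.Q112.BP
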