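import Pool.Agent.Q112.BP.Named
import Pool.Agent.Q112.BP.CycComp

/-!
Corollaries for graphs, moves of tuples, and definable functions.
-/

set_option autoImplicit false

namespace Pool.Agent.Q112.BP

open Set Function Pool.Agent.W994.AR

variable {A ι : Type} {ar : ι → ℕ}

theorem graph_exact [Finite ι] [Countable A] {𝔸 : Str ι ar A} (hO : Oligo 𝔸)
    (hcore : MCCore 𝔸) (hno : ¬ PPConstructsK3 𝔸) {n : ℕ} {R : Set (Fin n ⊕ Fin n → A)}
    (hR : PPDef 𝔸 R)
    (hrefl : ∀ x y : Fin n → A, Sum.elim x y ∈ R → Sum.elim x x ∈ R)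
    (hsymm : ∀ x y : Fin n → A, Sum.elim x y ∈ R → Sum.elim y x ∈ R)
    {w : (Fin n → A) → (Fin n → A) → ℤ} (hbd : ∃ B : ℤ, ∀ x y, Sum.elim x y ∈ R → |w x y| ≤ B)
    (h3 : ∀ x y z : Fin n → A, Sum.elim x y ∈ R → Sum.elim y z ∈ R → Sum.elim z x ∈ R →
      w x y + w y z + w z x = 0)
    (h4 : ∀ x y z u : Fin n → A, Sum.elim x y ∈ R → Sum.elim y z ∈ R → Sum.elim z u ∈ R →
      Sum.elim u x ∈ R → w x y + w y z + w z u + w u x = 0) :
    ∃ u : (Fin n → A) → ℤ, ∀ x y, Sum.elim x y ∈ R → w x y = u y - u x := by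
  have hself : ∀ x y, Sum.elim x y ∈ R → w x x = 0 := by
    intro x y h
    have h1 := hrefl x y h
    have := h3 x x x h1 h1 h1
    linarith
  have hanti : ∀ x y, Sum.elim x y ∈ R → w y x = - w x y := by
    intro x y h
    have h1 := h3 x y x h (hsymm _ _ h) (hrefl x y h)
    have h2 := hself x y h
    linarith
  have hflat : FlatFam (fun (_ : Unit) (x y : Fin n → A) => Sum.elim x y ∈ R) w := by
    refine ⟨fun _ _ x y h => hrefl x y h, fun _ => ⟨(), fun x y h => hsymm x y h⟩, ?_, ?_, ?_⟩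
    · obtain ⟨B, hB⟩ := hbd
      exact ⟨B, fun _ x y h => hB x y h⟩
    · intro _ x y z e1 e2 e3
      have := h3 x y z e1 e2 (hsymm _ _ e3)
      have e4 := hanti x z e3
      linarith
    · intro _ _ x y z u e1 e2 e3 e4
      have := h4 x y z u e1 e2 (hsymm _ _ e4) (hsymm _ _ e3)
      have e5 := hanti x u e3
      have e6 := hanti u z e4
      linarith
  obtain ⟨u, hu⟩ := flat_exact hO hcore hno
    (fun hf => polM_of_pp (R := fun _ : Unit => R) (fun _ => hR) hf) hflat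
  exact ⟨u, fun x y h => hu () x y h⟩

theorem moves_exact [Finite ι] [Countable A] {𝔸 : Str ι ar A} (hO : Oligo 𝔸)
    (hcore : MCCore 𝔸) (hno : ¬ PPConstructsK3 𝔸) {m n : ℕ} {R : Set (Fin m × Fin n → A)}
    (hR : PPDef 𝔸 R) {w : (Fin m × Fin n → A) → (Fin m × Fin n → A) → ℤ}
    (hw : FlatFam (Mov R) w) :
    ∃ u : (Fin m × Fin n → A) → ℤ, ∀ a x y, Mov R a x y → w x y = u y - u x := by
  refine flat_exact hO hcore hno ?_ hw
  intro κ f hf a x y hxy
  refine ⟨hf.preserves hR x (fun k => (hxy k).1), hf.preserves hR y (fun k => (hxy k).2.1),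
    fun b hb j => ?_⟩
  show f _ = f _
  congr 1
  funext k
  exact (hxy k).2.2 b hb j

/-- invariant integer functions are bounded -/
theorem bounded_of_invariant {𝔸 : Str ι ar A} (hO : Oligo 𝔸) {n : ℕ}
    (w : (Fin n → A) → (Fin n → A) → ℤ)
    (hw : ∀ g ∈ autGroup 𝔸, ∀ x y : Fin n → A, w (fun j => g (x j)) (fun j => g (y j)) = w x y) :
    ∃ B : ℤ, ∀ x y, |w x y| ≤ B := by
  obtain ⟨F, hF, hrep⟩ := hO.fin (Fin n ⊕ Fin n)
  obtain ⟨B, hB⟩ := (hF.image (fun v : Fin n ⊕ Fin n → A =>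
    |w (fun j => v (Sum.inl j)) (fun j => v (Sum.inr j))|)).bddAbove
  refine ⟨B, fun x y => ?_⟩
  obtain ⟨v, hv, g, hg, hgv⟩ := hrep (Sum.elim x y)
  have h1 := hB (Set.mem_image_of_mem _ hv)
  have h2 : (fun j => v (Sum.inl j)) = fun j => g (x j) := funext (fun j => (hgv (Sum.inl j)).symm)
  have h3 : (fun j => v (Sum.inr j)) = fun j => g (y j) := funext (fun j => (hgv (Sum.inr j)).symm)
  simp only [h2, h3] at h1
  rwa [hw g hg] at h1

end Pool.Agent.Q112.BP
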