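import Pool.Agent.Q112.BP.Deg

/-!
A connected non-bipartite graph with a winding function: every polymorphism selects one of its
coordinates, in a way compatible with minors.
-/

set_option autoImplicit false

namespace Pool.Agent.Q112.BP

open Finset Function

variable {V : Type} {E : V → V → Prop} {δ : V → V → ℤ} {B : ℤ} {M : ℕ} [NeZero M]

open Classical in
/-- the degree of `f` in coordinate `i`: the sum along the image of the closed walk `C`, run through
twice, the other coordinates moving on one edge of `C` -/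
noncomputable def deg (δ : V → V → ℤ) (C : ZMod M → V) {ι : Type} (f : (ι → V) → V) (i : ι) : ℤ :=
  T δ (fun s => f (update (fun _ => C 0) i (C (2 * s))))
    (fun s => f (update (fun _ => C 1) i (C (2 * s + 1))))

theorem two_succ (s : ZMod M) : (2 * (s + 1) : ZMod M) = 2 * s + 1 + 1 := by ring

theorem T_even (h : Winding E δ B) (x y : ZMod M → V) (h1 : ∀ s, E (x s) (y s))
    (h2 : ∀ s, E (y s) (x (s + 1))) : (2 : ℤ) ∣ T δ x y := by
  apply Finset.dvd_sum
  intro s _
  obtain ⟨a, ha⟩ := h.odd _ _ (h1 s)
  obtain ⟨b, hb⟩ := h.odd _ _ (h2 s)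
  exact ⟨a + b + 1, by rw [ha, hb]; ring⟩

theorem T_abs (h : Winding E δ B) (x y : ZMod M → V) (h1 : ∀ s, E (x s) (y s))
    (h2 : ∀ s, E (y s) (x (s + 1))) : |T δ x y| ≤ 2 * M * B := by
  unfold T
  refine (Finset.abs_sum_le_sum_abs _ _).trans ?_
  have h3 : ∀ s : ZMod M, |δ (x s) (y s) + δ (y s) (x (s + 1))| ≤ 2 * B := by
    intro s
    refine (abs_add_le _ _).trans ?_
    have := h.bdd _ _ (h1 s)
    have := h.bdd _ _ (h2 s)
    linarith
  refine (Finset.sum_le_sum (fun s _ => h3 s)).trans ?_
  rw [Finset.sum_const, Finset.card_univ, ZMod.card, nsmul_eq_mul]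
  linarith

section

variable (h : Winding E δ B) (hs : ∀ x y, E x y → E y x) (hC : Conn E) (hM : Odd M)
  (C : ZMod M → V) (hCy : ∀ u, E (C u) (C (u + 1)))

include h hs hCy in
theorem deg_even {ι : Type} {f : (ι → V) → V} (hf : PolG E f) (i : ι) :
    (2 : ℤ) ∣ deg δ C f i := by
  classical
  have h01 : E (C 0) (C 1) := by simpa using hCy 0
  apply T_even h
  · intro s
    exact hf.slot i _ _ _ _ (hCy _) (fun _ => h01)
  · intro s
    refine hs _ _ (hf.slot i _ _ _ _ ?_ (fun _ => h01))
    rw [two_succ]
    exact hs _ _ (hCy _)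

include h hs hC hM hCy in
theorem deg_sum_odd {ι : Type} [Fintype ι] {f : (ι → V) → V} (hf : PolG E f) :
    ¬ (4 : ℤ) ∣ ∑ i, deg δ C f i := by
  classical
  have h01 : E (C 0) (C 1) := by simpa using hCy 0
  have e1 := T_sum h hs hC hf (fun s _ => C (2 * s)) (fun s _ => C (2 * s + 1))
    (fun s _ => hCy _) (fun s _ => by rw [two_succ]; exact hs _ _ (hCy _))
    (fun _ => C 0) (fun _ => C 1) (fun _ => h01)
  have e2 : ∑ i, deg δ C f i = ∑ i, T δ (fun s => f (update (fun _ => C 0) i (C (2 * s))))
      (fun s => f (update (fun _ => C 1) i (C (2 * s + 1)))) := by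
    apply Finset.sum_congr rfl
    intro i _
    unfold deg
    congr! 3
  rw [e2, ← e1]
  have e3 := T_dbl hM δ (fun p => f (fun _ => p)) (fun p => f (fun _ => p)) C
  rw [e3]
  unfold AA
  have hodd := fun u => h.odd _ _ (hf (fun _ => C u) (fun _ => C (u + 1)) (fun _ => hCy u))
  choose a ha using hodd
  have e4 : ∑ u : ZMod M, (δ (f fun _ => C u) (f fun _ => C (u + 1)) +
      δ (f fun _ => C u) (f fun _ => C (u + 1))) = 4 * ∑ u, a u + 2 * M := by
    have e5 : ∀ u : ZMod M, (δ (f fun _ => C u) (f fun _ => C (u + 1)) +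
      δ (f fun _ => C u) (f fun _ => C (u + 1))) = 4 * a u + 2 := by
      intro u
      have := ha u
      linarith
    rw [Finset.sum_congr rfl (fun u _ => e5 u), Finset.sum_add_distrib, ← Finset.mul_sum,
      Finset.sum_const, Finset.card_univ, ZMod.card]
    simp [mul_comm]
  rw [e4]
  obtain ⟨k, hk⟩ := hM
  have hkM : (M : ℤ) = 2 * k + 1 := by exact_mod_cast hk
  rintro ⟨b, hb⟩
  generalize (∑ u, a u) = S at hb
  omega

include h hs hC hCy in
theorem deg_minor {ι κ : Type} [Fintype ι] {f : (ι → V) → V} (hf : PolG E f) (π : ι → κ) (k : κ) :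
    deg δ C (fun y : κ → V => f (y ∘ π)) k =
      ∑ i, open Classical in if π i = k then deg δ C f i else 0 := by
  classical
  have h01 : E (C 0) (C 1) := by simpa using hCy 0
  have e1 := T_sum h hs hC hf (fun s i => if π i = k then C (2 * s) else C 0)
    (fun s i => if π i = k then C (2 * s + 1) else C 1)
    (fun s i => by
      by_cases hi : π i = k
      · simp only [hi, if_true]; exact hCy _
      · simp only [hi, if_false]; exact h01)
    (fun s i => by
      by_cases hi : π i = k
      · simp only [hi, if_true]; rw [two_succ]; exact hs _ _ (hCy _)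
      · simp only [hi, if_false]; exact h01)
    (fun _ => C 0) (fun _ => C 1) (fun _ => h01)
  have e2 : deg δ C (fun y : κ → V => f (y ∘ π)) k =
      T δ (fun s => f (fun i => if π i = k then C (2 * s) else C 0))
        (fun s => f (fun i => if π i = k then C (2 * s + 1) else C 1)) := by
    unfold deg
    congr 1
    · funext s
      show f _ = f _
      congr 1
      funext i
      simp only [Function.comp, Function.update_apply]
    · funext s
      show f _ = f _
      congr 1
      funext i
      simp only [Function.comp, Function.update_apply]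
  rw [e2, e1]
  apply Finset.sum_congr rfl
  intro i _
  by_cases hi : π i = k
  · simp only [hi, if_true]
    unfold deg
    congr! 3
  · simp only [hi, if_false]
    have e3 : update (fun _ : ι => C 0) i (C 0) = fun _ => C 0 := by
      funext j
      by_cases hj : j = i <;> simp [Function.update_apply]
    have e4 : update (fun _ : ι => C 1) i (C 1) = fun _ => C 1 := by
      funext j
      by_cases hj : j = i <;> simp [Function.update_apply]
    rw [e3, e4]
    exact T_const h (hf _ _ (fun _ => h01))

include h hs hC hM hCy in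
theorem deg_abs_sum {ι : Type} [Fintype ι] {f : (ι → V) → V} (hf : PolG E f) :
    ∑ i, |deg δ C f i| ≤ 2 * M * B := by
  classical
  have h01 : E (C 0) (C 1) := by simpa using hCy 0
  have n1 : ∀ s : ZMod M, E (C (-(2 * s))) (C (-(2 * s + 1))) := by
    intro s
    have := hCy (-(2 * s + 1))
    have e : (-(2 * s + 1) + 1 : ZMod M) = -(2 * s) := by ring
    rw [e] at this
    exact hs _ _ this
  have n2 : ∀ s : ZMod M, E (C (-(2 * (s + 1)))) (C (-(2 * s + 1))) := by
    intro s
    have := hCy (-(2 * (s + 1)))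
    have e : (-(2 * (s + 1)) + 1 : ZMod M) = -(2 * s + 1) := by ring
    rw [e] at this
    exact this
  have H1 : ∀ (s : ZMod M) (i : ι), E (if 0 ≤ deg δ C f i then C (2 * s) else C (-(2 * s)))
      (if 0 ≤ deg δ C f i then C (2 * s + 1) else C (-(2 * s + 1))) := by
    intro s i
    by_cases hi : 0 ≤ deg δ C f i
    · simp only [hi, if_true]; exact hCy _
    · simp only [hi, if_false]; exact n1 s
  have H2 : ∀ (s : ZMod M) (i : ι),
      E (if 0 ≤ deg δ C f i then C (2 * (s + 1)) else C (-(2 * (s + 1))))
      (if 0 ≤ deg δ C f i then C (2 * s + 1) else C (-(2 * s + 1))) := by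
    intro s i
    by_cases hi : 0 ≤ deg δ C f i
    · simp only [hi, if_true]; rw [two_succ]; exact hs _ _ (hCy _)
    · simp only [hi, if_false]; exact n2 s
  have e1 := T_sum h hs hC hf
    (fun s i => if 0 ≤ deg δ C f i then C (2 * s) else C (-(2 * s)))
    (fun s i => if 0 ≤ deg δ C f i then C (2 * s + 1) else C (-(2 * s + 1))) H1 H2
    (fun _ => C 0) (fun _ => C 1) (fun _ => h01)
  have e2 : ∀ i, T δ (fun s => f (update (fun _ => C 0) i
        (if 0 ≤ deg δ C f i then C (2 * s) else C (-(2 * s)))))
      (fun s => f (update (fun _ => C 1) i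
        (if 0 ≤ deg δ C f i then C (2 * s + 1) else C (-(2 * s + 1))))) = |deg δ C f i| := by
    intro i
    have hd : deg δ C f i = T δ (fun s => f (update (fun _ => C 0) i (C (2 * s))))
        (fun s => f (update (fun _ => C 1) i (C (2 * s + 1)))) := by
      unfold deg
      congr! 3
    by_cases hi : 0 ≤ deg δ C f i
    · simp only [hi, if_true]
      rw [abs_of_nonneg hi, hd]
    · simp only [hi, if_false]
      rw [abs_of_neg (not_le.1 hi), hd]
      have e3 := T_dbl hM δ (fun p => f (update (fun _ => C 0) i p))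
        (fun p => f (update (fun _ => C 1) i p)) C
      have e4 := T_dbl hM δ (fun p => f (update (fun _ => C 0) i p))
        (fun p => f (update (fun _ => C 1) i p)) (fun u => C (-u))
      rw [e3, e4]
      exact AA_rev h _ _ C (fun u => hf.slot i _ _ _ _ (hCy u) (fun _ => h01))
        (fun u => hf.slot i _ _ _ _ (hCy u) (fun _ => hs _ _ h01))
  rw [← Finset.sum_congr rfl (fun i _ => e2 i), ← e1]
  refine (le_abs_self _).trans (T_abs h _ _ (fun s => hf _ _ (fun i => H1 s i))
    (fun s => hs _ _ (hf _ _ (fun i => H2 s i))))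

open Classical in
/-- the coordinates of odd degree -/
noncomputable def oddSet (δ : V → V → ℤ) (C : ZMod M → V) {ι : Type} [Fintype ι]
    (f : (ι → V) → V) : Finset ι :=
  Finset.univ.filter (fun i => ¬ (4 : ℤ) ∣ deg δ C f i)

include h hs hC hM hCy in
theorem oddSet_card {ι : Type} [Fintype ι] {f : (ι → V) → V} (hf : PolG E f) :
    ((oddSet δ C f).card : ℤ) ≤ M * B := by
  classical
  have h1 := deg_abs_sum h hs hC hM C hCy hf
  have h2 : (2 : ℤ) * (oddSet δ C f).card ≤ ∑ i, |deg δ C f i| := by
    calc (2 : ℤ) * (oddSet δ C f).card = ∑ i ∈ oddSet δ C f, (2 : ℤ) := by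
          rw [Finset.sum_const, nsmul_eq_mul, mul_comm]
      _ ≤ ∑ i ∈ oddSet δ C f, |deg δ C f i| := by
          apply Finset.sum_le_sum
          intro i hi
          have h3 : ¬ (4 : ℤ) ∣ deg δ C f i := by simpa [oddSet] using hi
          obtain ⟨a, ha⟩ := deg_even h hs C hCy hf i
          rcases le_or_gt 0 a with h4 | h4
          · rw [abs_of_nonneg (by omega)]
            omega
          · rw [abs_of_neg (by omega)]
            omega
      _ ≤ ∑ i, |deg δ C f i| :=
          Finset.sum_le_univ_sum_of_nonneg (fun i => abs_nonneg _)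
  linarith

/-- star composition -/
def star {ι κ : Type} (m : (ι → V) → V) (g : (κ → V) → V) (z : ι × κ → V) : V :=
  m (fun i => g (fun k => z (i, k)))

theorem star_pol {ι κ : Type} {m : (ι → V) → V} {g : (κ → V) → V} (hm : PolG E m)
    (hg : PolG E g) : PolG E (star m g) := by
  intro x y hxy
  exact hm _ _ (fun i => hg _ _ (fun k => hxy (i, k)))

include h hs hC hM hCy in
theorem deg_block {ι κ : Type} [Fintype ι] [Fintype κ] {m : (ι → V) → V} {g : (κ → V) → V}
    (hm : PolG E m) (hg : PolG E g) (i : ι) :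
    (4 : ℤ) ∣ ∑ k, deg δ C (star m g) (i, k) - deg δ C m i := by
  classical
  have h01 : E (C 0) (C 1) := by simpa using hCy 0
  have e1 := deg_minor h hs hC C hCy (star_pol hm hg) Prod.fst i
  have e2 : ∑ z : ι × κ, (if z.1 = i then deg δ C (star m g) z else 0) =
      ∑ k, deg δ C (star m g) (i, k) := by
    rw [Fintype.sum_prod_type, Finset.sum_eq_single i]
    · simp
    · intro j _ hj
      simp [hj]
    · intro hi
      exact absurd (Finset.mem_univ _) hi
  have e3 : ∑ k, deg δ C (star m g) (i, k) =
      deg δ C (fun y : ι → V => star m g (y ∘ Prod.fst)) i := by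
    rw [e1, ← e2]
  rw [e3]
  have e4 : deg δ C (fun y : ι → V => star m g (y ∘ Prod.fst)) i =
      AA δ (fun p => m (update (fun _ => g (fun _ => C 0)) i p))
        (fun p => m (update (fun _ => g (fun _ => C 1)) i p)) (fun u => g (fun _ => C u)) := by
    rw [← T_dbl hM]
    unfold deg
    congr 1
    · funext s
      show m _ = m _
      congr 1
      funext j
      by_cases hj : j = i
      · subst hj
        simp [Function.comp]
      · simp [Function.comp, hj, Function.update_apply]
    · funext s
      show m _ = m _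
      congr 1
      funext j
      by_cases hj : j = i
      · subst hj
        simp [Function.comp]
      · simp [Function.comp, hj, Function.update_apply]
  have e5 : deg δ C m i = AA δ (fun p => m (update (fun _ => C 0) i p))
        (fun p => m (update (fun _ => C 1) i p)) C := by
    rw [← T_dbl hM]
    unfold deg
    congr! 3
  rw [e4, e5]
  exact parity h hs (EP := E) (EQ := fun x y : ι → V => ∀ i, E (x i) (y i))
    (g := fun p q => m (update q i p)) hs (fun x y hxy i => hs _ _ (hxy i))
    (fun p p' q q' hp hq => hm.slot i p p' q q' hp hq) hC.pi hC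
    (c := fun _ => g (fun _ => C 0)) (c' := fun _ => g (fun _ => C 1)) (d := fun _ => C 0)
    (d' := fun _ => C 1) (fun _ => hg _ _ (fun _ => h01)) (fun _ => h01) hM
    (fun u => g (fun _ => C u)) C (fun u => hg _ _ (fun _ => hCy u)) hCy

theorem deg_local {ι κ : Type} (m : (ι → V) → V) {g g' : (κ → V) → V}
    (hgg : ∀ x : κ → V, (∀ k, x k ∈ Set.range C) → g x = g' x) (z : ι × κ) :
    deg δ C (star m g) z = deg δ C (star m g') z := by
  classical
  unfold deg
  congr 1
  · funext s
    unfold star
    congr 1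
    funext i
    apply hgg
    intro k
    simp only [Function.update_apply]
    split_ifs
    · exact ⟨_, rfl⟩
    · exact ⟨_, rfl⟩
  · funext s
    unfold star
    congr 1
    funext i
    apply hgg
    intro k
    simp only [Function.update_apply]
    split_ifs
    · exact ⟨_, rfl⟩
    · exact ⟨_, rfl⟩

include h hs hC hM hCy in
/-- a polymorphism whose number of odd coordinates is maximal -/
theorem exists_max : ∃ (ι : Type) (_ : Fintype ι) (m : (ι → V) → V), PolG E m ∧
    (oddSet δ C m).Nonempty ∧ ∀ (κ : Type) [Fintype κ] (g : (κ → V) → V), PolG E g →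
      (oddSet δ C g).card ≤ (oddSet δ C m).card := by
  classical
  let S : Set ℕ := {N | ∃ (ι : Type) (_ : Fintype ι) (m : (ι → V) → V), PolG E m ∧
    (oddSet δ C m).card = N}
  have hne : S.Nonempty := ⟨_, Unit, inferInstance, fun x => x (), fun x y hxy => hxy (), rfl⟩
  have hbd : BddAbove S := by
    refine ⟨(M * B).toNat, ?_⟩
    rintro N ⟨ι, _, m, hm, rfl⟩
    have := oddSet_card h hs hC hM C hCy hm
    omega
  obtain ⟨ι, hι, m, hm, hN⟩ := Nat.sSup_mem hne hbd
  refine ⟨ι, hι, m, hm, ?_, ?_⟩
  · rw [Finset.nonempty_iff_ne_empty]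
    intro hemp
    apply deg_sum_odd h hs hC hM C hCy hm
    apply Finset.dvd_sum
    intro i _
    by_contra hi
    have : i ∈ oddSet δ C m := by simpa [oddSet] using hi
    rw [hemp] at this
    exact absurd this (Finset.notMem_empty _)
  · intro κ _ g hg
    rw [hN]
    exact le_csSup hbd ⟨κ, inferInstance, g, hg, rfl⟩

include h hs hC hM hCy in
theorem exists_unique_coord : ∃ (ι : Type) (_ : Fintype ι) (m : (ι → V) → V) (i₀ : ι), PolG E m ∧
    ∀ (κ : Type) [Fintype κ] (g : (κ → V) → V), PolG E g →
      ∃! k, ¬ (4 : ℤ) ∣ deg δ C (star m g) (i₀, k) := by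
  classical
  obtain ⟨ι, hι, m, hm, ⟨i₀, hi₀⟩, hmax⟩ := exists_max h hs hC hM C hCy
  refine ⟨ι, hι, m, i₀, hm, ?_⟩
  intro κ _ g hg
  have hblock : ∀ i ∈ oddSet δ C m, ∃ k, ¬ (4 : ℤ) ∣ deg δ C (star m g) (i, k) := by
    intro i hi
    by_contra hno
    push Not at hno
    have h1 := deg_block h hs hC hM C hCy hm hg i
    have h2 : (4 : ℤ) ∣ ∑ k, deg δ C (star m g) (i, k) := Finset.dvd_sum (fun k _ => hno k)
    have h3 : ¬ (4 : ℤ) ∣ deg δ C m i := by simpa [oddSet] using hi
    apply h3
    have := dvd_sub h2 h1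
    simpa using this
  have hκ : Nonempty κ := ⟨(hblock i₀ hi₀).choose⟩
  choose! φ hφ using hblock
  refine ⟨φ i₀, hφ i₀ hi₀, ?_⟩
  intro k hk
  by_contra hne
  -- one more odd coordinate than m
  have h4 : (insert (i₀, k) ((oddSet δ C m).image (fun i => (i, φ i)))) ⊆
      oddSet δ C (star m g) := by
    intro z hz
    rw [Finset.mem_insert, Finset.mem_image] at hz
    rcases hz with rfl | ⟨i, hi, rfl⟩
    · simpa [oddSet] using hk
    · simpa [oddSet] using hφ i hi
  have h5 := Finset.card_le_card h4
  have h6 : (i₀, k) ∉ (oddSet δ C m).image (fun i => (i, φ i)) := by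
    intro hmem
    obtain ⟨i, hi, hik⟩ := Finset.mem_image.1 hmem
    simp only [Prod.mk.injEq] at hik
    obtain ⟨rfl, h7⟩ := hik
    exact hne h7.symm
  rw [Finset.card_insert_of_notMem h6, Finset.card_image_of_injective _
    (fun a b hab => (Prod.mk.inj hab).1)] at h5
  have h7 := hmax (ι × κ) (star m g) (star_pol hm hg)
  omega

include h hs hC hM hCy in
/-- every polymorphism selects one of its coordinates -/
theorem select : ∃ Φ : ∀ (κ : Type) [Fintype κ] (g : (κ → V) → V), PolG E g → κ,
    (∀ (κ κ' : Type) [Fintype κ] [Fintype κ'] (π : κ → κ') (g : (κ → V) → V) (hg : PolG E g)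
      (hg' : PolG E (fun y : κ' → V => g (y ∘ π))), Φ κ' (fun y => g (y ∘ π)) hg' = π (Φ κ g hg)) ∧
    (∀ (κ : Type) [Fintype κ] (g g' : (κ → V) → V) (hg : PolG E g) (hg' : PolG E g'),
      (∀ x : κ → V, (∀ k, x k ∈ Set.range C) → g x = g' x) → Φ κ g hg = Φ κ g' hg') := by
  classical
  obtain ⟨ι, hι, m, i₀, hm, hu⟩ := exists_unique_coord h hs hC hM C hCy
  refine ⟨fun κ _ g hg => (hu κ g hg).choose, ?_, ?_⟩
  · intro κ κ' _ _ π g hg hg'
    obtain ⟨h1, h2⟩ := (hu κ' (fun y => g (y ∘ π)) hg').choose_spec
    obtain ⟨h3, h4⟩ := (hu κ g hg).choose_spec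
    symm
    apply h2
    -- the degree of the minor
    have e1 := deg_minor h hs hC C hCy (star_pol hm hg) (fun z : ι × κ => (z.1, π z.2))
      (i₀, π (hu κ g hg).choose)
    have e2 : (fun y : ι × κ' → V => star m g (y ∘ fun z : ι × κ => (z.1, π z.2))) =
        star m (fun y => g (y ∘ π)) := by
      funext y
      rfl
    rw [e2] at e1
    rw [e1]
    intro hdiv
    apply h3
    have e3 : ∑ z : ι × κ, (if (z.1, π z.2) = (i₀, π (hu κ g hg).choose) then
        deg δ C (star m g) z else 0) = deg δ C (star m g) (i₀, (hu κ g hg).choose) +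
        ∑ z ∈ Finset.univ.erase (i₀, (hu κ g hg).choose),
          (if (z.1, π z.2) = (i₀, π (hu κ g hg).choose) then deg δ C (star m g) z else 0) := by
      rw [← Finset.add_sum_erase _ _ (Finset.mem_univ (i₀, (hu κ g hg).choose))]
      simp
    have e4 : (4 : ℤ) ∣ ∑ z ∈ Finset.univ.erase (i₀, (hu κ g hg).choose),
          (if (z.1, π z.2) = (i₀, π (hu κ g hg).choose) then deg δ C (star m g) z else 0) := by
      apply Finset.dvd_sum
      rintro ⟨i, k⟩ hz
      split_ifs with hz2
      · simp only [Prod.mk.injEq] at hz2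
        obtain ⟨rfl, _⟩ := hz2
        by_contra hz3
        have := h4 k hz3
        rw [Finset.mem_erase] at hz
        exact hz.1 (by rw [this])
      · exact dvd_zero _
    have e5 : (4 : ℤ) ∣ ∑ z : ι × κ, (if (z.1, π z.2) = (i₀, π (hu κ g hg).choose) then
        deg δ C (star m g) z else 0) := by
      convert hdiv using 4
    rw [e3] at e5
    exact (Int.dvd_add_left e4).1 e5
  · intro κ _ g g' hg hg' hgg
    obtain ⟨h1, h2⟩ := (hu κ g' hg').choose_spec
    obtain ⟨h3, h4⟩ := (hu κ g hg).choose_spec
    apply h2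
    intro hd
    apply h3
    rw [deg_local C m hgg]
    exact hd

end

end Pool.Agent.Q112.BP
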